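import Pool.Agent.H38.LR.T3997.Q120.CL.C6

/-!
# Runs in the sieved models: probabilities
-/

set_option autoImplicit false

namespace Pool.Agent.H38.LR

open Finset MeasureTheory Filter Pool.Agent.Q120.MG Pool.Agent.Q120.GM Pool.Agent.Q120.CL
open scoped Topology

/-- The elements of `S` in `[n, n + (k - 1) d]` are exactly `n, n + d, ..., n + (k - 1) d`. -/
def Run (S : Set ℕ) (n k d : ℕ) : Prop :=
  ∀ m, n ≤ m → m ≤ n + (k - 1) * d → (m ∈ S ↔ ∃ i < k, m = n + i * d)

/-- The set `n, n + d, ..., n + (k - 1) d`. -/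
def pat (n k d : ℕ) : Finset ℕ := (range k).image (fun i => n + i * d)

/-- The other integers of `[n, n + (k - 1) d]`. -/
def rest (n k d : ℕ) : Finset ℕ := Icc n (n + (k - 1) * d) \ pat n k d

theorem mem_pat {n k d m : ℕ} : m ∈ pat n k d ↔ ∃ i < k, m = n + i * d := by
  unfold pat
  rw [mem_image]
  constructor
  · rintro ⟨i, hi, rfl⟩
    exact ⟨i, mem_range.1 hi, rfl⟩
  · rintro ⟨i, hi, rfl⟩
    exact ⟨i, mem_range.2 hi, rfl⟩

theorem pat_subset (n k d : ℕ) : pat n k d ⊆ Icc n (n + (k - 1) * d) := by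
  intro m hm
  obtain ⟨i, hi, rfl⟩ := mem_pat.1 hm
  rw [mem_Icc]
  have : i * d ≤ (k - 1) * d := Nat.mul_le_mul_right _ (by omega)
  omega

theorem card_pat {n k d : ℕ} (hd : 1 ≤ d) : (pat n k d).card = k := by
  unfold pat
  rw [card_image_of_injective, card_range]
  intro a b h
  have h' : n + a * d = n + b * d := h
  have h2 : a * d = b * d := by omega
  exact Nat.eq_of_mul_eq_mul_right hd h2

variable {Ω : Type*} [MeasurableSpace Ω] {μ : Measure Ω} [IsProbabilityMeasure μ] {A : Ω → Set ℕ} {z : ℕ → ℕ}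

theorem run_eq (n k d : ℕ) : {ω | Run (A ω) n k d} = all A (pat n k d) ∩ free A (rest n k d) := by
  ext ω
  constructor
  · intro h
    refine ⟨fun m hm => ?_, fun m hm hA => ?_⟩
    · have h1 := mem_Icc.1 (pat_subset n k d hm)
      exact (h m h1.1 h1.2).2 (mem_pat.1 hm)
    · unfold rest at hm
      rw [Finset.mem_sdiff, mem_Icc] at hm
      exact hm.2 (mem_pat.2 ((h m hm.1.1 hm.1.2).1 hA))
  · rintro ⟨h1, h2⟩ m hm1 hm2
    constructor
    · intro hA
      by_contra hcon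
      refine h2 m ?_ hA
      unfold rest
      rw [Finset.mem_sdiff, mem_Icc]
      exact ⟨⟨hm1, hm2⟩, fun h => hcon (mem_pat.1 h)⟩
    · intro h
      exact h1 m (mem_pat.2 h)

theorem F_run {n k d : ℕ} {S : Set ℕ} (hS : ∀ m, n ≤ m → m ≤ n + (k - 1) * d → m ∈ S) :
    MeasurableSet[F A S] {ω | Run (A ω) n k d} := by
  rw [run_eq]
  refine MeasurableSet.inter (F_all fun m hm => ?_) (F_free fun m hm => ?_)
  · have h1 := mem_Icc.1 (pat_subset n k d hm)
    exact hS m h1.1 h1.2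
  · unfold rest at hm
    rw [Finset.mem_sdiff, mem_Icc] at hm
    exact hS m hm.1.1 hm.1.2

theorem meas_run (hA : IsModel μ (pr z) A) (n k d : ℕ) : MeasurableSet {ω | Run (A ω) n k d} :=
  F_le hA Set.univ _ (F_run (fun _ _ _ => Set.mem_univ _))

theorem real_run (hA : IsModel μ (pr z) A) (n k d : ℕ) :
    μ.real {ω | Run (A ω) n k d} = (∏ m ∈ pat n k d, pr z m) * ∏ m ∈ rest n k d, (1 - pr z m) := by
  rw [run_eq, indep_real hA (S := ↑(pat n k d)) (T := ↑(rest n k d)) ?_ (F_all fun m hm => hm)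
    (F_free fun m hm => hm), real_all hA, real_free hA]
  rw [Finset.disjoint_coe]
  unfold rest
  exact disjoint_sdiff

open Classical in
/-- the number of the rough integers in a set -/
noncomputable def rc (z : ℕ) (R : Finset ℕ) : ℕ := (R.filter (Rough z)).card

/-- upper bound for the probability of an empty set -/
theorem free_le' {j : ℕ} (hj : 1 ≤ j) (hq : 1 ≤ Vf (z j) * (j * Real.log 2)) {R : Finset ℕ}
    (hR : ∀ m ∈ R, 2 ^ j ≤ m ∧ m < 2 ^ (j + 1)) :
    ∏ m ∈ R, (1 - pr z m) ≤ Real.exp (-((rc (z j) R : ℝ) / (Vf (z j) * (((j : ℝ) + 1) * Real.log 2)))) := by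
  classical
  have h3 : ∀ n ∈ R, 1 - pr z n ≤ Real.exp (-(if Rough (z j) n then 1 / (Vf (z j) * (((j : ℝ) + 1) * Real.log 2)) else 0)) := by
    intro n hn
    obtain ⟨e1, e2⟩ := hR n hn
    have e3 := Real.add_one_le_exp (-(if Rough (z j) n then 1 / (Vf (z j) * (((j : ℝ) + 1) * Real.log 2)) else 0))
    refine le_trans ?_ e3
    split_ifs with h
    · have := le_pr hj hq e1 e2 h
      linarith
    · have := pr_nonneg z n
      linarith
  refine (prod_le_prod (fun n _ => by linarith [pr_le_one z n]) h3).trans ?_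
  rw [← Real.exp_sum, sum_neg_distrib, ← sum_filter, sum_const, nsmul_eq_mul]
  unfold rc
  rw [mul_one_div]

/-- lower bound for the probability of an empty set -/
theorem le_free' {j : ℕ} (hj : 1 ≤ j) {q : ℝ} (hq : 1 / (Vf (z j) * (j * Real.log 2)) ≤ q)
    (hq2 : q ≤ 1 / 2) {R : Finset ℕ} (hR : ∀ m ∈ R, 2 ^ j ≤ m ∧ m < 2 ^ (j + 1)) :
    Real.exp (-((1 + 2 * q) * ((rc (z j) R : ℝ) * (1 / (Vf (z j) * (j * Real.log 2)))))) ≤ ∏ m ∈ R, (1 - pr z m) := by
  classical
  have hV := Vf_pos (z j)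
  have hk0 : (0 : ℝ) < j := by exact_mod_cast hj
  have hl2 : 0 < Real.log 2 := Real.log_pos (by norm_num)
  obtain ⟨β, hβ⟩ : ∃ β, β = 1 / (Vf (z j) * (j * Real.log 2)) := ⟨_, rfl⟩
  have hβ0 : 0 < β := by rw [hβ]; positivity
  rw [← hβ] at hq ⊢
  have h0 : ((rc (z j) R : ℝ) * β) = ∑ n ∈ R, (if Rough (z j) n then β else 0) := by
    rw [← sum_filter, sum_const, nsmul_eq_mul]
    rfl
  rw [h0, mul_sum, ← sum_neg_distrib, Real.exp_sum]
  refine prod_le_prod (fun _ _ => (Real.exp_pos _).le) (fun n hn => ?_)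
  obtain ⟨e1, e2⟩ := hR n hn
  split_ifs with h
  · have h3 := pr_le (z := z) hj e1 e2
    rw [← hβ] at h3
    have h4 := pr_nonneg z n
    have h5 := Pool.Agent.Q120.TD.one_sub_ge hβ0.le (hq.trans hq2)
    have h6 : Real.exp (-((1 + 2 * q) * β)) ≤ Real.exp (-(β + 2 * β ^ 2)) := by
      rw [Real.exp_le_exp]
      nlinarith
    linarith
  · rw [pr_zero e1 e2 h, mul_zero, neg_zero, Real.exp_zero, sub_zero]

theorem rc_mono {z : ℕ} {R R' : Finset ℕ} (h : R ⊆ R') : rc z R ≤ rc z R' := by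
  classical
  exact card_le_card (filter_subset_filter _ h)

theorem rc_le_card (z : ℕ) (R : Finset ℕ) : rc z R ≤ R.card := by
  classical
  exact card_filter_le _ _

/-- the rough integers of `[n, n + (k - 1) d]` -/
theorem rc_rest_le {z n k d : ℕ} (hn : 1 ≤ n) : rc z (rest n k d) ≤ Wf z (n - 1) ((k - 1) * d + 1) := by
  classical
  refine (rc_mono (R' := Icc n (n + (k - 1) * d)) ?_).trans ?_
  · unfold rest
    exact sdiff_subset
  · unfold rc Wf
    have h1 : Icc n (n + (k - 1) * d) = Ioc (n - 1) (n - 1 + ((k - 1) * d + 1)) := by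
      ext m
      rw [mem_Icc, mem_Ioc]
      omega
    rw [h1]
    rfl

theorem le_rc_rest {z n k d : ℕ} (hn : 1 ≤ n) (hd : 1 ≤ d) :
    (Wf z (n - 1) ((k - 1) * d + 1) : ℝ) - k ≤ rc z (rest n k d) := by
  classical
  have h1 : Icc n (n + (k - 1) * d) = Ioc (n - 1) (n - 1 + ((k - 1) * d + 1)) := by
    ext m
    rw [mem_Icc, mem_Ioc]
    omega
  have h2 : Wf z (n - 1) ((k - 1) * d + 1) ≤ rc z (rest n k d) + k := by
    unfold rc Wf
    rw [← h1]
    have h3 : (Icc n (n + (k - 1) * d)).filter (Rough z) ⊆ (rest n k d).filter (Rough z) ∪ pat n k d := by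
      intro m hm
      rw [mem_filter] at hm
      rw [mem_union]
      by_cases h : m ∈ pat n k d
      · exact Or.inr h
      · left
        unfold rest
        rw [mem_filter, Finset.mem_sdiff]
        exact ⟨⟨hm.1, h⟩, hm.2⟩
    refine (card_le_card h3).trans ((card_union_le _ _).trans ?_)
    rw [card_pat hd]
  have h3 : (Wf z (n - 1) ((k - 1) * d + 1) : ℝ) ≤ rc z (rest n k d) + k := by exact_mod_cast h2
  linarith

/-- Full periods: the number of the rough integers in `[n, n + (k - 1) d]` if `PQ z ∣ d`. -/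
theorem W_period {z n k d : ℕ} (hd : PQ z ∣ d) :
    Vf z * (((k - 1) * d : ℕ) : ℝ) ≤ Wf z (n - 1) ((k - 1) * d + 1) ∧
      (Wf z (n - 1) ((k - 1) * d + 1) : ℝ) ≤ Vf z * (((k - 1) * d : ℕ) : ℝ) + 1 := by
  classical
  obtain ⟨c, rfl⟩ := hd
  have h1 : (k - 1) * (PQ z * c) = PQ z * ((k - 1) * c) := by ring
  have h2 := Wf_full z (n - 1) ((k - 1) * c)
  have h3 := Wf_add z (n - 1) (PQ z * ((k - 1) * c)) 1
  have h4 : Wf z (n - 1 + PQ z * ((k - 1) * c)) 1 ≤ 1 := by
    unfold Wf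
    refine (card_filter_le _ _).trans ?_
    rw [Nat.card_Ioc]
    omega
  rw [h1]
  have h5 : (Wf z (n - 1) (PQ z * ((k - 1) * c) + 1) : ℝ) = Wf z (n - 1) (PQ z * ((k - 1) * c)) +
      Wf z (n - 1 + PQ z * ((k - 1) * c)) 1 := by exact_mod_cast h3
  have h6 : (0 : ℝ) ≤ Wf z (n - 1 + PQ z * ((k - 1) * c)) 1 := Nat.cast_nonneg _
  have h7 : (Wf z (n - 1 + PQ z * ((k - 1) * c)) 1 : ℝ) ≤ 1 := by exact_mod_cast h4
  rw [h5, h2]
  constructor <;> linarith

/-- the probability of a run from above -/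
theorem run_le (hA : IsModel μ (pr z) A) {j n k d : ℕ} (hj : 1 ≤ j) (hq : 1 ≤ Vf (z j) * (j * Real.log 2))
    (hd : 1 ≤ d) (h1 : 2 ^ j ≤ n) (h2 : n + (k - 1) * d < 2 ^ (j + 1)) :
    μ.real {ω | Run (A ω) n k d} ≤ (1 / (Vf (z j) * (j * Real.log 2))) ^ k *
      Real.exp (-(((Wf (z j) (n - 1) ((k - 1) * d + 1) : ℝ) - k) / (Vf (z j) * (((j : ℝ) + 1) * Real.log 2)))) := by
  have hV := Vf_pos (z j)
  have hk0 : (0 : ℝ) < j := by exact_mod_cast hj
  have hl2 : 0 < Real.log 2 := Real.log_pos (by norm_num)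
  rw [real_run hA]
  have e1 : ∏ m ∈ pat n k d, pr z m ≤ (1 / (Vf (z j) * (j * Real.log 2))) ^ k := by
    have e0 : (1 / (Vf (z j) * (j * Real.log 2))) ^ k = ∏ _m ∈ pat n k d, (1 / (Vf (z j) * (j * Real.log 2))) := by
      rw [prod_const, card_pat hd]
    rw [e0]
    refine prod_le_prod (fun m _ => pr_nonneg z m) (fun m hm => ?_)
    have := mem_Icc.1 (pat_subset n k d hm)
    exact pr_le hj (by omega) (by omega)
  have e2 := free_le' hj hq (R := rest n k d) (fun m hm => by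
    unfold rest at hm
    rw [Finset.mem_sdiff, mem_Icc] at hm
    omega)
  have hn : 1 ≤ n := le_trans (Nat.one_le_two_pow) h1
  have e3 := le_rc_rest (z := z j) (n := n) (k := k) (d := d) hn hd
  refine mul_le_mul e1 (e2.trans ?_) (prod_nonneg fun m _ => by linarith [pr_le_one z m]) (by positivity)
  rw [Real.exp_le_exp, neg_le_neg_iff]
  exact div_le_div_of_nonneg_right e3 (by positivity)

/-- the probability of a run from below -/
theorem le_run (hA : IsModel μ (pr z) A) {j n k d : ℕ} (hj : 1 ≤ j) (hq0 : 1 ≤ Vf (z j) * (j * Real.log 2)) {q : ℝ}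
    (hq : 1 / (Vf (z j) * (j * Real.log 2)) ≤ q) (hq2 : q ≤ 1 / 2)
    (hd : 1 ≤ d) (h1 : 2 ^ j ≤ n) (h2 : n + (k - 1) * d < 2 ^ (j + 1)) (hr : ∀ i < k, Rough (z j) (n + i * d)) :
    (1 / (Vf (z j) * (((j : ℝ) + 1) * Real.log 2))) ^ k * Real.exp (-((1 + 2 * q) *
      ((Wf (z j) (n - 1) ((k - 1) * d + 1) : ℝ) * (1 / (Vf (z j) * (j * Real.log 2)))))) ≤
        μ.real {ω | Run (A ω) n k d} := by
  have hV := Vf_pos (z j)
  have hk0 : (0 : ℝ) < j := by exact_mod_cast hj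
  have hl2 : 0 < Real.log 2 := Real.log_pos (by norm_num)
  rw [real_run hA]
  have e1 : (1 / (Vf (z j) * (((j : ℝ) + 1) * Real.log 2))) ^ k ≤ ∏ m ∈ pat n k d, pr z m := by
    have e0 : (1 / (Vf (z j) * (((j : ℝ) + 1) * Real.log 2))) ^ k =
        ∏ _m ∈ pat n k d, (1 / (Vf (z j) * (((j : ℝ) + 1) * Real.log 2))) := by
      rw [prod_const, card_pat hd]
    rw [e0]
    refine prod_le_prod (fun m _ => by positivity) (fun m hm => ?_)
    have e := mem_Icc.1 (pat_subset n k d hm)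
    obtain ⟨i, hi, rfl⟩ := mem_pat.1 hm
    exact le_pr hj hq0 (by omega) (by omega) (hr i hi)
  have e2 := le_free' hj hq hq2 (R := rest n k d) (fun m hm => by
    unfold rest at hm
    rw [Finset.mem_sdiff, mem_Icc] at hm
    omega)
  have hn : 1 ≤ n := le_trans (Nat.one_le_two_pow) h1
  have e3 := rc_rest_le (z := z j) (n := n) (k := k) (d := d) hn
  have hq0' : 0 ≤ q := le_trans (by positivity) hq
  refine mul_le_mul e1 (le_trans ?_ e2) (Real.exp_pos _).le (prod_nonneg fun m _ => pr_nonneg z m)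
  rw [Real.exp_le_exp, neg_le_neg_iff]
  refine mul_le_mul_of_nonneg_left ?_ (by linarith)
  refine mul_le_mul_of_nonneg_right ?_ (by positivity)
  exact_mod_cast e3

end Pool.Agent.H38.LR
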