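import Pool.Agent.H38.LR.A

/-!
# Runs in the sieved models: many disjoint windows
-/

set_option autoImplicit false

namespace Pool.Agent.H38.LR

open Finset MeasureTheory Filter Pool.Agent.Q120.MG Pool.Agent.Q120.GM Pool.Agent.Q120.CL
open scoped Topology

theorem Vf_anti {z w : ℕ} (h : z ≤ w) : Vf w ≤ Vf z := by
  unfold Vf
  have h1 : (range z).filter Nat.Prime ⊆ (range w).filter Nat.Prime := filter_subset_filter _ (range_subset_range.2 h)
  rw [← prod_sdiff h1]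
  have h2 : ∏ p ∈ (range w).filter Nat.Prime \ (range z).filter Nat.Prime, (1 - 1 / (p : ℝ)) ≤ 1 := by
    refine prod_le_one (fun p hp => ?_) (fun p hp => ?_)
    · rw [Finset.mem_sdiff, mem_filter] at hp
      have h3 : (1 : ℝ) ≤ p := by exact_mod_cast hp.1.2.one_le
      have : 1 / (p : ℝ) ≤ 1 := by rw [div_le_one (by linarith)]; exact h3
      linarith
    · have : 0 ≤ 1 / (p : ℝ) := by positivity
      linarith
  have h3 := Vf_pos z
  unfold Vf at h3
  calc _ ≤ 1 * ∏ p ∈ (range z).filter Nat.Prime, (1 - 1 / (p : ℝ)) := mul_le_mul_of_nonneg_right h2 h3.le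
    _ = _ := one_mul _

/-- The density of the level is at least a multiple of `1 / log j`. -/
theorem Vf_ge : ∃ D : ℝ, 0 < D ∧ ∀ᶠ j : ℕ in atTop, ∀ z : ℕ, z ≤ j → 1 / Vf z ≤ D * Real.log j := by
  obtain ⟨g, hg⟩ : ∃ g : ℝ, g = Real.exp (-Real.eulerMascheroniConstant) := ⟨_, rfl⟩
  have hg0 : 0 < g := by rw [hg]; exact Real.exp_pos _
  have h1 := Vf_lim
  rw [← hg] at h1
  refine ⟨2 / g, by positivity, ?_⟩
  filter_upwards [h1.eventually (lt_mem_nhds (show g / 2 < g by linarith))] with j hj z hz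
  have hV := Vf_pos z
  have hVj := Vf_pos j
  have h2 := Vf_anti hz
  have hlog : 0 ≤ Real.log (j : ℝ) := Real.log_natCast_nonneg j
  have h3 : g / 2 < Vf z * Real.log j := lt_of_lt_of_le hj (mul_le_mul_of_nonneg_right h2 hlog)
  rw [div_le_iff₀ hV]
  have h4 : 2 / g * Real.log j * Vf z = 2 / g * (Vf z * Real.log j) := by ring
  rw [h4]
  have h5 : (1 : ℝ) = 2 / g * (g / 2) := by field_simp
  calc (1 : ℝ) = 2 / g * (g / 2) := h5
    _ ≤ 2 / g * (Vf z * Real.log j) := mul_le_mul_of_nonneg_left h3.le (by positivity)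

variable {Ω : Type*} [MeasurableSpace Ω] {μ : Measure Ω} [IsProbabilityMeasure μ] {A : Ω → Set ℕ} {z : ℕ → ℕ}

theorem rough_nj {z t a k j m : ℕ} (h : Rough z (a % PQ z + m)) : Rough z (nj z t a k j + m) := by
  intro p hp hpz hdvd
  refine h p hp hpz ?_
  have h1 : p ∣ PQ z := Finset.dvd_prod_of_mem (fun p => p) (by rw [mem_filter, mem_range]; exact ⟨hpz, hp⟩)
  have h2 : p ∣ DD z t * (2 ^ k / DD z t + 1 + j) := by
    unfold DD
    exact (h1.mul_right _).mul_right _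
  have h3 : nj z t a k j + m = (a % PQ z + m) + DD z t * (2 ^ k / DD z t + 1 + j) := by
    unfold nj
    ring
  rw [h3] at hdvd
  exact (Nat.dvd_add_left h2).1 hdvd

/-- No run in many disjoint windows. -/
theorem no_run (hA : IsModel μ (pr z) A) {j k d a M : ℕ} {p : ℝ}
    (hp : ∀ i < M, p ≤ μ.real {ω | Run (A ω) (nj (z j) ((k - 1) * d) a j i) k d}) :
    μ.real {ω | ∀ i < M, ¬ Run (A ω) (nj (z j) ((k - 1) * d) a j i) k d} ≤ Real.exp (-(M * p)) := by
  classical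
  obtain ⟨N, hN⟩ : ∃ N : ℕ → ℕ, N = nj (z j) ((k - 1) * d) a j := ⟨_, rfl⟩
  have hdisj : ∀ {i i'}, i < i' → N i + (k - 1) * d < N i' := by
    intro i i' h
    rw [hN]
    exact nj_disj _ _ _ _ h
  rw [← hN] at hp ⊢
  have h1 : {ω | ∀ i < M, ¬ Run (A ω) (N i) k d} = ⋂ i ∈ range M, {ω | Run (A ω) (N i) k d}ᶜ := by
    ext ω
    simp
  rw [h1, indep_many hA (range M) (fun i => (↑(Icc (N i) (N i + (k - 1) * d)) : Set ℕ)) ?_ _ ?_]
  · have h2 : ∀ i ∈ range M, μ.real ({ω | Run (A ω) (N i) k d}ᶜ) ≤ Real.exp (-p) := by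
      intro i hi
      rw [measureReal_compl (meas_run hA _ _ _), probReal_univ]
      have h3 := hp i (mem_range.1 hi)
      have h4 := Real.one_sub_le_exp_neg p
      linarith
    refine (prod_le_prod (fun i _ => measureReal_nonneg) h2).trans ?_
    rw [prod_const, card_range, ← Real.exp_nat_mul]
    apply le_of_eq
    congr 1
    ring
  · intro i _ i' _ hii
    rw [Finset.disjoint_coe, Finset.disjoint_left]
    intro m hm1 hm2
    rw [mem_Icc] at hm1 hm2
    rcases Nat.lt_or_gt_of_ne hii with h | h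
    · have := hdisj h
      omega
    · have := hdisj h
      omega
  · intro i _
    refine MeasurableSet.compl (F_run fun m h1 h2 => ?_)
    rw [mem_coe, mem_Icc]
    exact ⟨h1, h2⟩

/-- Some run occurs in the block. -/
def Occ (S : Set ℕ) (j k d : ℕ) : Prop := ∃ n, 2 ^ j ≤ n ∧ n + (k - 1) * d < 2 ^ (j + 1) ∧ Run S n k d

theorem occ_of {S : Set ℕ} {z j k d a : ℕ} (h : ∃ i < 2 ^ j / DD z ((k - 1) * d) - 2, Run S (nj z ((k - 1) * d) a j i) k d) :
    Occ S j k d := by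
  obtain ⟨i, hi, hr⟩ := h
  exact ⟨_, nj_ge _ _ _ _ _, nj_lt hi, hr⟩

theorem meas_occ (hA : IsModel μ (pr z) A) (j k d : ℕ) : MeasurableSet {ω | Occ (A ω) j k d} := by
  have h1 : {ω | Occ (A ω) j k d} = ⋃ n : ℕ, {ω | 2 ^ j ≤ n ∧ n + (k - 1) * d < 2 ^ (j + 1) ∧ Run (A ω) n k d} := by
    ext ω
    simp [Occ]
  rw [h1]
  refine MeasurableSet.iUnion fun n => ?_
  by_cases h : 2 ^ j ≤ n ∧ n + (k - 1) * d < 2 ^ (j + 1)
  · have h2 : {ω | 2 ^ j ≤ n ∧ n + (k - 1) * d < 2 ^ (j + 1) ∧ Run (A ω) n k d} = {ω | Run (A ω) n k d} := by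
      ext ω
      simp [h.1, h.2]
    rw [h2]
    exact meas_run hA _ _ _
  · have h2 : {ω | 2 ^ j ≤ n ∧ n + (k - 1) * d < 2 ^ (j + 1) ∧ Run (A ω) n k d} = ∅ := by
      ext ω
      simp only [Set.mem_setOf_eq, Set.mem_empty_iff_false, iff_false]
      exact fun h3 => h ⟨h3.1, h3.2.1⟩
    rw [h2]
    exact MeasurableSet.empty

/-- The probability that no run with the parameters `k`, `d` occurs in the block `j`. -/
theorem not_occ_le (hA : IsModel μ (pr z) A) {j k d a : ℕ} (hj : 1 ≤ j) (hq0 : 1 ≤ Vf (z j) * (j * Real.log 2)) {q : ℝ}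
    (hq : 1 / (Vf (z j) * (j * Real.log 2)) ≤ q) (hq2 : q ≤ 1 / 2) (hd : 1 ≤ d)
    (hr : ∀ i < k, Rough (z j) (a % PQ (z j) + i * d)) {p : ℝ}
    (hp : ∀ n, 2 ^ j ≤ n → p ≤ (1 / (Vf (z j) * (((j : ℝ) + 1) * Real.log 2))) ^ k * Real.exp (-((1 + 2 * q) *
      ((Wf (z j) (n - 1) ((k - 1) * d + 1) : ℝ) * (1 / (Vf (z j) * (j * Real.log 2))))))) :
    μ.real {ω | ¬ Occ (A ω) j k d} ≤ Real.exp (-((2 ^ j / DD (z j) ((k - 1) * d) - 2 : ℕ) * p)) := by
  have h1 := no_run hA (j := j) (k := k) (d := d) (a := a) (M := 2 ^ j / DD (z j) ((k - 1) * d) - 2) (p := p) (fun i hi =>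
    (hp _ (nj_ge _ _ _ _ _)).trans (le_run hA hj hq0 hq hq2 hd (nj_ge _ _ _ _ _) (nj_lt hi) (fun i' hi' => rough_nj (hr i' hi'))))
  refine le_trans (measureReal_mono ?_ (measure_ne_top _ _)) h1
  intro ω hω i hi hrun
  exact hω (occ_of ⟨i, hi, hrun⟩)

end Pool.Agent.H38.LR
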