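import Pool.Agent.H38.LR.B

/-!
# Runs in the sieved models: every cheap run occurs
-/

set_option autoImplicit false

namespace Pool.Agent.H38.LR

open Finset MeasureTheory Filter Pool.Agent.Q120.MG Pool.Agent.Q120.GM Pool.Agent.Q120.CL
open scoped Topology

variable {Ω : Type*} [MeasurableSpace Ω] {μ : Measure Ω} [IsProbabilityMeasure μ] {A : Ω → Set ℕ} {z : ℕ → ℕ}

/-- The cost of a run. -/
noncomputable def cost (j k d : ℕ) : ℝ := k * Real.log j + ((k : ℝ) - 1) * d / (j * Real.log 2)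

theorem hl2 : 0 < Real.log 2 := Real.log_pos (by norm_num)

theorem log_ev {η : ℝ} (hη : 0 < η) : ∀ᶠ j : ℕ in atTop, Real.log j ≤ η * j := by
  have h1 := (isLittleO_log_rpow_atTop (show (0 : ℝ) < 1 by norm_num)).bound hη
  filter_upwards [tendsto_natCast_atTop_atTop.eventually h1, eventually_ge_atTop 1] with j h2 h3
  have hj1 : (1 : ℝ) ≤ j := by exact_mod_cast h3
  rwa [Real.norm_of_nonneg (Real.log_nonneg hj1), Real.rpow_one, Real.norm_of_nonneg (by linarith)] at h2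

/-- The largest probability in the block is at most a multiple of `log j / j`. -/
theorem beta_le (hz : ∀ᶠ j : ℕ in atTop, z j ≤ j) : ∃ D : ℝ, 0 < D ∧ ∀ᶠ j : ℕ in atTop,
    1 / (Vf (z j) * (j * Real.log 2)) ≤ D * Real.log j / j := by
  obtain ⟨D, hD, h⟩ := Vf_ge
  refine ⟨D / Real.log 2, div_pos hD hl2, ?_⟩
  filter_upwards [hz, h, eventually_ge_atTop 1] with j h1 h2 h3
  have hj : (0 : ℝ) < j := by exact_mod_cast h3
  have hV := Vf_pos (z j)
  have h4 := h2 (z j) h1
  have hl := hl2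
  have e1 : 1 / (Vf (z j) * (j * Real.log 2)) = 1 / Vf (z j) * (1 / (j * Real.log 2)) := by field_simp
  have e2 : D / Real.log 2 * Real.log j / j = D * Real.log j * (1 / (j * Real.log 2)) := by field_simp
  rw [e1, e2]
  exact mul_le_mul_of_nonneg_right h4 (by positivity)

theorem beta_small (hz : ∀ᶠ j : ℕ in atTop, z j ≤ j) {q : ℝ} (hq : 0 < q) : ∀ᶠ j : ℕ in atTop,
    1 / (Vf (z j) * (j * Real.log 2)) ≤ q := by
  obtain ⟨D, hD, h⟩ := beta_le hz
  filter_upwards [h, log_ev (show 0 < q / D by positivity), eventually_ge_atTop 1] with j h1 h2 h3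
  have hj : (0 : ℝ) < j := by exact_mod_cast h3
  refine h1.trans ?_
  rw [div_le_iff₀ hj]
  calc D * Real.log j ≤ D * (q / D * j) := mul_le_mul_of_nonneg_left h2 hD.le
    _ = q * j := by field_simp

theorem one_le_of {j : ℕ} (hj : 1 ≤ j) (h : 1 / (Vf (z j) * (j * Real.log 2)) ≤ 1) :
    1 ≤ Vf (z j) * (j * Real.log 2) := by
  have hj0 : (0 : ℝ) < j := by exact_mod_cast hj
  have hV := Vf_pos (z j)
  have hl := hl2
  rwa [div_le_one (by positivity)] at h

/-- Borel-Cantelli for the runs. -/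
theorem bc_occ (hA : IsModel μ (pr z) A) {I : ℕ → Finset (ℕ × ℕ)} {c : ℝ} (hc : 0 < c)
    (hI : ∀ᶠ j : ℕ in atTop, (I j).card ≤ j ^ 4)
    (h : ∀ᶠ j : ℕ in atTop, ∀ x ∈ I j, μ.real {ω | ¬ Occ (A ω) j x.1 x.2} ≤ Real.exp (-(c * j))) :
    ∀ᵐ ω ∂μ, ∀ᶠ j : ℕ in atTop, ∀ x ∈ I j, Occ (A ω) j x.1 x.2 := by
  obtain ⟨B, hB⟩ : ∃ B : ℕ → Set Ω, B = fun j => ⋃ x ∈ I j, {ω | ¬ Occ (A ω) j x.1 x.2} := ⟨_, rfl⟩
  have hpow : ∀ᶠ j : ℕ in atTop, (j : ℝ) ^ 4 ≤ Real.exp (c / 2 * j) := by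
    have h1 := (isLittleO_pow_exp_pos_mul_atTop 4 (show 0 < c / 2 by positivity)).bound one_pos
    filter_upwards [tendsto_natCast_atTop_atTop.eventually h1] with j h2
    rw [one_mul, Real.norm_of_nonneg (by positivity), Real.norm_of_nonneg (Real.exp_pos _).le] at h2
    exact h2
  have hb : ∀ᶠ j : ℕ in atTop, μ.real (B j) ≤ (Real.exp (-(c / 2))) ^ j := by
    filter_upwards [hI, h, hpow] with j h1 h2 h3
    rw [hB]
    refine (measureReal_biUnion_finset_le _ _).trans ((sum_le_sum h2).trans ?_)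
    rw [sum_const, nsmul_eq_mul]
    have h4 : ((I j).card : ℝ) ≤ (j : ℝ) ^ 4 := by exact_mod_cast h1
    calc ((I j).card : ℝ) * Real.exp (-(c * j)) ≤ Real.exp (c / 2 * j) * Real.exp (-(c * j)) :=
          mul_le_mul_of_nonneg_right (h4.trans h3) (Real.exp_pos _).le
      _ = (Real.exp (-(c / 2))) ^ j := by
          rw [← Real.exp_add, ← Real.exp_nat_mul]
          congr 1
          ring
  have hsm : Summable (fun j : ℕ => (Real.exp (-(c / 2))) ^ j) := by
    refine summable_geometric_of_lt_one (Real.exp_pos _).le ?_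
    rw [Real.exp_lt_one_iff]
    linarith
  filter_upwards [bc hsm hb] with ω hω
  filter_upwards [hω] with j hj x hx
  by_contra hcon
  apply hj
  rw [hB]
  exact Set.mem_biUnion hx hcon

theorem pow_inv_le {V j k : ℕ} {v : ℝ} (hv : 0 < v) (hvj : v ≤ j) : Real.exp (-(k * Real.log j)) ≤ (1 / v) ^ k := by
  have hj : (0 : ℝ) < j := lt_of_lt_of_le hv hvj
  have h1 : Real.exp (-(k * Real.log j)) = (1 / (j : ℝ)) ^ k := by
    rw [one_div, inv_pow, Real.exp_neg, ← Real.log_pow, Real.exp_log (by positivity)]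
  rw [h1]
  exact pow_le_pow_left₀ (by positivity) (one_div_le_one_div_of_le hv hvj) k

/-- **Every cheap run with a difference divisible by all the sieved primes occurs.** -/
theorem occurs (hA : IsModel μ (pr z) A) (hz : ∀ᶠ j : ℕ in atTop, z j ≤ j) {ε : ℝ} (hε : 0 < ε) (hε1 : ε < 1) :
    ∀ᵐ ω ∂μ, ∀ᶠ j : ℕ in atTop, ∀ k d : ℕ, 2 ≤ k → 1 ≤ d → PQ (z j) ∣ d →
      cost j k d ≤ (1 - ε) * (j * Real.log 2) → Occ (A ω) j k d := by
  classical
  have hl := hl2
  have hl1 : Real.log 2 < 0.7 := by linarith [Real.log_two_lt_d9]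
  obtain ⟨I, hI⟩ : ∃ I : ℕ → Finset (ℕ × ℕ), I = fun j => (Icc 1 j ×ˢ Icc 1 (j ^ 2)).filter (fun x =>
    2 ≤ x.1 ∧ PQ (z j) ∣ x.2 ∧ cost j x.1 x.2 ≤ (1 - ε) * (j * Real.log 2)) := ⟨_, rfl⟩
  have key : ∀ᶠ j : ℕ in atTop, ∀ k d : ℕ, 2 ≤ k → 1 ≤ d → cost j k d ≤ (1 - ε) * (j * Real.log 2) →
      k ≤ j ∧ (k - 1) * d ≤ j ^ 2 ∧ d ≤ j ^ 2 := by
    filter_upwards [(Real.tendsto_log_atTop.comp tendsto_natCast_atTop_atTop).eventually_ge_atTop 1,
      eventually_ge_atTop 1] with j h1 h2 k d hk hd hc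
    have hj : (1 : ℝ) ≤ j := by exact_mod_cast h2
    have h1' : 1 ≤ Real.log (j : ℝ) := h1
    have hk' : (2 : ℝ) ≤ k := by exact_mod_cast hk
    have hd' : (1 : ℝ) ≤ d := by exact_mod_cast hd
    unfold cost at hc
    have hpos : 0 ≤ ((k : ℝ) - 1) * d / (j * Real.log 2) := div_nonneg (mul_nonneg (by linarith) (by linarith)) (by positivity)
    have hpos2 : (k : ℝ) ≤ k * Real.log j := by nlinarith
    have hb : (1 - ε) * (j * Real.log 2) ≤ j * Real.log 2 := by
      have : 0 ≤ ε * (j * Real.log 2) := by positivity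
      linarith
    have hkj : (k : ℝ) ≤ j := by nlinarith
    have hkd : ((k : ℝ) - 1) * d ≤ (j : ℝ) ^ 2 := by
      have h3 : ((k : ℝ) - 1) * d / (j * Real.log 2) ≤ j * Real.log 2 := by linarith
      rw [div_le_iff₀ (by positivity)] at h3
      have h4 : j * Real.log 2 * (j * Real.log 2) = (Real.log 2) ^ 2 * (j : ℝ) ^ 2 := by ring
      have h5 : (Real.log 2) ^ 2 ≤ 1 := by nlinarith
      nlinarith [sq_nonneg (j : ℝ)]
    have hkd' : (k - 1) * d ≤ j ^ 2 := by
      have h3 : (((k - 1) * d : ℕ) : ℝ) ≤ ((j ^ 2 : ℕ) : ℝ) := by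
        rw [Nat.cast_mul, Nat.cast_sub (by omega)]
        push_cast
        exact hkd
      exact_mod_cast h3
    exact ⟨by exact_mod_cast hkj, hkd', le_trans (Nat.le_mul_of_pos_left _ (by omega)) hkd'⟩
  have hcard : ∀ᶠ j : ℕ in atTop, (I j).card ≤ j ^ 4 := by
    filter_upwards [eventually_ge_atTop 1] with j hj
    rw [hI]
    refine (card_filter_le _ _).trans ?_
    rw [card_product, Nat.card_Icc, Nat.card_Icc]
    have : (j + 1 - 1) * (j ^ 2 + 1 - 1) = j ^ 3 := by
      rw [Nat.add_sub_cancel, Nat.add_sub_cancel]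
      ring
    rw [this]
    exact Nat.pow_le_pow_right hj (by norm_num)
  have hbig : ∀ᶠ j : ℕ in atTop, ((3 : ℝ) + Real.exp (ε / 4 * Real.log 2 * j) * Real.exp ((1 - ε / 2) * (j * Real.log 2) + 1)) *
      (2 * (j : ℝ) ^ 4) ≤ 2 ^ j := by
    have h1 := (isLittleO_pow_exp_pos_mul_atTop 4 (show 0 < ε / 8 * Real.log 2 by positivity)).bound
      (show (0 : ℝ) < 1 / (8 * Real.exp 1) by positivity)
    filter_upwards [tendsto_natCast_atTop_atTop.eventually h1,
      tendsto_natCast_atTop_atTop.eventually_ge_atTop ((3 : ℝ) / (ε / 4 * Real.log 2)), eventually_ge_atTop 1] with j h2 h3 hj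
    have hj1 : (1 : ℝ) ≤ j := by exact_mod_cast hj
    rw [Real.norm_of_nonneg (by positivity), Real.norm_of_nonneg (Real.exp_pos _).le] at h2
    have e0 : (2 : ℝ) ^ j = Real.exp (j * Real.log 2) := by
      rw [mul_comm, Real.exp_mul, Real.exp_log (by norm_num), Real.rpow_natCast]
    have e1 : Real.exp (ε / 4 * Real.log 2 * j) * Real.exp ((1 - ε / 2) * (j * Real.log 2) + 1) =
        Real.exp 1 * Real.exp ((1 - ε / 4) * (j * Real.log 2)) := by
      rw [← Real.exp_add, ← Real.exp_add]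
      congr 1
      ring
    have e2 : (3 : ℝ) ≤ Real.exp ((1 - ε / 4) * (j * Real.log 2)) * Real.exp 1 := by
      rw [← Real.exp_add]
      rw [div_le_iff₀ (by positivity)] at h3
      have h4 : (3 : ℝ) ≤ (1 - ε / 4) * (j * Real.log 2) + 1 := by nlinarith
      linarith [Real.add_one_le_exp ((1 - ε / 4) * (j * Real.log 2) + 1)]
    have e3 : ((3 : ℝ) + Real.exp (ε / 4 * Real.log 2 * j) * Real.exp ((1 - ε / 2) * (j * Real.log 2) + 1)) *
        (2 * (j : ℝ) ^ 4) ≤ (2 * (Real.exp 1 * Real.exp ((1 - ε / 4) * (j * Real.log 2)))) * (2 * (j : ℝ) ^ 4) := by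
      rw [e1]
      refine mul_le_mul_of_nonneg_right ?_ (by positivity)
      linarith
    refine e3.trans ?_
    have e4 : (2 * (Real.exp 1 * Real.exp ((1 - ε / 4) * (j * Real.log 2)))) * (2 * (j : ℝ) ^ 4) =
        4 * Real.exp 1 * Real.exp ((1 - ε / 4) * (j * Real.log 2)) * (j : ℝ) ^ 4 := by ring
    rw [e4]
    have e5 : 4 * Real.exp 1 * Real.exp ((1 - ε / 4) * (j * Real.log 2)) * (j : ℝ) ^ 4 ≤
        4 * Real.exp 1 * Real.exp ((1 - ε / 4) * (j * Real.log 2)) * (1 / (8 * Real.exp 1) * Real.exp (ε / 8 * Real.log 2 * j)) :=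
      mul_le_mul_of_nonneg_left h2 (by positivity)
    refine e5.trans ?_
    have e6 : 4 * Real.exp 1 * Real.exp ((1 - ε / 4) * (j * Real.log 2)) * (1 / (8 * Real.exp 1) * Real.exp (ε / 8 * Real.log 2 * j)) =
        1 / 2 * (Real.exp ((1 - ε / 4) * (j * Real.log 2)) * Real.exp (ε / 8 * Real.log 2 * j)) := by
      field_simp
      norm_num
    rw [e6, ← Real.exp_add, e0]
    have e7 : Real.exp ((1 - ε / 4) * (j * Real.log 2) + ε / 8 * Real.log 2 * j) ≤ Real.exp (j * Real.log 2) := by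
      rw [Real.exp_le_exp]
      have : 0 ≤ ε * (j * Real.log 2) := by positivity
      nlinarith
    have e8 := Real.exp_pos (j * Real.log 2)
    linarith
  have hgrow : ∀ᶠ j : ℕ in atTop, (j : ℝ) ≤ Real.exp (ε / 4 * Real.log 2 * j) := by
    have h1 := (isLittleO_pow_exp_pos_mul_atTop 1 (show 0 < ε / 4 * Real.log 2 by positivity)).bound one_pos
    filter_upwards [tendsto_natCast_atTop_atTop.eventually h1] with j h2
    rw [one_mul, Real.norm_of_nonneg (by positivity), Real.norm_of_nonneg (Real.exp_pos _).le, pow_one] at h2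
    exact h2
  have hmain : ∀ᶠ j : ℕ in atTop, ∀ x ∈ I j, μ.real {ω | ¬ Occ (A ω) j x.1 x.2} ≤ Real.exp (-(1 * j)) := by
    filter_upwards [key, hbig, hgrow, beta_small hz (show 0 < ε / 4 by positivity), eventually_ge_atTop 4] with j h1 h2 h3 h4 hj x hx
    obtain ⟨k, d⟩ := x
    rw [hI] at hx
    simp only [mem_filter, mem_product, mem_Icc] at hx
    obtain ⟨⟨⟨hk1, hkj⟩, hd1, hdj⟩, hk2, hPQ, hcost⟩ := hx
    obtain ⟨_, g2, g3⟩ := h1 k d hk2 hd1 hcost
    simp only
    have hj0 : (0 : ℝ) < j := by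
      have : 0 < j := by omega
      exact_mod_cast this
    have hj4 : (4 : ℝ) ≤ j := by exact_mod_cast hj
    have hV := Vf_pos (z j)
    have hV1 := Vf_le_one (z j)
    obtain ⟨β, hβ⟩ : ∃ β, β = 1 / (Vf (z j) * (j * Real.log 2)) := ⟨_, rfl⟩
    have hβ0 : 0 < β := by rw [hβ]; positivity
    obtain ⟨M, hM⟩ : ∃ M : ℕ, M = 2 ^ j / DD (z j) ((k - 1) * d) - 2 := ⟨_, rfl⟩
    have hkr : ((k : ℝ) - 1) * d = (((k - 1) * d : ℕ) : ℝ) := by
      rw [Nat.cast_mul, Nat.cast_sub (by omega)]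
      simp
    have hprob := not_occ_le hA (j := j) (k := k) (d := d) (a := 1 % PQ (z j)) (q := ε / 4)
      (p := Real.exp (-((1 - ε / 2) * (j * Real.log 2) + 1))) (by omega) (one_le_of (by omega) (h4.trans (by linarith))) h4
      (by linarith) hd1 (fun i _ => by
        intro p hp hpz hdvd
        have h5 : p ∣ PQ (z j) := Finset.dvd_prod_of_mem (fun p => p) (by rw [mem_filter, mem_range]; exact ⟨hpz, hp⟩)
        have h6 : p ∣ i * d := (h5.trans hPQ).mul_left _
        have h7 : p ∣ 1 % PQ (z j) % PQ (z j) := (Nat.dvd_add_left h6).1 hdvd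
        rw [Nat.mod_mod] at h7
        rcases Nat.lt_or_ge 1 (PQ (z j)) with h8 | h8
        · rw [Nat.mod_eq_of_lt h8] at h7
          exact hp.one_lt.ne' (Nat.dvd_one.1 h7)
        · have h9 : PQ (z j) = 1 := le_antisymm h8 (PQ_pos _)
          rw [h9] at h5
          exact hp.one_lt.ne' (Nat.dvd_one.1 h5)) (fun n hn => by
        have h5 := (W_period (z := z j) (n := n) (k := k) hPQ).2
        rw [← hβ]
        have h6 : Real.exp (-(k * Real.log j)) ≤ (1 / (Vf (z j) * (((j : ℝ) + 1) * Real.log 2))) ^ k := by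
          refine pow_inv_le (V := 0) (by positivity) ?_
          have : ((j : ℝ) + 1) * Real.log 2 ≤ j := by nlinarith
          calc Vf (z j) * (((j : ℝ) + 1) * Real.log 2) ≤ 1 * (((j : ℝ) + 1) * Real.log 2) :=
                mul_le_mul_of_nonneg_right hV1 (by positivity)
            _ ≤ j := by rw [one_mul]; exact this
        have h7 : (Wf (z j) (n - 1) ((k - 1) * d + 1) : ℝ) * β ≤ ((k : ℝ) - 1) * d / (j * Real.log 2) + β := by
          have h8 : (Wf (z j) (n - 1) ((k - 1) * d + 1) : ℝ) * β ≤ (Vf (z j) * (((k - 1) * d : ℕ) : ℝ) + 1) * β :=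
            mul_le_mul_of_nonneg_right h5 hβ0.le
          refine h8.trans (le_of_eq ?_)
          rw [hkr, hβ]
          field_simp
        have h8 : Real.exp (-((1 - ε / 2) * (j * Real.log 2) + 1)) ≤ Real.exp (-(k * Real.log j)) *
            Real.exp (-((1 + 2 * (ε / 4)) * ((Wf (z j) (n - 1) ((k - 1) * d + 1) : ℝ) * β))) := by
          rw [← Real.exp_add, Real.exp_le_exp]
          unfold cost at hcost
          have hlogj : 0 ≤ Real.log (j : ℝ) := Real.log_nonneg (by linarith)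
          obtain ⟨c1, hc1⟩ : ∃ c1, c1 = ((k : ℝ) - 1) * d / (j * Real.log 2) := ⟨_, rfl⟩
          rw [← hc1] at hcost h7
          have h9 : (1 + 2 * (ε / 4)) * ((Wf (z j) (n - 1) ((k - 1) * d + 1) : ℝ) * β) ≤ (1 + 2 * (ε / 4)) * (c1 + β) :=
            mul_le_mul_of_nonneg_left h7 (by linarith)
          have h10 : 0 ≤ (k : ℝ) * Real.log j := by positivity
          have h11 : (1 + ε / 2) * (k * Real.log j + c1) ≤ (1 + ε / 2) * ((1 - ε) * (j * Real.log 2)) :=
            mul_le_mul_of_nonneg_left hcost (by linarith)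
          have h12 : (1 + ε / 2) * ((1 - ε) * (j * Real.log 2)) ≤ (1 - ε / 2) * (j * Real.log 2) := by
            have : 0 ≤ ε ^ 2 * (j * Real.log 2) := by positivity
            nlinarith
          have h13 : (1 + 2 * (ε / 4)) * β ≤ 1 := by
            rw [← hβ] at h4
            nlinarith
          nlinarith
        exact h8.trans (mul_le_mul_of_nonneg_right h6 (Real.exp_pos _).le))
    refine hprob.trans ?_
    rw [Real.exp_le_exp, neg_le_neg_iff, one_mul, ← hM]
    have hDD : (DD (z j) ((k - 1) * d) : ℝ) ≤ 2 * (j : ℝ) ^ 4 := by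
      have h5 : PQ (z j) ≤ j ^ 2 := (Nat.le_of_dvd hd1 hPQ).trans hdj
      have h6 : DD (z j) ((k - 1) * d) ≤ j ^ 2 * (j ^ 2 + 1) := by
        unfold DD
        exact Nat.mul_le_mul h5 (by omega)
      have h7 : j ^ 2 * (j ^ 2 + 1) ≤ 2 * j ^ 4 := by
        have : 1 ≤ j ^ 2 := Nat.one_le_pow _ _ (by omega)
        nlinarith
      exact_mod_cast h6.trans h7
    have hDD0 : (0 : ℝ) < DD (z j) ((k - 1) * d) := by exact_mod_cast DD_pos _ _
    have hMM : Real.exp (ε / 4 * Real.log 2 * j) * Real.exp ((1 - ε / 2) * (j * Real.log 2) + 1) ≤ M := by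
      have h5 : (2 : ℝ) ^ j / DD (z j) ((k - 1) * d) < (2 ^ j / DD (z j) ((k - 1) * d) : ℕ) + 1 := by
        rw [div_lt_iff₀ hDD0]
        have h6 := Nat.lt_mul_div_succ (2 ^ j) (DD_pos (z j) ((k - 1) * d))
        have h7 : ((2 ^ j : ℕ) : ℝ) < ((DD (z j) ((k - 1) * d) * (2 ^ j / DD (z j) ((k - 1) * d) + 1) : ℕ) : ℝ) := by
          exact_mod_cast h6
        push_cast at h7 ⊢
        linarith
      have h6 : (3 : ℝ) + Real.exp (ε / 4 * Real.log 2 * j) * Real.exp ((1 - ε / 2) * (j * Real.log 2) + 1) ≤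
          (2 : ℝ) ^ j / DD (z j) ((k - 1) * d) := by
        rw [le_div_iff₀ hDD0]
        refine le_trans (mul_le_mul_of_nonneg_left hDD (by positivity)) h2
      have h7 : ((2 ^ j / DD (z j) ((k - 1) * d) : ℕ) : ℝ) ≤ M + 2 := by
        have : 2 ^ j / DD (z j) ((k - 1) * d) ≤ M + 2 := by omega
        exact_mod_cast this
      linarith
    have h5 : Real.exp (ε / 4 * Real.log 2 * j) ≤ M * Real.exp (-((1 - ε / 2) * (j * Real.log 2) + 1)) := by
      have h6 := mul_le_mul_of_nonneg_right hMM (Real.exp_pos (-((1 - ε / 2) * (j * Real.log 2) + 1))).le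
      have h7 : Real.exp (ε / 4 * Real.log 2 * j) * Real.exp ((1 - ε / 2) * (j * Real.log 2) + 1) *
          Real.exp (-((1 - ε / 2) * (j * Real.log 2) + 1)) = Real.exp (ε / 4 * Real.log 2 * j) := by
        rw [mul_assoc, ← Real.exp_add, add_neg_cancel, Real.exp_zero, mul_one]
      linarith
    exact h3.trans h5
  filter_upwards [bc_occ hA one_pos hcard hmain] with ω hω
  filter_upwards [hω, key] with j h1 h2 k d hk hd hPQ hc
  obtain ⟨g1, g2, g3⟩ := h2 k d hk hd hc
  refine h1 (k, d) ?_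
  rw [hI]
  simp only [mem_filter, mem_product, mem_Icc]
  exact ⟨⟨⟨by omega, g1⟩, hd, g3⟩, hk, hPQ, hc⟩

end Pool.Agent.H38.LR
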