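import Pool.Agent.H38.LR.C

/-!
# Runs in the sieved models: all short runs
-/

set_option autoImplicit false

namespace Pool.Agent.H38.LR

open Finset MeasureTheory Filter Pool.Agent.Q120.MG Pool.Agent.Q120.GM Pool.Agent.Q120.CL
open scoped Topology

theorem res_eq {p r x : ℕ} (hr : r < p) (h : p ∣ r + x) : r = (p - x % p) % p := by
  have hp : 0 < p := by omega
  have h1 : (r + x) % p = 0 := Nat.mod_eq_zero_of_dvd h
  rw [Nat.add_mod, Nat.mod_eq_of_lt hr] at h1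
  obtain ⟨y, hy⟩ : ∃ y, y = x % p := ⟨_, rfl⟩
  have hyp : y < p := by rw [hy]; exact Nat.mod_lt _ hp
  rw [← hy] at h1 ⊢
  rcases Nat.eq_zero_or_pos y with h0 | h0
  · rw [h0] at h1 ⊢
    rw [add_zero, Nat.mod_eq_of_lt hr] at h1
    rw [Nat.sub_zero, Nat.mod_self]
    exact h1
  · rw [Nat.mod_eq_of_lt (show p - y < p by omega)]
    have h2 : p ∣ r + y := Nat.dvd_of_mod_eq_zero h1
    obtain ⟨c, hc⟩ := h2
    have h3 : c < 2 := by
      by_contra hcon
      have : p * 2 ≤ p * c := Nat.mul_le_mul_left _ (by omega)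
      omega
    have h4 : c ≠ 0 := by
      rintro rfl
      omega
    have h5 : c = 1 := by omega
    rw [h5] at hc
    omega

theorem crt {z k d : ℕ} (h : ∀ p : ℕ, p.Prime → p ≤ k → p < z → p ∣ d) : ∃ a : ℕ, ∀ i < k, Rough z (a % PQ z + i * d) := by
  classical
  have h1 : ∀ p : ℕ, p.Prime → p < z → ∃ r, ∀ i < k, ¬ p ∣ r + i * d := by
    intro p hp hpz
    by_cases hpd : p ∣ d
    · refine ⟨1, fun i _ h2 => ?_⟩
      have h3 : p ∣ 1 := (Nat.dvd_add_left (hpd.mul_left i)).1 h2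
      exact hp.one_lt.ne' (Nat.dvd_one.1 h3)
    · have hkp : k < p := by
        by_contra hcon
        exact hpd (h p hp (by omega) hpz)
      have h2 : ((range k).image (fun i => (p - (i * d) % p) % p)).card < (range p).card := by
        refine lt_of_le_of_lt card_image_le ?_
        rw [card_range, card_range]
        exact hkp
      obtain ⟨r, hr1, hr2⟩ := exists_mem_notMem_of_card_lt_card h2
      refine ⟨r, fun i hi h3 => hr2 ?_⟩
      rw [mem_image]
      exact ⟨i, mem_range.2 hi, (res_eq (mem_range.1 hr1) h3).symm⟩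
  choose! r hr using h1
  obtain ⟨a, ha⟩ := Nat.chineseRemainderOfFinset r (fun p => p) ((range z).filter Nat.Prime) (fun p hp => (mem_filter.1 hp).2.ne_zero)
    (fun p hp q hq hpq => (Nat.coprime_primes (mem_filter.1 (mem_coe.1 hp)).2 (mem_filter.1 (mem_coe.1 hq)).2).2 hpq)
  refine ⟨a, fun i hi p hp hpz hdvd => ?_⟩
  have hpm : p ∈ (range z).filter Nat.Prime := by rw [mem_filter, mem_range]; exact ⟨hpz, hp⟩
  have h2 := ha p hpm
  have h3 : p ∣ PQ z := Finset.dvd_prod_of_mem (fun p => p) hpm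
  have h4 : a % PQ z ≡ a [MOD p] := (Nat.mod_modEq a (PQ z)).of_dvd h3
  have h5 : a % PQ z + i * d ≡ r p + i * d [MOD p] := (h4.trans h2).add_right _
  exact hr p hp hpz i hi ((h5.dvd_iff dvd_rfl).1 hdvd)

variable {Ω : Type*} [MeasurableSpace Ω] {μ : Measure Ω} [IsProbabilityMeasure μ] {A : Ω → Set ℕ} {z : ℕ → ℕ}

/-- **Every possible run well inside the critical region occurs**, at all levels `z j ≤ j / 8`. -/
theorem occurs' (hA : IsModel μ (pr z) A) (hz : ∀ᶠ j : ℕ in atTop, 8 * z j ≤ j) {ε : ℝ} (hε : 0 < ε) (hε1 : ε < 1) :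
    ∀ᵐ ω ∂μ, ∀ᶠ j : ℕ in atTop, ∀ k d : ℕ, 2 ≤ k → 1 ≤ d → (∀ p : ℕ, p.Prime → p ≤ k → p < z j → p ∣ d) →
      (k : ℝ) ≤ (j : ℝ) ^ (1 - ε) → ((k : ℝ) - 1) * d ≤ (j : ℝ) ^ (2 - ε) → Occ (A ω) j k d := by
  classical
  have hl := hl2
  have hl1 : Real.log 2 < 0.7 := by linarith [Real.log_two_lt_d9]
  have hl5 : 0.5 < Real.log 2 := by linarith [Real.log_two_gt_d9]
  have hz1 : ∀ᶠ j : ℕ in atTop, z j ≤ j := by
    filter_upwards [hz] with j hj
    omega
  obtain ⟨I, hI⟩ : ∃ I : ℕ → Finset (ℕ × ℕ), I = fun j => (Icc 1 j ×ˢ Icc 1 (j ^ 2)).filter (fun x =>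
    2 ≤ x.1 ∧ (∀ p : ℕ, p.Prime → p ≤ x.1 → p < z j → p ∣ x.2) ∧ (x.1 : ℝ) ≤ (j : ℝ) ^ (1 - ε) ∧
      ((x.1 : ℝ) - 1) * x.2 ≤ (j : ℝ) ^ (2 - ε)) := ⟨_, rfl⟩
  have key : ∀ᶠ j : ℕ in atTop, ∀ k d : ℕ, 2 ≤ k → 1 ≤ d → (k : ℝ) ≤ (j : ℝ) ^ (1 - ε) →
      ((k : ℝ) - 1) * d ≤ (j : ℝ) ^ (2 - ε) → k ≤ j ∧ (k - 1) * d ≤ j ^ 2 ∧ d ≤ j ^ 2 := by
    filter_upwards [eventually_ge_atTop 1] with j h2 k d hk hd hc1 hc2
    have hj : (1 : ℝ) ≤ j := by exact_mod_cast h2
    have e1 : (j : ℝ) ^ (1 - ε) ≤ j := by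
      calc (j : ℝ) ^ (1 - ε) ≤ (j : ℝ) ^ (1 : ℝ) := Real.rpow_le_rpow_of_exponent_le hj (by linarith)
        _ = j := Real.rpow_one _
    have e2 : (j : ℝ) ^ (2 - ε) ≤ (j : ℝ) ^ 2 := by
      calc (j : ℝ) ^ (2 - ε) ≤ (j : ℝ) ^ ((2 : ℕ) : ℝ) := Real.rpow_le_rpow_of_exponent_le hj (by push_cast; linarith)
        _ = (j : ℝ) ^ 2 := Real.rpow_natCast _ _
    have e3 : (((k - 1) * d : ℕ) : ℝ) ≤ ((j ^ 2 : ℕ) : ℝ) := by
      rw [Nat.cast_mul, Nat.cast_sub (by omega)]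
      push_cast
      linarith
    have e4 : (k - 1) * d ≤ j ^ 2 := by exact_mod_cast e3
    exact ⟨by exact_mod_cast hc1.trans e1, e4, le_trans (Nat.le_mul_of_pos_left _ (by omega)) e4⟩
  have hcard : ∀ᶠ j : ℕ in atTop, (I j).card ≤ j ^ 4 := by
    filter_upwards [eventually_ge_atTop 1] with j hj
    rw [hI]
    refine (card_filter_le _ _).trans ?_
    rw [card_product, Nat.card_Icc, Nat.card_Icc]
    have : (j + 1 - 1) * (j ^ 2 + 1 - 1) = j ^ 3 := by
      rw [Nat.add_sub_cancel, Nat.add_sub_cancel]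
      ring
    rw [this]
    exact Nat.pow_le_pow_right hj (by norm_num)
  obtain ⟨D, hD, hβD⟩ := beta_le hz1
  -- the exponent is small
  have hexp : ∀ᶠ j : ℕ in atTop, (j : ℝ) ^ (1 - ε) * Real.log j + 2 * ((j : ℝ) ^ (2 - ε) + 1) * (D * Real.log j / j) ≤ 1 / 16 * j := by
    have h1 := (isLittleO_log_rpow_atTop (show (0 : ℝ) < ε by positivity)).bound (show (0 : ℝ) < 1 / (16 * (1 + 4 * D)) by positivity)
    filter_upwards [tendsto_natCast_atTop_atTop.eventually h1, eventually_ge_atTop 1] with j h2 h3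
    have hj1 : (1 : ℝ) ≤ j := by exact_mod_cast h3
    have hj0 : (0 : ℝ) < j := by linarith
    have hlog := Real.log_nonneg hj1
    rw [Real.norm_of_nonneg hlog, Real.norm_of_nonneg (by positivity)] at h2
    have e1 : (j : ℝ) ^ (2 - ε) = (j : ℝ) ^ (1 - ε) * j := by
      rw [← Real.rpow_add_one hj0.ne']
      congr 1
      ring
    have e2 : 1 ≤ (j : ℝ) ^ (2 - ε) := Real.one_le_rpow hj1 (by linarith)
    have e3 : 2 * ((j : ℝ) ^ (2 - ε) + 1) * (D * Real.log j / j) ≤ 4 * D * ((j : ℝ) ^ (1 - ε) * Real.log j) := by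
      have e4 : 2 * ((j : ℝ) ^ (2 - ε) + 1) * (D * Real.log j / j) ≤ 4 * (j : ℝ) ^ (2 - ε) * (D * Real.log j / j) :=
        mul_le_mul_of_nonneg_right (by linarith) (by positivity)
      refine e4.trans (le_of_eq ?_)
      rw [e1]
      field_simp
    have e5 : (j : ℝ) ^ (1 - ε) * (j : ℝ) ^ ε = j := by
      rw [← Real.rpow_add hj0]
      simp
    have e6 : (1 + 4 * D) * ((j : ℝ) ^ (1 - ε) * Real.log j) ≤ (1 + 4 * D) * ((j : ℝ) ^ (1 - ε) * (1 / (16 * (1 + 4 * D)) * (j : ℝ) ^ ε)) :=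
      mul_le_mul_of_nonneg_left (mul_le_mul_of_nonneg_left h2 (by positivity)) (by positivity)
    have e7 : (1 + 4 * D) * ((j : ℝ) ^ (1 - ε) * (1 / (16 * (1 + 4 * D)) * (j : ℝ) ^ ε)) = 1 / 16 * ((j : ℝ) ^ (1 - ε) * (j : ℝ) ^ ε) := by
      field_simp
    rw [e7, e5] at e6
    nlinarith
  have hbig : ∀ᶠ j : ℕ in atTop, ((3 : ℝ) + j * Real.exp (1 / 16 * j)) * (2 * (j : ℝ) ^ 2) ≤ Real.exp (1 / 4 * j) := by
    have h1 := (isLittleO_pow_exp_pos_mul_atTop 3 (show (0 : ℝ) < 1 / 16 by norm_num)).bound (show (0 : ℝ) < 1 / 8 by norm_num)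
    filter_upwards [tendsto_natCast_atTop_atTop.eventually h1, eventually_ge_atTop 3] with j h2 h3
    rw [Real.norm_of_nonneg (by positivity), Real.norm_of_nonneg (Real.exp_pos _).le] at h2
    have hj3 : (3 : ℝ) ≤ j := by exact_mod_cast h3
    have e1 : 1 ≤ Real.exp (1 / 16 * (j : ℝ)) := Real.one_le_exp (by positivity)
    have e2 : ((3 : ℝ) + j * Real.exp (1 / 16 * j)) ≤ 2 * (j * Real.exp (1 / 16 * j)) := by nlinarith
    calc ((3 : ℝ) + j * Real.exp (1 / 16 * j)) * (2 * (j : ℝ) ^ 2) ≤ 2 * (j * Real.exp (1 / 16 * j)) * (2 * (j : ℝ) ^ 2) :=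
          mul_le_mul_of_nonneg_right e2 (by positivity)
      _ = 4 * Real.exp (1 / 16 * j) * (j : ℝ) ^ 3 := by ring
      _ ≤ 4 * Real.exp (1 / 16 * j) * (1 / 8 * Real.exp (1 / 16 * j)) := mul_le_mul_of_nonneg_left h2 (by positivity)
      _ = 1 / 2 * (Real.exp (1 / 16 * j) * Real.exp (1 / 16 * j)) := by ring
      _ ≤ Real.exp (1 / 4 * j) := by
          rw [← Real.exp_add]
          have e3 : Real.exp (1 / 16 * (j : ℝ) + 1 / 16 * j) ≤ Real.exp (1 / 4 * j) := by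
            rw [Real.exp_le_exp]
            linarith
          have e4 := Real.exp_pos (1 / 4 * (j : ℝ))
          linarith
  have hmain : ∀ᶠ j : ℕ in atTop, ∀ x ∈ I j, μ.real {ω | ¬ Occ (A ω) j x.1 x.2} ≤ Real.exp (-(1 * j)) := by
    filter_upwards [key, hexp, hbig, hz, hβD, beta_small hz1 (show (0 : ℝ) < 1 / 2 by norm_num), eventually_ge_atTop 4] with
      j h1 h2 h3 h4 h5 h6 hj x hx
    obtain ⟨k, d⟩ := x
    rw [hI] at hx
    simp only [mem_filter, mem_product, mem_Icc] at hx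
    obtain ⟨⟨⟨hk1, hkj⟩, hd1, hdj⟩, hk2, hP, hc1, hc2⟩ := hx
    obtain ⟨_, g2, g3⟩ := h1 k d hk2 hd1 hc1 hc2
    simp only
    have hj0 : (0 : ℝ) < j := by
      have : 0 < j := by omega
      exact_mod_cast this
    have hj4 : (4 : ℝ) ≤ j := by exact_mod_cast hj
    have hV := Vf_pos (z j)
    have hV1 := Vf_le_one (z j)
    obtain ⟨β, hβ⟩ : ∃ β, β = 1 / (Vf (z j) * (j * Real.log 2)) := ⟨_, rfl⟩
    have hβ0 : 0 < β := by rw [hβ]; positivity
    rw [← hβ] at h5 h6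
    obtain ⟨M, hM⟩ : ∃ M : ℕ, M = 2 ^ j / DD (z j) ((k - 1) * d) - 2 := ⟨_, rfl⟩
    obtain ⟨a, ha⟩ := crt (z := z j) (k := k) (d := d) hP
    have hlogj : 0 ≤ Real.log (j : ℝ) := Real.log_nonneg (by linarith)
    have hkr : ((k : ℝ) - 1) * d = (((k - 1) * d : ℕ) : ℝ) := by
      rw [Nat.cast_mul, Nat.cast_sub (by omega)]
      simp
    have hprob := not_occ_le hA (j := j) (k := k) (d := d) (a := a) (q := 1 / 2)
      (p := Real.exp (-(1 / 16 * (j : ℝ)))) (by omega) (one_le_of (by omega) (by rw [← hβ]; linarith)) (by rw [← hβ]; exact h6)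
      (by norm_num) hd1 ha (fun n hn => by
        rw [← hβ]
        have e6 : Real.exp (-(k * Real.log j)) ≤ (1 / (Vf (z j) * (((j : ℝ) + 1) * Real.log 2))) ^ k := by
          refine pow_inv_le (V := 0) (by positivity) ?_
          have : ((j : ℝ) + 1) * Real.log 2 ≤ j := by nlinarith
          calc Vf (z j) * (((j : ℝ) + 1) * Real.log 2) ≤ 1 * (((j : ℝ) + 1) * Real.log 2) :=
                mul_le_mul_of_nonneg_right hV1 (by positivity)
            _ ≤ j := by rw [one_mul]; exact this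
        have e7 : (Wf (z j) (n - 1) ((k - 1) * d + 1) : ℝ) ≤ (j : ℝ) ^ (2 - ε) + 1 := by
          have e8 : Wf (z j) (n - 1) ((k - 1) * d + 1) ≤ (k - 1) * d + 1 := by
            unfold Wf
            refine (card_filter_le _ _).trans ?_
            rw [Nat.card_Ioc]
            omega
          have e9 : (Wf (z j) (n - 1) ((k - 1) * d + 1) : ℝ) ≤ (((k - 1) * d + 1 : ℕ) : ℝ) := by exact_mod_cast e8
          push_cast at e9
          have e10 := hc2
          rw [hkr] at e10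
          push_cast at e10
          linarith
        refine le_trans ?_ (mul_le_mul_of_nonneg_right e6 (Real.exp_pos _).le)
        rw [← Real.exp_add, Real.exp_le_exp]
        have e8 : (Wf (z j) (n - 1) ((k - 1) * d + 1) : ℝ) * β ≤ ((j : ℝ) ^ (2 - ε) + 1) * (D * Real.log j / j) :=
          mul_le_mul e7 h5 hβ0.le (by positivity)
        have e9 : (k : ℝ) * Real.log j ≤ (j : ℝ) ^ (1 - ε) * Real.log j := mul_le_mul_of_nonneg_right hc1 hlogj
        linarith)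
    refine hprob.trans ?_
    rw [Real.exp_le_exp, neg_le_neg_iff, one_mul, ← hM]
    have hDD : (DD (z j) ((k - 1) * d) : ℝ) ≤ Real.exp (1 / 4 * j) * (2 * (j : ℝ) ^ 2) := by
      have e5 : (PQ (z j) : ℝ) ≤ Real.exp (1 / 4 * j) := by
        have e6 : (PQ (z j) : ℝ) ≤ 4 ^ (z j) := by exact_mod_cast PQ_le (z j)
        refine e6.trans ?_
        have e7 : (4 : ℝ) ^ (z j) = Real.exp ((z j : ℝ) * (2 * Real.log 2)) := by
          rw [Real.exp_nat_mul]
          congr 1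
          rw [mul_comm, Real.exp_mul, Real.exp_log (by norm_num)]
          norm_num
        rw [e7, Real.exp_le_exp]
        have e8 : 8 * (z j : ℝ) ≤ j := by exact_mod_cast h4
        have e9 : 0 ≤ (z j : ℝ) := Nat.cast_nonneg _
        nlinarith
      have e6 : (DD (z j) ((k - 1) * d) : ℝ) ≤ Real.exp (1 / 4 * j) * (((k - 1) * d + 1 : ℕ) : ℝ) := by
        unfold DD
        rw [Nat.cast_mul]
        exact mul_le_mul_of_nonneg_right e5 (Nat.cast_nonneg _)
      refine e6.trans (mul_le_mul_of_nonneg_left ?_ (Real.exp_pos _).le)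
      have e7 : (k - 1) * d + 1 ≤ 2 * j ^ 2 := by
        have : 1 ≤ j ^ 2 := Nat.one_le_pow _ _ (by omega)
        omega
      exact_mod_cast e7
    have hDD0 : (0 : ℝ) < DD (z j) ((k - 1) * d) := by exact_mod_cast DD_pos _ _
    have hMM : j * Real.exp (1 / 16 * j) ≤ M := by
      have e5 : (2 : ℝ) ^ j / DD (z j) ((k - 1) * d) < (2 ^ j / DD (z j) ((k - 1) * d) : ℕ) + 1 := by
        rw [div_lt_iff₀ hDD0]
        have e6 := Nat.lt_mul_div_succ (2 ^ j) (DD_pos (z j) ((k - 1) * d))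
        have e7 : ((2 ^ j : ℕ) : ℝ) < ((DD (z j) ((k - 1) * d) * (2 ^ j / DD (z j) ((k - 1) * d) + 1) : ℕ) : ℝ) := by
          exact_mod_cast e6
        push_cast at e7 ⊢
        linarith
      have e6 : (3 : ℝ) + j * Real.exp (1 / 16 * j) ≤ (2 : ℝ) ^ j / DD (z j) ((k - 1) * d) := by
        rw [le_div_iff₀ hDD0]
        have e7 : (2 : ℝ) ^ j = Real.exp (j * Real.log 2) := by
          rw [mul_comm, Real.exp_mul, Real.exp_log (by norm_num), Real.rpow_natCast]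
        calc ((3 : ℝ) + j * Real.exp (1 / 16 * j)) * DD (z j) ((k - 1) * d) ≤
              ((3 : ℝ) + j * Real.exp (1 / 16 * j)) * (Real.exp (1 / 4 * j) * (2 * (j : ℝ) ^ 2)) :=
              mul_le_mul_of_nonneg_left hDD (by positivity)
          _ = (((3 : ℝ) + j * Real.exp (1 / 16 * j)) * (2 * (j : ℝ) ^ 2)) * Real.exp (1 / 4 * j) := by ring
          _ ≤ Real.exp (1 / 4 * j) * Real.exp (1 / 4 * j) := mul_le_mul_of_nonneg_right h3 (Real.exp_pos _).le
          _ ≤ (2 : ℝ) ^ j := by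
              rw [e7, ← Real.exp_add, Real.exp_le_exp]
              nlinarith
      have e7 : ((2 ^ j / DD (z j) ((k - 1) * d) : ℕ) : ℝ) ≤ M + 2 := by
        have : 2 ^ j / DD (z j) ((k - 1) * d) ≤ M + 2 := by omega
        exact_mod_cast this
      linarith
    have e5 : (j : ℝ) ≤ M * Real.exp (-(1 / 16 * (j : ℝ))) := by
      have e6 := mul_le_mul_of_nonneg_right hMM (Real.exp_pos (-(1 / 16 * (j : ℝ)))).le
      have e7 : j * Real.exp (1 / 16 * j) * Real.exp (-(1 / 16 * (j : ℝ))) = j := by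
        rw [mul_assoc, ← Real.exp_add, add_neg_cancel, Real.exp_zero, mul_one]
      linarith
    exact e5
  filter_upwards [bc_occ hA one_pos hcard hmain] with ω hω
  filter_upwards [hω, key] with j h1 h2 k d hk hd hP hc1 hc2
  obtain ⟨g1, g2, g3⟩ := h2 k d hk hd hc1 hc2
  refine h1 (k, d) ?_
  rw [hI]
  simp only [mem_filter, mem_product, mem_Icc]
  exact ⟨⟨⟨by omega, g1⟩, hd, g3⟩, hk, hP, hc1, hc2⟩

end Pool.Agent.H38.LR
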