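import Pool.Agent.H38.LR.D

/-!
# Runs in the sieved models: expensive runs do not occur
-/

set_option autoImplicit false

namespace Pool.Agent.H38.LR

open Finset MeasureTheory Filter Pool.Agent.Q120.MG Pool.Agent.Q120.GM Pool.Agent.Q120.CL
open scoped Topology

variable {Ω : Type*} [MeasurableSpace Ω] {μ : Measure Ω} [IsProbabilityMeasure μ] {A : Ω → Set ℕ} {z : ℕ → ℕ}

/-- All elements are rough, almost surely. -/
theorem all_rough (hA : IsModel μ (pr z) A) : ∀ᵐ ω ∂μ, ∀ n ∈ A ω, Rough (z (Nat.log 2 n)) n := by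
  have h1 : ∀ n : ℕ, ∀ᵐ ω ∂μ, n ∈ A ω → Rough (z (Nat.log 2 n)) n := by
    intro n
    by_cases h : Rough (z (Nat.log 2 n)) n
    · exact Eventually.of_forall fun _ _ => h
    · have h2 : μ.real {ω | n ∈ A ω} = 0 := by
        rw [hA.prob]
        unfold pr
        rw [if_neg h]
      rw [measureReal_eq_zero_iff] at h2
      have h3 : ∀ᵐ ω ∂μ, n ∉ A ω := by
        rw [ae_iff]
        simpa using h2
      filter_upwards [h3] with ω hω hn
      exact absurd hn hω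
  filter_upwards [ae_all_iff.2 h1] with ω hω n hn
  exact hω n hn

theorem dvd_of_run {S : Set ℕ} {z n k d : ℕ} (hS : ∀ i < k, n + i * d ∈ S) (hr : ∀ i < k, Rough z (n + i * d)) {p : ℕ}
    (hp : p.Prime) (hpk : p ≤ k) (hpz : p < z) : p ∣ d := by
  by_contra hpd
  haveI : Fact p.Prime := ⟨hp⟩
  have hd : (d : ZMod p) ≠ 0 := by
    intro h
    exact hpd ((ZMod.natCast_eq_zero_iff _ _).1 h)
  obtain ⟨i, hi⟩ : ∃ i : ZMod p, i = -(n : ZMod p) * (d : ZMod p)⁻¹ := ⟨_, rfl⟩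
  have h1 : ((n + i.val * d : ℕ) : ZMod p) = 0 := by
    push_cast
    rw [ZMod.natCast_zmod_val, hi]
    field_simp
    ring
  have h2 : p ∣ n + i.val * d := (ZMod.natCast_eq_zero_iff _ _).1 h1
  exact hr i.val (lt_of_lt_of_le (ZMod.val_lt i) hpk) p hp hpz h2

theorem mem_of_run {S : Set ℕ} {n k d i : ℕ} (h : Run S n k d) (hi : i < k) : n + i * d ∈ S := by
  have h1 : i * d ≤ (k - 1) * d := Nat.mul_le_mul_right _ (by omega)
  exact (h (n + i * d) (by omega) (by omega)).2 ⟨i, hi, rfl⟩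

theorem run_mono {S : Set ℕ} {n k k' d : ℕ} (hk : k' ≤ k) (hk1 : 1 ≤ k') (hd : 1 ≤ d) (h : Run S n k d) :
    Run S n k' d := by
  intro m h1 h2
  have h3 : (k' - 1) * d ≤ (k - 1) * d := Nat.mul_le_mul_right _ (by omega)
  rw [h m h1 (by omega)]
  constructor
  · rintro ⟨i, hi, rfl⟩
    refine ⟨i, ?_, rfl⟩
    by_contra hcon
    have h4 : k' * d ≤ i * d := Nat.mul_le_mul_right _ (by omega)
    have h5 : (k' - 1) * d + d = k' * d := by
      obtain ⟨j, rfl⟩ : ∃ j, k' = j + 1 := ⟨k' - 1, by omega⟩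
      simp
      ring
    omega
  · rintro ⟨i, hi, rfl⟩
    exact ⟨i, by omega, rfl⟩

/-- The gaps in the blocks. -/
theorem gaps0 (low : LOW) (hA : IsModel μ (pr z) A) (hz : ∀ᶠ j : ℕ in atTop, z j ≤ j) {T : ℝ} (hT : 2 < T) :
    ∀ᵐ ω ∂μ, ∀ᶠ j : ℕ in atTop, ∀ n : ℕ, 2 ^ j ≤ n → n + ⌈(j : ℝ) ^ T⌉₊ < 2 ^ (j + 1) →
      ∃ m ∈ A ω, n < m ∧ m ≤ n + ⌈(j : ℝ) ^ T⌉₊ := by
  classical
  have hl2 : 0 < Real.log 2 := hl2
  have hl21 : Real.log 2 ≤ 1 := by linarith [Real.log_two_lt_d9]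
  obtain ⟨c, hc, Y, hlow⟩ := low' low (s := T) hT
  obtain ⟨h, hh⟩ : ∃ h : ℕ → ℕ, h = fun (k : ℕ) => ⌈(k : ℝ) ^ T⌉₊ := ⟨_, rfl⟩
  obtain ⟨J, hJ⟩ : ∃ J : ℕ → Finset ℕ, J = fun k => (Ico (2 ^ k) (2 ^ (k + 1))).filter (fun n => n + h k < 2 ^ (k + 1)) := ⟨_, rfl⟩
  obtain ⟨B, hB⟩ : ∃ B : ℕ → Set Ω, B = fun k => ⋃ n ∈ J k, free A (Ioc n (n + h k)) := ⟨_, rfl⟩
  have hpowT : Tendsto (fun k : ℕ => (k : ℝ) ^ T) atTop atTop := (tendsto_rpow_atTop (by linarith)).comp hcast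
  have hpow2 : Tendsto (fun k : ℕ => (k : ℝ) ^ (T - 2)) atTop atTop := (tendsto_rpow_atTop (by linarith)).comp hcast
  have hh1 : ∀ k : ℕ, (k : ℝ) ^ T ≤ h k := by
    intro k
    rw [hh]
    exact Nat.le_ceil _
  have hh2 : ∀ k : ℕ, 1 ≤ k → (h k : ℝ) ≤ 2 * (k : ℝ) ^ T := by
    intro k hk
    have hk1 : (1 : ℝ) ≤ k := by exact_mod_cast hk
    have e1 : 1 ≤ (k : ℝ) ^ T := Real.one_le_rpow hk1 (by linarith)
    have e2 := Nat.ceil_lt_add_one (show 0 ≤ (k : ℝ) ^ T by positivity)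
    rw [hh]
    simp only []
    linarith
  have hbound : ∀ᶠ k : ℕ in atTop, μ.real (B k) ≤ (Real.exp (-1)) ^ k := by
    filter_upwards [hz, beta_small hz one_pos, hpowT.eventually_ge_atTop (Y : ℝ), hpow2.eventually_ge_atTop (4 / c), eventually_ge_atTop 1]
      with k h1 h2' h3 h4 hk
    have h2 := one_le_of hk h2'
    have hk1 : (1 : ℝ) ≤ k := by exact_mod_cast hk
    have hk0 : (0 : ℝ) < k := by linarith
    have hone : ∀ n ∈ J k, μ.real (free A (Ioc n (n + h k))) ≤ Real.exp (-(2 * k)) := by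
      intro n hn
      rw [hJ] at hn
      simp only [] at hn
      rw [mem_filter, mem_Ico] at hn
      refine (free_le hA hk h2 (a := n) (t := h k) (by omega) hn.2).trans ?_
      rw [Real.exp_le_exp, neg_le_neg_iff]
      have hV := Vf_pos (z k)
      have e1 : c * (Vf (z k) * h k) ≤ Wf (z k) n (h k) := by
        refine hlow (z k) n (h k) ?_ ?_
        · refine le_trans ?_ (hh1 k)
          exact Real.rpow_le_rpow (Nat.cast_nonneg _) (by exact_mod_cast h1) (by linarith)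
        · have : (Y : ℝ) ≤ h k := h3.trans (hh1 k)
          exact_mod_cast this
      rw [le_div_iff₀ (by positivity)]
      refine le_trans ?_ e1
      have e2 : c * (Vf (z k) * (k : ℝ) ^ T) ≤ c * (Vf (z k) * h k) :=
        mul_le_mul_of_nonneg_left (mul_le_mul_of_nonneg_left (hh1 k) hV.le) hc.le
      refine le_trans ?_ e2
      have e3 : (k : ℝ) ^ T = (k : ℝ) ^ (T - 2) * (k : ℝ) ^ 2 := by
        rw [← Real.rpow_natCast (k : ℝ) 2, ← Real.rpow_add hk0]
        congr 1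
        push_cast
        ring
      rw [div_le_iff₀ hc] at h4
      have e4 : 4 * (k : ℝ) ^ 2 ≤ c * (k : ℝ) ^ T := by
        rw [e3]
        nlinarith [sq_nonneg (k : ℝ)]
      have e5 : 2 * (k : ℝ) * (((k : ℝ) + 1) * Real.log 2) ≤ 4 * (k : ℝ) ^ 2 := by
        have e6 : ((k : ℝ) + 1) * Real.log 2 ≤ 2 * k := by nlinarith
        nlinarith
      calc 2 * (k : ℝ) * (Vf (z k) * (((k : ℝ) + 1) * Real.log 2)) = Vf (z k) * (2 * (k : ℝ) * (((k : ℝ) + 1) * Real.log 2)) := by ring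
        _ ≤ Vf (z k) * (c * (k : ℝ) ^ T) := mul_le_mul_of_nonneg_left (e5.trans e4) hV.le
        _ = c * (Vf (z k) * (k : ℝ) ^ T) := by ring
    rw [hB]
    refine (measureReal_biUnion_finset_le _ _).trans ((sum_le_sum hone).trans ?_)
    rw [sum_const, nsmul_eq_mul]
    have e1 : ((J k).card : ℝ) ≤ (2 : ℝ) ^ k := by
      have e2 : (J k).card ≤ 2 ^ k := by
        rw [hJ]
        refine (card_filter_le _ _).trans ?_
        rw [Nat.card_Ico, pow_succ]
        omega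
      exact_mod_cast e2
    have h2e : (2 : ℝ) ^ k ≤ Real.exp k := by
      have : (2 : ℝ) ≤ Real.exp 1 := by linarith [Real.exp_one_gt_d9]
      calc (2 : ℝ) ^ k ≤ (Real.exp 1) ^ k := pow_le_pow_left₀ (by norm_num) this k
        _ = Real.exp k := by rw [← Real.exp_nat_mul, mul_one]
    calc ((J k).card : ℝ) * Real.exp (-(2 * (k : ℝ))) ≤ Real.exp k * Real.exp (-(2 * (k : ℝ))) :=
          mul_le_mul_of_nonneg_right (e1.trans h2e) (Real.exp_pos _).le
      _ = (Real.exp (-1)) ^ k := by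
        rw [← Real.exp_add, ← Real.exp_nat_mul]
        congr 1
        ring
  have hsm : Summable (fun k : ℕ => (Real.exp (-1)) ^ k) := by
    refine summable_geometric_of_lt_one (Real.exp_pos _).le ?_
    rw [Real.exp_lt_one_iff]
    norm_num
  filter_upwards [bc hsm hbound] with ω hω
  filter_upwards [hω, eventually_ge_atTop 1] with j hj hj1 n hn1 hn2
  by_contra hcon
  push Not at hcon
  rw [hB] at hj
  apply hj
  have hhj : h j = ⌈(j : ℝ) ^ T⌉₊ := by rw [hh]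
  rw [← hhj] at hn2 hcon
  refine Set.mem_biUnion (x := n) ?_ ?_
  · rw [hJ]
    exact mem_coe.2 (mem_filter.2 ⟨mem_Ico.2 ⟨hn1, by omega⟩, by omega⟩)
  · intro m hm hmA
    rw [mem_Ioc] at hm
    have := hcon m hmA hm.1
    omega

/-- The gaps in the blocks. -/
theorem gaps {S : Set ℕ} {T : ℝ} (hT : 2 < T) (h0 : ∀ᶠ j : ℕ in atTop, ∀ n : ℕ, 2 ^ j ≤ n → n + ⌈(j : ℝ) ^ T⌉₊ < 2 ^ (j + 1) →
      ∃ m ∈ S, n < m ∧ m ≤ n + ⌈(j : ℝ) ^ T⌉₊) :
    ∀ᶠ j : ℕ in atTop, ∀ n k d : ℕ, 2 ≤ k → 2 ^ j ≤ n → n + (k - 1) * d < 2 ^ (j + 1) → Run S n k d →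
      (d : ℝ) ≤ 2 * (j : ℝ) ^ T := by
  filter_upwards [h0, eventually_ge_atTop 1] with j hj hj1 n k d hk hn1 hn2 hrun
  have hdk : d ≤ (k - 1) * d := Nat.le_mul_of_pos_left _ (by omega)
  have hh2 : (⌈(j : ℝ) ^ T⌉₊ : ℝ) ≤ 2 * (j : ℝ) ^ T := by
    have hk1 : (1 : ℝ) ≤ j := by exact_mod_cast hj1
    have e1 : 1 ≤ (j : ℝ) ^ T := Real.one_le_rpow hk1 (by linarith)
    have e2 := Nat.ceil_lt_add_one (show 0 ≤ (j : ℝ) ^ T by positivity)
    linarith
  by_contra hcon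
  push Not at hcon
  have h1 : (⌈(j : ℝ) ^ T⌉₊ : ℝ) < d := lt_of_le_of_lt hh2 hcon
  have h2 : ⌈(j : ℝ) ^ T⌉₊ < d := by exact_mod_cast h1
  obtain ⟨m, hm, hm1, hm2⟩ := hj n hn1 (by omega)
  obtain ⟨i, hi, him⟩ := (hrun m (by omega) (by omega)).1 hm
  rcases Nat.eq_zero_or_pos i with h0 | h0
  · rw [h0] at him
    omega
  · have h3 : d ≤ i * d := Nat.le_mul_of_pos_left _ h0
    omega

theorem cost_mono {j k k' d : ℕ} (hj : 1 ≤ j) (h : k ≤ k') : cost j k d ≤ cost j k' d := by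
  unfold cost
  have h1 : (k : ℝ) ≤ k' := by exact_mod_cast h
  have hlog := Real.log_natCast_nonneg j
  have hl := hl2
  have hj0 : (0 : ℝ) < j := by exact_mod_cast hj
  have h2 : (k : ℝ) * Real.log j ≤ k' * Real.log j := mul_le_mul_of_nonneg_right h1 hlog
  have h3 : ((k : ℝ) - 1) * d / (j * Real.log 2) ≤ ((k' : ℝ) - 1) * d / (j * Real.log 2) :=
    div_le_div_of_nonneg_right (mul_le_mul_of_nonneg_right (by linarith) (Nat.cast_nonneg d)) (by positivity)
  linarith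

/-- **Expensive runs do not occur**. -/
theorem none (low : LOW) (hA : IsModel μ (pr z) A) (hz : ∀ᶠ j : ℕ in atTop, z j ≤ j) {ε : ℝ} (hε : 0 < ε) (hε1 : ε < 1) :
    ∀ᵐ ω ∂μ, ∀ᶠ j : ℕ in atTop, ∀ n k d : ℕ, z j ≤ k → 2 ≤ k → 1 ≤ d → 2 ^ j ≤ n → n + (k - 1) * d < 2 ^ (j + 1) →
      Run (A ω) n k d → cost j k d < (1 + ε) * (j * Real.log 2) := by
  classical
  have hl := hl2
  have hl1 : Real.log 2 < 0.7 := by linarith [Real.log_two_lt_d9]
  obtain ⟨I, hI⟩ : ∃ I : ℕ → Finset (ℕ × ℕ × ℕ), I = fun j => (Ico (2 ^ j) (2 ^ (j + 1)) ×ˢ Icc 1 (3 * j) ×ˢ Icc 1 (j ^ 3)).filter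
    (fun x => 2 ≤ x.2.1 ∧ PQ (z j) ∣ x.2.2 ∧ (1 + ε) * (j * Real.log 2) ≤ cost j x.2.1 x.2.2 ∧
      x.1 + (x.2.1 - 1) * x.2.2 < 2 ^ (j + 1)) := ⟨_, rfl⟩
  obtain ⟨B, hB⟩ : ∃ B : ℕ → Set Ω, B = fun j => ⋃ x ∈ I j, {ω | Run (A ω) x.1 x.2.1 x.2.2} := ⟨_, rfl⟩
  obtain ⟨D, hD, hβD⟩ := beta_le hz
  obtain ⟨δ, hδ⟩ : ∃ δ : ℝ, δ = ε / 8 := ⟨_, rfl⟩
  have hδ0 : 0 < δ := by rw [hδ]; positivity
  have hδ1 : δ < 1 / 8 := by rw [hδ]; linarith
  -- the logarithm of the density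
  have hlogD : ∀ᶠ j : ℕ in atTop, (1 - δ) * Real.log j ≤ -Real.log (D * Real.log j / j) := by
    have h1 := (isLittleO_log_rpow_atTop (show (0 : ℝ) < δ by positivity)).bound (show (0 : ℝ) < 1 / D by positivity)
    filter_upwards [tendsto_natCast_atTop_atTop.eventually h1,
      (Real.tendsto_log_atTop.comp tendsto_natCast_atTop_atTop).eventually_ge_atTop 1, eventually_ge_atTop 1] with j h2 h3 h4
    have h3' : 1 ≤ Real.log (j : ℝ) := h3
    have hj1 : (1 : ℝ) ≤ j := by exact_mod_cast h4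
    have hj0 : (0 : ℝ) < j := by linarith
    rw [Real.norm_of_nonneg (by linarith), Real.norm_of_nonneg (by positivity)] at h2
    have e1 : D * Real.log j ≤ (j : ℝ) ^ δ := by
      calc D * Real.log j ≤ D * (1 / D * (j : ℝ) ^ δ) := mul_le_mul_of_nonneg_left h2 hD.le
        _ = (j : ℝ) ^ δ := by field_simp
    have e2 : Real.log (D * Real.log j / j) ≤ δ * Real.log j - Real.log j := by
      rw [Real.log_div (by positivity) hj0.ne']
      have e3 := Real.log_le_log (by positivity) e1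
      rw [Real.log_rpow hj0] at e3
      linarith
    linarith
  have hone : ∀ᶠ j : ℕ in atTop, ∀ x ∈ I j, μ.real {ω | Run (A ω) x.1 x.2.1 x.2.2} ≤ Real.exp (-((1 + ε / 2) * (j * Real.log 2))) := by
    filter_upwards [hβD, hlogD, beta_small hz hδ0, (Real.tendsto_log_atTop.comp tendsto_natCast_atTop_atTop).eventually_ge_atTop 1,
      tendsto_natCast_atTop_atTop.eventually_ge_atTop (1 / δ), eventually_ge_atTop 1] with j h1 h2 h3 h4 h5 hj x hx
    obtain ⟨n, k, d⟩ := x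
    rw [hI] at hx
    simp only [mem_filter, mem_product, mem_Icc, mem_Ico] at hx
    obtain ⟨⟨⟨hn1, hn2⟩, ⟨hk1, hk3⟩, hd1, hdj⟩, hk2, hPQ, hcost, hblk⟩ := hx
    simp only
    have h4' : 1 ≤ Real.log (j : ℝ) := h4
    have hj1 : (1 : ℝ) ≤ j := by exact_mod_cast hj
    have hj0 : (0 : ℝ) < j := by linarith
    have hV := Vf_pos (z j)
    refine (run_le hA hj (one_le_of hj (h3.trans (by linarith))) hd1 hn1 hblk).trans ?_
    obtain ⟨β, hβ⟩ : ∃ β, β = 1 / (Vf (z j) * (j * Real.log 2)) := ⟨_, rfl⟩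
    have hβ0 : 0 < β := by rw [hβ]; positivity
    rw [← hβ] at h1 h3 ⊢
    have hk2' : (2 : ℝ) ≤ k := by exact_mod_cast hk2
    have e1 : β ^ k ≤ Real.exp (-(k * ((1 - δ) * Real.log j))) := by
      have e2 : β ^ k = Real.exp (k * Real.log β) := by
        rw [Real.exp_nat_mul, Real.exp_log hβ0]
      rw [e2, Real.exp_le_exp]
      have e3 : Real.log β ≤ Real.log (D * Real.log j / j) := Real.log_le_log hβ0 h1
      have e4 : (k : ℝ) * Real.log β ≤ k * (-((1 - δ) * Real.log j)) := mul_le_mul_of_nonneg_left (by linarith) (by linarith)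
      linarith
    have hkr : ((k : ℝ) - 1) * d = (((k - 1) * d : ℕ) : ℝ) := by
      rw [Nat.cast_mul, Nat.cast_sub (by omega)]
      simp
    obtain ⟨c1, hc1⟩ : ∃ c1, c1 = ((k : ℝ) - 1) * d / (j * Real.log 2) := ⟨_, rfl⟩
    have hc10 : 0 ≤ c1 := by
      rw [hc1, hkr]
      positivity
    have e2 : (1 - δ) * c1 - δ * k ≤ ((Wf (z j) (n - 1) ((k - 1) * d + 1) : ℝ) - k) / (Vf (z j) * (((j : ℝ) + 1) * Real.log 2)) := by
      have e3 := (W_period (z := z j) (n := n) (k := k) hPQ).1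
      have e4 : (Vf (z j) * (((k - 1) * d : ℕ) : ℝ) - k) / (Vf (z j) * (((j : ℝ) + 1) * Real.log 2)) ≤
          ((Wf (z j) (n - 1) ((k - 1) * d + 1) : ℝ) - k) / (Vf (z j) * (((j : ℝ) + 1) * Real.log 2)) :=
        div_le_div_of_nonneg_right (by linarith) (by positivity)
      refine le_trans ?_ e4
      rw [sub_div]
      have e5 : Vf (z j) * (((k - 1) * d : ℕ) : ℝ) / (Vf (z j) * (((j : ℝ) + 1) * Real.log 2)) = c1 * ((j : ℝ) / (j + 1)) := by
        rw [hc1, hkr]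
        field_simp
      have e6 : (k : ℝ) / (Vf (z j) * (((j : ℝ) + 1) * Real.log 2)) ≤ δ * k := by
        have e7 : (k : ℝ) / (Vf (z j) * (((j : ℝ) + 1) * Real.log 2)) ≤ k / (Vf (z j) * (j * Real.log 2)) := by
          apply div_le_div_of_nonneg_left (by linarith) (by positivity)
          refine mul_le_mul_of_nonneg_left ?_ hV.le
          nlinarith
        refine e7.trans ?_
        have e8 : (k : ℝ) / (Vf (z j) * (j * Real.log 2)) = β * k := by rw [hβ]; ring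
        rw [e8]
        exact mul_le_mul_of_nonneg_right h3 (by linarith)
      have e7 : 1 - δ ≤ (j : ℝ) / (j + 1) := by
        rw [le_div_iff₀ (by positivity)]
        rw [div_le_iff₀ hδ0] at h5
        nlinarith
      have e8 : c1 * (1 - δ) ≤ c1 * ((j : ℝ) / (j + 1)) := mul_le_mul_of_nonneg_left e7 hc10
      rw [e5]
      linarith
    calc β ^ k * Real.exp (-(((Wf (z j) (n - 1) ((k - 1) * d + 1) : ℝ) - k) / (Vf (z j) * (((j : ℝ) + 1) * Real.log 2)))) ≤
          Real.exp (-(k * ((1 - δ) * Real.log j))) * Real.exp (-((1 - δ) * c1 - δ * k)) := by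
          refine mul_le_mul e1 ?_ (Real.exp_pos _).le (Real.exp_pos _).le
          rw [Real.exp_le_exp, neg_le_neg_iff]
          exact e2
      _ ≤ Real.exp (-((1 + ε / 2) * (j * Real.log 2))) := by
          rw [← Real.exp_add, Real.exp_le_exp]
          have e3 : δ * k ≤ δ * (k * Real.log j) := by
            refine mul_le_mul_of_nonneg_left ?_ hδ0.le
            nlinarith
          have e4 : (1 - 2 * δ) * cost j k d ≤ k * ((1 - δ) * Real.log j) + ((1 - δ) * c1 - δ * k) := by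
            unfold cost
            rw [← hc1]
            nlinarith
          have e5 : (1 + ε / 2) * (j * Real.log 2) ≤ (1 - 2 * δ) * ((1 + ε) * (j * Real.log 2)) := by
            have e6 : (1 + ε / 2) ≤ (1 - 2 * δ) * (1 + ε) := by
              rw [hδ]
              nlinarith
            have e7 : 0 ≤ j * Real.log 2 := by positivity
            calc (1 + ε / 2) * (j * Real.log 2) ≤ ((1 - 2 * δ) * (1 + ε)) * (j * Real.log 2) := mul_le_mul_of_nonneg_right e6 e7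
              _ = _ := by ring
          have e6 : (1 - 2 * δ) * ((1 + ε) * (j * Real.log 2)) ≤ (1 - 2 * δ) * cost j k d :=
            mul_le_mul_of_nonneg_left hcost (by linarith)
          linarith
  have hpow : ∀ᶠ j : ℕ in atTop, 3 * (j : ℝ) ^ 4 ≤ Real.exp (ε / 4 * Real.log 2 * j) := by
    have h1 := (isLittleO_pow_exp_pos_mul_atTop 4 (show 0 < ε / 4 * Real.log 2 by positivity)).bound (show (0 : ℝ) < 1 / 3 by norm_num)
    filter_upwards [tendsto_natCast_atTop_atTop.eventually h1] with j h2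
    rw [Real.norm_of_nonneg (by positivity), Real.norm_of_nonneg (Real.exp_pos _).le] at h2
    linarith
  have hb : ∀ᶠ j : ℕ in atTop, μ.real (B j) ≤ (Real.exp (-(ε / 4 * Real.log 2))) ^ j := by
    filter_upwards [hone, hpow] with j h2 h3
    rw [hB]
    refine (measureReal_biUnion_finset_le _ _).trans ((sum_le_sum h2).trans ?_)
    rw [sum_const, nsmul_eq_mul]
    have h4 : ((I j).card : ℝ) ≤ 2 ^ j * (3 * (j : ℝ) ^ 4) := by
      have h5 : (I j).card ≤ 2 ^ j * (3 * j ^ 4) := by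
        rw [hI]
        refine (card_filter_le _ _).trans ?_
        rw [card_product, card_product, Nat.card_Ico, Nat.card_Icc, Nat.card_Icc, Nat.add_sub_cancel, Nat.add_sub_cancel]
        have h6 : 2 ^ (j + 1) - 2 ^ j = 2 ^ j := by rw [pow_succ]; omega
        rw [h6]
        apply le_of_eq
        ring
      exact_mod_cast h5
    have e0 : (2 : ℝ) ^ j = Real.exp (j * Real.log 2) := by
      rw [mul_comm, Real.exp_mul, Real.exp_log (by norm_num), Real.rpow_natCast]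
    calc ((I j).card : ℝ) * Real.exp (-((1 + ε / 2) * (j * Real.log 2))) ≤
          (Real.exp (j * Real.log 2) * Real.exp (ε / 4 * Real.log 2 * j)) * Real.exp (-((1 + ε / 2) * (j * Real.log 2))) := by
          refine mul_le_mul_of_nonneg_right (h4.trans ?_) (Real.exp_pos _).le
          rw [e0]
          exact mul_le_mul_of_nonneg_left h3 (Real.exp_pos _).le
      _ = (Real.exp (-(ε / 4 * Real.log 2))) ^ j := by
          rw [← Real.exp_add, ← Real.exp_add, ← Real.exp_nat_mul]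
          congr 1
          ring
  have hsm : Summable (fun j : ℕ => (Real.exp (-(ε / 4 * Real.log 2))) ^ j) := by
    refine summable_geometric_of_lt_one (Real.exp_pos _).le ?_
    rw [Real.exp_lt_one_iff]
    have : 0 < ε / 4 * Real.log 2 := by positivity
    linarith
  have hd3 : ∀ᶠ j : ℕ in atTop, 2 * (j : ℝ) ^ (5 / 2 : ℝ) ≤ (j : ℝ) ^ 3 := by
    filter_upwards [eventually_ge_atTop 4] with j hj
    have hj4 : (4 : ℝ) ≤ j := by exact_mod_cast hj
    have hj0 : (0 : ℝ) < j := by linarith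
    have e1 : (j : ℝ) ^ 3 = (j : ℝ) ^ (5 / 2 : ℝ) * (j : ℝ) ^ (1 / 2 : ℝ) := by
      rw [← Real.rpow_add hj0, ← Real.rpow_natCast]
      norm_num
    have e2 : (2 : ℝ) ≤ (j : ℝ) ^ (1 / 2 : ℝ) := by
      have e3 : (4 : ℝ) ^ (1 / 2 : ℝ) = 2 := by
        rw [← Real.sqrt_eq_rpow, show (4 : ℝ) = 2 ^ 2 by norm_num]
        exact Real.sqrt_sq (by norm_num)
      have e4 : (4 : ℝ) ^ (1 / 2 : ℝ) ≤ (j : ℝ) ^ (1 / 2 : ℝ) := Real.rpow_le_rpow (by norm_num) hj4 (by norm_num)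
      linarith
    rw [e1]
    have e3 : 0 ≤ (j : ℝ) ^ (5 / 2 : ℝ) := by positivity
    nlinarith
  filter_upwards [bc hsm hb, gaps0 low hA hz (T := 5 / 2) (by norm_num), all_rough hA] with ω hω hgap hro
  filter_upwards [hω, gaps (by norm_num) hgap, hd3, hz, (Real.tendsto_log_atTop.comp tendsto_natCast_atTop_atTop).eventually_ge_atTop 1, eventually_ge_atTop 1] with
    j h1 h2 h3 h4 h5 hj n k d hzk hk2 hd1 hn1 hn2 hrun
  by_contra hcon
  push Not at hcon
  have h5' : 1 ≤ Real.log (j : ℝ) := h5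
  have hj1 : (1 : ℝ) ≤ j := by exact_mod_cast hj
  have hdj : d ≤ j ^ 3 := by
    have := (h2 n k d hk2 hn1 hn2 hrun).trans h3
    exact_mod_cast this
  have hrough : ∀ i < k, Rough (z j) (n + i * d) := by
    intro i hi
    have e1 := hro _ (mem_of_run hrun hi)
    have e2 : i * d ≤ (k - 1) * d := Nat.mul_le_mul_right _ (by omega)
    rw [(log_block (k := j) (by omega) (by omega)).1] at e1
    exact e1
  have hPQ : PQ (z j) ∣ d := by
    unfold PQ
    refine Finset.prod_primes_dvd d (fun p hp => (mem_filter.1 hp).2.prime) (fun p hp => ?_)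
    rw [mem_filter, mem_range] at hp
    exact dvd_of_run (S := A ω) (fun i hi => mem_of_run hrun hi) hrough hp.2 (by omega) hp.1
  have hex : ∃ k', max 2 (z j) ≤ k' ∧ (1 + ε) * (j * Real.log 2) ≤ cost j k' d := ⟨k, by omega, hcon⟩
  obtain ⟨k', hk'⟩ : ∃ k', k' = Nat.find hex := ⟨_, rfl⟩
  obtain ⟨g1, g2⟩ := Nat.find_spec hex
  rw [← hk'] at g1 g2
  have g3 : k' ≤ k := by rw [hk']; exact Nat.find_min' hex ⟨by omega, hcon⟩
  have g4 : k' ≤ 3 * j := by
    rcases Nat.lt_or_ge (max 2 (z j)) k' with g5 | g5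
    · have g6 := Nat.find_min hex (m := k' - 1) (by omega)
      have g7 : ¬ (1 + ε) * (j * Real.log 2) ≤ cost j (k' - 1) d := fun h => g6 ⟨by omega, h⟩
      push Not at g7
      unfold cost at g7
      have g8 : ((k' - 1 : ℕ) : ℝ) = (k' : ℝ) - 1 := by
        rw [Nat.cast_sub (by omega)]
        simp
      rw [g8] at g7
      have g9 : (3 : ℝ) ≤ k' := by
        have : 3 ≤ k' := by omega
        exact_mod_cast this
      have g10 : 0 ≤ ((k' : ℝ) - 1 - 1) * d / (j * Real.log 2) :=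
        div_nonneg (mul_nonneg (by linarith) (Nat.cast_nonneg d)) (by positivity)
      have g11 : (k' : ℝ) - 1 ≤ ((k' : ℝ) - 1) * Real.log j := by nlinarith
      have g13 : (1 + ε) * (j * Real.log 2) ≤ 2 * (j * Real.log 2) :=
        mul_le_mul_of_nonneg_right (by linarith) (by positivity)
      have g14 : (j : ℝ) * Real.log 2 ≤ j * 0.7 := mul_le_mul_of_nonneg_left hl1.le (by positivity)
      have g12 : (k' : ℝ) ≤ 3 * j := by linarith
      exact_mod_cast g12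
    · omega
  apply h1
  rw [hB]
  have g6 : 1 ≤ k' := le_trans (le_trans (by norm_num) (le_max_left 2 (z j))) g1
  refine Set.mem_biUnion (x := (n, k', d)) ?_ (run_mono g3 g6 hd1 hrun)
  rw [hI]
  have g5 : (k' - 1) * d ≤ (k - 1) * d := Nat.mul_le_mul_right _ (by omega)
  show (n, k', d) ∈ (Ico (2 ^ j) (2 ^ (j + 1)) ×ˢ Icc 1 (3 * j) ×ˢ Icc 1 (j ^ 3)).filter _
  rw [mem_filter, mem_product, mem_product, mem_Ico, mem_Icc, mem_Icc]
  have g7 : 2 ≤ k' := le_trans (le_max_left 2 (z j)) g1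
  have g8 : n < 2 ^ (j + 1) := by omega
  have g9 : n + (k' - 1) * d < 2 ^ (j + 1) := by omega
  exact ⟨⟨⟨hn1, g8⟩, ⟨g6, g4⟩, hd1, hdj⟩, g7, hPQ, g2, g9⟩

end Pool.Agent.H38.LR
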