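import Pool.Agent.H38.LR.E

/-!
# Runs in the sieved models: the longest run in a block
-/

set_option autoImplicit false

namespace Pool.Agent.H38.LR

open Finset MeasureTheory Filter Pool.Agent.Q120.MG Pool.Agent.Q120.GM Pool.Agent.Q120.CL
open scoped Topology

/-- `S` has a run with `k` elements in the dyadic block `[2 ^ j, 2 ^ (j + 1))`. -/
def HasRun (S : Set ℕ) (j k : ℕ) : Prop :=
  ∃ n d, 1 ≤ d ∧ 2 ^ j ≤ n ∧ n + (k - 1) * d < 2 ^ (j + 1) ∧ Run S n k d

/-- the length of the longest run in the dyadic block -/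
noncomputable def Lmax (S : Set ℕ) (j : ℕ) : ℕ := sSup {k | HasRun S j k}

/-- the predicted length -/
noncomputable def MM (z : ℕ → ℕ) (j : ℕ) : ℝ :=
  max ((j * Real.log 2) / (Real.log (j * Real.log 2) + PQ (z j) / (j * Real.log 2))) (2 * Real.log (j * Real.log 2))

theorem bdd_run (S : Set ℕ) (j : ℕ) : BddAbove {k | HasRun S j k} := by
  refine ⟨2 ^ (j + 1), ?_⟩
  rintro k ⟨n, d, hd, h1, h2, _⟩
  have h3 : k - 1 ≤ (k - 1) * d := Nat.le_mul_of_pos_right _ hd
  have h4 : 1 ≤ 2 ^ j := Nat.one_le_two_pow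
  omega

theorem le_Lmax {S : Set ℕ} {j k : ℕ} (h : HasRun S j k) : k ≤ Lmax S j := le_csSup (bdd_run S j) h

theorem Lmax_le {S : Set ℕ} {j : ℕ} {y : ℝ} (hy : 0 ≤ y) (h : ∀ k, HasRun S j k → (k : ℝ) ≤ y) : (Lmax S j : ℝ) ≤ y := by
  rcases Set.eq_empty_or_nonempty {k | HasRun S j k} with h1 | h1
  · unfold Lmax
    rw [h1]
    simpa using hy
  · exact h _ (Nat.sSup_mem h1 (bdd_run S j))

/-- The deterministic properties of the sample. -/
structure Good (z : ℕ → ℕ) (S : Set ℕ) : Prop where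
  p1 : ∀ ε : ℝ, 0 < ε → ε < 1 → ∀ᶠ j : ℕ in atTop, ∀ k d : ℕ, 2 ≤ k → 1 ≤ d → PQ (z j) ∣ d →
      cost j k d ≤ (1 - ε) * (j * Real.log 2) → Occ S j k d
  p2 : ∀ ε : ℝ, 0 < ε → ε < 1 → ∀ᶠ j : ℕ in atTop, ∀ k d : ℕ, 2 ≤ k → 1 ≤ d →
      (∀ p : ℕ, p.Prime → p ≤ k → p < z j → p ∣ d) →
      (k : ℝ) ≤ (j : ℝ) ^ (1 - ε) → ((k : ℝ) - 1) * d ≤ (j : ℝ) ^ (2 - ε) → Occ S j k d
  p3 : ∀ ε : ℝ, 0 < ε → ε < 1 → ∀ᶠ j : ℕ in atTop, ∀ n k d : ℕ, z j ≤ k → 2 ≤ k → 1 ≤ d → 2 ^ j ≤ n →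
      n + (k - 1) * d < 2 ^ (j + 1) → Run S n k d → cost j k d < (1 + ε) * (j * Real.log 2)
  p4 : ∀ T : ℝ, 2 < T → ∀ᶠ j : ℕ in atTop, ∀ n k d : ℕ, 2 ≤ k → 2 ^ j ≤ n → n + (k - 1) * d < 2 ^ (j + 1) →
      Run S n k d → (d : ℝ) ≤ 2 * (j : ℝ) ^ T
  p5 : ∀ n ∈ S, Rough (z (Nat.log 2 n)) n

theorem loglog2 : -1 ≤ Real.log (Real.log 2) := by
  have h1 : Real.exp (-1) ≤ Real.log 2 := by
    have h2 := Real.exp_neg_one_lt_d9
    have h3 := Real.log_two_gt_d9
    linarith
  have h2 := Real.log_le_log (Real.exp_pos _) h1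
  rwa [Real.log_exp] at h2

theorem lX {j : ℕ} (hj : 1 ≤ j) : Real.log j - 1 ≤ Real.log (j * Real.log 2) ∧ Real.log (j * Real.log 2) ≤ Real.log j := by
  have hj0 : (0 : ℝ) < j := by exact_mod_cast hj
  rw [Real.log_mul hj0.ne' hl2.ne']
  have h1 := loglog2
  have h2 : Real.log (Real.log 2) ≤ 0 := Real.log_nonpos hl2.le (by linarith [Real.log_two_lt_d9])
  constructor <;> linarith

theorem theta_nat (k : ℕ) : Chebyshev.theta k = Real.log (primorial k) := by
  rw [Chebyshev.theta_eq_log_primorial, Nat.floor_natCast]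

theorem theta_up {δ : ℝ} (hδ : 0 < δ) : ∀ᶠ k : ℕ in atTop, Chebyshev.theta k ≤ (1 + δ) * k := by
  filter_upwards [tendsto_natCast_atTop_atTop.eventually (Pool.Agent.Cov.PNT.theta_div_tendsto.eventually
    (ge_mem_nhds (by linarith : (1 : ℝ) < 1 + δ))), eventually_ge_atTop 1] with k hk h1
  have hk0 : (0 : ℝ) < k := by exact_mod_cast h1
  rwa [div_le_iff₀ hk0] at hk

theorem theta_lo {δ : ℝ} (hδ : 0 < δ) : ∀ᶠ k : ℕ in atTop, (1 - δ) * k ≤ Chebyshev.theta k := by
  filter_upwards [tendsto_natCast_atTop_atTop.eventually (Pool.Agent.Cov.PNT.theta_div_tendsto.eventually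
    (le_mem_nhds (by linarith : 1 - δ < (1 : ℝ)))), eventually_ge_atTop 1] with k hk h1
  have hk0 : (0 : ℝ) < k := by exact_mod_cast h1
  rwa [le_div_iff₀ hk0] at hk

theorem log_large (C : ℝ) : ∀ᶠ j : ℕ in atTop, C ≤ Real.log j :=
  (Real.tendsto_log_atTop.comp tendsto_natCast_atTop_atTop).eventually_ge_atTop C

theorem occ_has {S : Set ℕ} {j k d : ℕ} (hd : 1 ≤ d) (h : Occ S j k d) : HasRun S j k := by
  obtain ⟨n, h1, h2, h3⟩ := h
  exact ⟨n, d, hd, h1, h2, h3⟩

/-- the long runs with the difference `PQ (z j)` -/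
theorem low_a {z : ℕ → ℕ} {S : Set ℕ} (hS : Good z S) {ε : ℝ} (hε : 0 < ε) (hε1 : ε < 1) :
    ∀ᶠ j : ℕ in atTop, 2 * Real.log (j * Real.log 2) ≤
      (j * Real.log 2) / (Real.log (j * Real.log 2) + PQ (z j) / (j * Real.log 2)) →
      (1 - ε) * ((j * Real.log 2) / (Real.log (j * Real.log 2) + PQ (z j) / (j * Real.log 2))) ≤ Lmax S j := by
  filter_upwards [hS.p1 (ε / 4) (by linarith) (by linarith), log_large (1 + 8 / ε), eventually_ge_atTop 1] with j h1 h2 hj hm
  have hj0 : (0 : ℝ) < j := by exact_mod_cast hj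
  have hl := hl2
  obtain ⟨X, hX⟩ : ∃ X, X = (j : ℝ) * Real.log 2 := ⟨_, rfl⟩
  have hX0 : 0 < X := by rw [hX]; positivity
  obtain ⟨g1, g2⟩ := lX hj
  rw [← hX] at g1 g2 hm h1 ⊢
  have h8 : 8 / ε ≥ 8 := by
    rw [ge_iff_le, le_div_iff₀ hε]
    linarith
  have hlX : 8 / ε ≤ Real.log X := by linarith
  have hP : (0 : ℝ) < PQ (z j) := by exact_mod_cast PQ_pos _
  obtain ⟨P, hPdef⟩ : ∃ P : ℝ, P = PQ (z j) := ⟨_, rfl⟩
  rw [← hPdef] at hm hP ⊢
  have hden : 0 < Real.log X + P / X := by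
    have e1 := div_pos hP hX0
    linarith
  obtain ⟨m, hmd⟩ : ∃ m, m = X / (Real.log X + P / X) := ⟨_, rfl⟩
  rw [← hmd] at hm ⊢
  have hmm : m * (Real.log X + P / X) = X := by rw [hmd, div_mul_cancel₀ _ hden.ne']
  have hm16 : 16 / ε ≤ m := by
    have : 16 / ε = 2 * (8 / ε) := by ring
    linarith
  have hm0 : 0 < m := lt_of_lt_of_le (by positivity) hm16
  have hmε : 16 ≤ m * ε := by rwa [div_le_iff₀ hε] at hm16
  obtain ⟨k, hk⟩ : ∃ k, k = ⌊(1 - ε / 2) * m⌋₊ := ⟨_, rfl⟩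
  have hk1 : (k : ℝ) ≤ (1 - ε / 2) * m := by
    rw [hk]
    exact Nat.floor_le (mul_nonneg (by linarith) hm0.le)
  have hk2 : (1 - ε / 2) * m < k + 1 := by
    rw [hk]
    exact Nat.lt_floor_add_one _
  have hk3 : (1 - ε) * m ≤ k := by nlinarith
  have hm16' : 16 ≤ m := by nlinarith
  have hk4 : 2 ≤ k := by
    have h3 : (2 : ℝ) < k + 1 := by nlinarith
    have h4 : 2 < k + 1 := by exact_mod_cast h3
    omega
  refine hk3.trans ?_
  have hcost : cost j k (PQ (z j)) ≤ (1 - ε / 4) * X := by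
    unfold cost
    rw [← hX, ← hPdef]
    have e1 : ((k : ℝ) - 1) * P / X ≤ k * (P / X) := by
      rw [mul_div_assoc]
      exact mul_le_mul_of_nonneg_right (by linarith) (by positivity)
    have e2 : (k : ℝ) * (Real.log X + P / X) ≤ (1 - ε / 2) * X := by
      calc (k : ℝ) * (Real.log X + P / X) ≤ (1 - ε / 2) * m * (Real.log X + P / X) := mul_le_mul_of_nonneg_right hk1 hden.le
        _ = (1 - ε / 2) * X := by rw [mul_assoc, hmm]
    have e3 : (k : ℝ) ≤ ε / 4 * X := by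
      have e4 : (k : ℝ) * (8 / ε) ≤ X := by
        calc (k : ℝ) * (8 / ε) ≤ k * Real.log X := mul_le_mul_of_nonneg_left hlX (Nat.cast_nonneg _)
          _ ≤ k * (Real.log X + P / X) := mul_le_mul_of_nonneg_left (by linarith [div_pos hP hX0]) (Nat.cast_nonneg _)
          _ ≤ (1 - ε / 2) * X := e2
          _ ≤ X := by nlinarith
      rw [mul_div_assoc', div_le_iff₀ hε] at e4
      nlinarith
    have e4 : (k : ℝ) * Real.log j ≤ k * Real.log X + k := by
      have : (k : ℝ) * Real.log j ≤ k * (Real.log X + 1) := mul_le_mul_of_nonneg_left (by linarith) (Nat.cast_nonneg _)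
      linarith
    nlinarith
  have := le_Lmax (occ_has (PQ_pos _) (h1 k (PQ (z j)) hk4 (PQ_pos _) dvd_rfl hcost))
  exact_mod_cast this

/-- the runs whose differences are primorials -/
theorem low_b {z : ℕ → ℕ} {S : Set ℕ} (hS : Good z S) {ε : ℝ} (hε : 0 < ε) (hε1 : ε < 1) :
    ∀ᶠ j : ℕ in atTop, (1 - ε) * (2 * Real.log (j * Real.log 2)) ≤ Lmax S j := by
  obtain ⟨K, hK⟩ := eventually_atTop.1 (theta_up (show 0 < ε / 8 by positivity))
  have hlogpow := (isLittleO_log_rpow_atTop (show (0 : ℝ) < ε / 4 by positivity)).bound (show (0 : ℝ) < 1 / 2 by norm_num)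
  filter_upwards [hS.p2 (ε / 2) (by linarith) (by linarith), log_large (2 + 4 / ε), log_large (1 + K + 1), eventually_ge_atTop 1,
    tendsto_natCast_atTop_atTop.eventually hlogpow] with j h1 h2 h3 hj h4
  have hj0 : (0 : ℝ) < j := by exact_mod_cast hj
  have hj1 : (1 : ℝ) ≤ j := by exact_mod_cast hj
  obtain ⟨g1, g2⟩ := lX hj
  obtain ⟨X, hX⟩ : ∃ X, X = (j : ℝ) * Real.log 2 := ⟨_, rfl⟩
  rw [← hX] at g1 g2 ⊢
  have h5 : 4 < 4 / ε := by
    rw [lt_div_iff₀ hε]
    linarith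
  have h6 : 4 / ε ≤ Real.log X := by linarith
  have h6' : 4 ≤ Real.log X * ε := by rwa [div_le_iff₀ hε] at h6
  rw [Real.norm_of_nonneg (by linarith), Real.norm_of_nonneg (by positivity)] at h4
  obtain ⟨k, hk⟩ : ∃ k, k = ⌊(2 - ε) * Real.log X⌋₊ := ⟨_, rfl⟩
  have hlX0 : 0 < Real.log X := by linarith
  have hk1 : (k : ℝ) ≤ (2 - ε) * Real.log X := by
    rw [hk]
    exact Nat.floor_le (mul_nonneg (by linarith) hlX0.le)
  have hk2 : (2 - ε) * Real.log X < k + 1 := by
    rw [hk]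
    exact Nat.lt_floor_add_one _
  have hk3 : (1 - ε) * (2 * Real.log X) ≤ k := by nlinarith
  have hk4 : 2 ≤ k := by
    have e1 : (2 : ℝ) < k + 1 := by nlinarith
    have e2 : 2 < k + 1 := by exact_mod_cast e1
    omega
  have hkK : K ≤ k := by
    have e1 : (K : ℝ) < k + 1 := by
      have : (K : ℝ) ≤ Real.log X := by linarith
      nlinarith
    have e2 : K < k + 1 := by exact_mod_cast e1
    omega
  have hth := hK k hkK
  have hklog : (k : ℝ) ≤ 2 * Real.log j := by nlinarith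
  have hk5 : (k : ℝ) ≤ (j : ℝ) ^ (ε / 4) := by linarith
  refine hk3.trans ?_
  have hd : (primorial k : ℝ) ≤ (j : ℝ) ^ (2 - 3 * ε / 4) := by
    rw [theta_nat] at hth
    have e0 : (0 : ℝ) < primorial k := by exact_mod_cast primorial_pos k
    rw [← Real.log_le_log_iff e0 (by positivity), Real.log_rpow hj0]
    have e1 : (1 + ε / 8) * (k : ℝ) ≤ (1 + ε / 8) * ((2 - ε) * Real.log j) := by
      refine mul_le_mul_of_nonneg_left (hk1.trans ?_) (by linarith)
      exact mul_le_mul_of_nonneg_left g2 (by linarith)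
    have e2 : (1 + ε / 8) * (2 - ε) ≤ 2 - 3 * ε / 4 := by nlinarith
    have e3 : (1 + ε / 8) * (2 - ε) * Real.log j ≤ (2 - 3 * ε / 4) * Real.log j :=
      mul_le_mul_of_nonneg_right e2 (by linarith)
    nlinarith
  have hocc := h1 k (primorial k) hk4 (primorial_pos k) (fun p hp hpk _ => hp.dvd_primorial_iff.2 hpk) (by
    refine hk5.trans (Real.rpow_le_rpow_of_exponent_le hj1 (by linarith))) (by
    calc ((k : ℝ) - 1) * (primorial k : ℝ) ≤ (j : ℝ) ^ (ε / 4) * (j : ℝ) ^ (2 - 3 * ε / 4) := by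
          refine mul_le_mul (by linarith) hd (Nat.cast_nonneg _) (by positivity)
      _ = (j : ℝ) ^ (2 - ε / 2) := by
          rw [← Real.rpow_add hj0]
          congr 1
          ring)
  have := le_Lmax (occ_has (primorial_pos k) hocc)
  exact_mod_cast this

/-- **The lower bound** -/
theorem low_all {z : ℕ → ℕ} {S : Set ℕ} (hS : Good z S) {ε : ℝ} (hε : 0 < ε) (hε1 : ε < 1) :
    ∀ᶠ j : ℕ in atTop, (1 - ε) * MM z j ≤ Lmax S j := by
  filter_upwards [low_a hS hε hε1, low_b hS hε hε1] with j h1 h2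
  unfold MM
  rcases le_total (2 * Real.log (j * Real.log 2))
    ((j * Real.log 2) / (Real.log (j * Real.log 2) + PQ (z j) / (j * Real.log 2))) with h | h
  · rw [max_eq_left h]
    exact h1 h
  · rw [max_eq_right h]
    exact h2

/-- **The upper bound** -/
theorem up_all {z : ℕ → ℕ} {S : Set ℕ} (hS : Good z S) {ε : ℝ} (hε : 0 < ε) (hε1 : ε < 1) :
    ∀ᶠ j : ℕ in atTop, ∀ k, HasRun S j k → (k : ℝ) ≤ (1 + ε) * MM z j := by
  obtain ⟨K, hK⟩ := eventually_atTop.1 (theta_lo (show 0 < ε / 8 by positivity))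
  filter_upwards [hS.p3 (ε / 4) (by linarith) (by linarith), hS.p4 (2 + ε / 4) (by linarith), log_large (2 + 8 / ε),
    log_large (1 + K + 1), eventually_ge_atTop 1] with j h1 h2 h3 h4 hj k hrun
  by_contra hcon
  push Not at hcon
  obtain ⟨n, d, hd, hn1, hn2, hr⟩ := hrun
  have hj0 : (0 : ℝ) < j := by exact_mod_cast hj
  have hj1 : (1 : ℝ) ≤ j := by exact_mod_cast hj
  have hl := hl2
  obtain ⟨g1, g2⟩ := lX hj
  unfold MM at hcon
  obtain ⟨X, hX⟩ : ∃ X, X = (j : ℝ) * Real.log 2 := ⟨_, rfl⟩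
  have hX0 : 0 < X := by rw [hX]; positivity
  rw [← hX] at g1 g2 h1 hcon
  have h5 : 8 < 8 / ε := by
    rw [lt_div_iff₀ hε]
    linarith
  have h6 : 8 / ε ≤ Real.log X := by linarith
  have h6' : 8 ≤ Real.log X * ε := by rwa [div_le_iff₀ hε] at h6
  obtain ⟨M, hM⟩ : ∃ M, M = max (X / (Real.log X + PQ (z j) / X)) (2 * Real.log X) := ⟨_, rfl⟩
  rw [← hM] at hcon
  have hM1 : X / (Real.log X + PQ (z j) / X) ≤ M := by rw [hM]; exact le_max_left _ _
  have hM2 : 2 * Real.log X ≤ M := by rw [hM]; exact le_max_right _ _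
  have hM3 : 16 ≤ M * ε := by nlinarith
  have hM0 : 16 ≤ M := by nlinarith
  have hk2 : 2 ≤ k := by
    have e1 : (2 : ℝ) < k := by nlinarith
    have e2 : 2 < k := by exact_mod_cast e1
    omega
  have hk2' : (2 : ℝ) ≤ k := by exact_mod_cast hk2
  have hrough : ∀ i < k, Rough (z j) (n + i * d) := by
    intro i hi
    have e1 := hS.p5 _ (mem_of_run hr hi)
    have e2 : i * d ≤ (k - 1) * d := Nat.mul_le_mul_right _ (by omega)
    rw [(log_block (k := j) (by omega) (by omega)).1] at e1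
    exact e1
  have hdvd : ∀ p : ℕ, p.Prime → p ≤ k → p < z j → p ∣ d := fun p hp hpk hpz =>
    dvd_of_run (S := S) (fun i hi => mem_of_run hr hi) hrough hp hpk hpz
  rcases le_or_gt (z j) k with hzk | hzk
  · have e1 := h1 n k d hzk hk2 hd hn1 hn2 hr
    have hPQ : PQ (z j) ∣ d := by
      unfold PQ
      refine Finset.prod_primes_dvd d (fun p hp => (mem_filter.1 hp).2.prime) (fun p hp => ?_)
      rw [mem_filter, mem_range] at hp
      exact hdvd p hp.2 (by omega) hp.1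
    have hPd : (PQ (z j) : ℝ) ≤ d := by exact_mod_cast Nat.le_of_dvd (by omega) hPQ
    have hP0 : (0 : ℝ) < PQ (z j) := by exact_mod_cast PQ_pos _
    unfold cost at e1
    rw [← hX] at e1
    have hden : 0 < Real.log X + PQ (z j) / X := by
      have : 0 < (PQ (z j) : ℝ) / X := div_pos hP0 hX0
      linarith
    have e2 : ((k : ℝ) - 1) * (Real.log X + PQ (z j) / X) ≤ (1 + ε / 4) * X := by
      have e3 : ((k : ℝ) - 1) * (PQ (z j) / X) ≤ ((k : ℝ) - 1) * d / X := by
        rw [mul_div_assoc]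
        exact mul_le_mul_of_nonneg_left (div_le_div_of_nonneg_right hPd hX0.le) (by linarith)
      have e4 : ((k : ℝ) - 1) * Real.log X ≤ k * Real.log j := by
        refine mul_le_mul (by linarith) g2 (by linarith) (by linarith)
      rw [mul_add]
      linarith
    rw [← le_div_iff₀ hden, mul_div_assoc] at e2
    have e3 : (1 + ε / 4) * (X / (Real.log X + PQ (z j) / X)) ≤ (1 + ε / 4) * M :=
      mul_le_mul_of_nonneg_left hM1 (by linarith)
    nlinarith
  · have hprim : primorial k ∣ d := by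
      unfold primorial
      refine Finset.prod_primes_dvd d (fun p hp => (mem_filter.1 hp).2.prime) (fun p hp => ?_)
      rw [mem_filter, mem_range] at hp
      exact hdvd p hp.2 (by omega) (by omega)
    have e1 : (primorial k : ℝ) ≤ 2 * (j : ℝ) ^ (2 + ε / 4) := by
      have : (primorial k : ℝ) ≤ d := by exact_mod_cast Nat.le_of_dvd (by omega) hprim
      exact this.trans (h2 n k d hk2 hn1 hn2 hr)
    have hkK : K ≤ k := by
      have e1 : (K : ℝ) < k := by
        have : (K : ℝ) ≤ Real.log X := by linarith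
        nlinarith
      exact_mod_cast e1.le
    have e2 := hK k hkK
    rw [theta_nat] at e2
    have e3 : Real.log (primorial k) ≤ Real.log 2 + (2 + ε / 4) * Real.log j := by
      have e4 := Real.log_le_log (by exact_mod_cast primorial_pos k) e1
      rwa [Real.log_mul (by norm_num) (by positivity), Real.log_rpow hj0] at e4
    have hl1 : Real.log 2 < 0.7 := by linarith [Real.log_two_lt_d9]
    have e4 : (1 - ε / 8) * ((1 + ε) * (2 * Real.log X)) ≤ (1 - ε / 8) * k := by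
      refine mul_le_mul_of_nonneg_left ?_ (by linarith)
      have : (1 + ε) * (2 * Real.log X) ≤ (1 + ε) * M := mul_le_mul_of_nonneg_left hM2 (by linarith)
      linarith
    have e5 : 2 + 3 / 2 * ε ≤ (1 - ε / 8) * ((1 + ε) * 2) := by nlinarith
    have e6 : (2 + 3 / 2 * ε) * Real.log X ≤ (1 - ε / 8) * ((1 + ε) * (2 * Real.log X)) := by
      have : (2 + 3 / 2 * ε) * Real.log X ≤ (1 - ε / 8) * ((1 + ε) * 2) * Real.log X :=
        mul_le_mul_of_nonneg_right e5 (by linarith)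
      linarith
    have e7 : (2 + ε / 4) * Real.log j ≤ (2 + ε / 4) * (Real.log X + 1) := mul_le_mul_of_nonneg_left (by linarith) (by linarith)
    nlinarith

/-- **The longest run in a block.** -/
theorem block {z : ℕ → ℕ} {S : Set ℕ} (hS : Good z S) : Tendsto (fun j : ℕ => (Lmax S j : ℝ) / MM z j) atTop (𝓝 1) := by
  rw [Metric.tendsto_nhds]
  intro ε hε
  obtain ⟨η, hη⟩ : ∃ η, η = min (ε / 2) (1 / 2) := ⟨_, rfl⟩
  have hη0 : 0 < η := by rw [hη]; exact lt_min (by linarith) (by norm_num)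
  have hη1 : η < 1 := by rw [hη]; exact lt_of_le_of_lt (min_le_right _ _) (by norm_num)
  have hη2 : η < ε := by rw [hη]; exact lt_of_le_of_lt (min_le_left _ _) (by linarith)
  filter_upwards [low_all hS hη0 hη1, up_all hS hη0 hη1, log_large 2, eventually_ge_atTop 1] with j h1 h2 h3 hj
  have h4 := (lX hj).1
  have hM0 : 0 < MM z j := by
    unfold MM
    exact lt_of_lt_of_le (by linarith) (le_max_right _ _)
  have h5 := Lmax_le (by positivity) h2
  rw [Real.dist_eq, abs_lt]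
  constructor
  · have : 1 - η ≤ (Lmax S j : ℝ) / MM z j := by rwa [le_div_iff₀ hM0]
    linarith
  · have : (Lmax S j : ℝ) / MM z j ≤ 1 + η := by rwa [div_le_iff₀ hM0]
    linarith

end Pool.Agent.H38.LR
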