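import Pool.Agent.H38.LR.F

/-!
# Runs in the sieved models: the almost sure properties; runs across dyadic points
-/

set_option autoImplicit false

namespace Pool.Agent.H38.LR

open Finset MeasureTheory Filter Pool.Agent.Q120.MG Pool.Agent.Q120.GM Pool.Agent.Q120.CL
open scoped Topology

variable {Ω : Type*} [MeasurableSpace Ω] {μ : Measure Ω} [IsProbabilityMeasure μ] {A : Ω → Set ℕ} {z : ℕ → ℕ}

theorem small_one (m : ℕ) : 0 < 1 / ((m : ℝ) + 2) ∧ 1 / ((m : ℝ) + 2) < 1 := by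
  have : (0 : ℝ) ≤ m := Nat.cast_nonneg m
  constructor
  · positivity
  · rw [div_lt_one (by positivity)]
    linarith

theorem exists_small {ε : ℝ} (hε : 0 < ε) : ∃ m : ℕ, 1 / ((m : ℝ) + 2) ≤ ε := by
  obtain ⟨m, hm⟩ := exists_nat_one_div_lt hε
  refine ⟨m, le_trans ?_ hm.le⟩
  have : (0 : ℝ) ≤ m := Nat.cast_nonneg m
  exact one_div_le_one_div_of_le (by positivity) (by linarith)

theorem good_ae (low : LOW) (hA : IsModel μ (pr z) A) (hz : ∀ᶠ j : ℕ in atTop, 8 * z j ≤ j) :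
    ∀ᵐ ω ∂μ, Good z (A ω) := by
  have hz1 : ∀ᶠ j : ℕ in atTop, z j ≤ j := by
    filter_upwards [hz] with j hj
    omega
  filter_upwards [ae_all_iff.2 fun m : ℕ => occurs hA hz1 (small_one m).1 (small_one m).2,
    ae_all_iff.2 fun m : ℕ => occurs' hA hz (small_one m).1 (small_one m).2,
    ae_all_iff.2 fun m : ℕ => none low hA hz1 (small_one m).1 (small_one m).2,
    ae_all_iff.2 fun m : ℕ => gaps0 low hA hz1 (T := 2 + 1 / ((m : ℝ) + 2)) (by linarith [(small_one m).1]),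
    all_rough hA] with ω h1 h2 h3 h4 h5
  refine ⟨fun ε hε _ => ?_, fun ε hε _ => ?_, fun ε hε _ => ?_, fun T hT => ?_, h5⟩
  · obtain ⟨m, hm⟩ := exists_small hε
    filter_upwards [h1 m] with j hj k d hk hd hP hc
    refine hj k d hk hd hP (hc.trans ?_)
    have hl := hl2
    exact mul_le_mul_of_nonneg_right (by linarith) (by positivity)
  · obtain ⟨m, hm⟩ := exists_small hε
    filter_upwards [h2 m, eventually_ge_atTop 1] with j hj hj1 k d hk hd hP hc1 hc2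
    have hj1' : (1 : ℝ) ≤ j := by exact_mod_cast hj1
    exact hj k d hk hd hP (hc1.trans (Real.rpow_le_rpow_of_exponent_le hj1' (by linarith)))
      (hc2.trans (Real.rpow_le_rpow_of_exponent_le hj1' (by linarith)))
  · obtain ⟨m, hm⟩ := exists_small hε
    filter_upwards [h3 m] with j hj n k d hk hk2 hd hn1 hn2 hr
    refine lt_of_lt_of_le (hj n k d hk hk2 hd hn1 hn2 hr) ?_
    have hl := hl2
    exact mul_le_mul_of_nonneg_right (by linarith) (by positivity)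
  · obtain ⟨m, hm⟩ := exists_small (show 0 < T - 2 by linarith)
    filter_upwards [gaps (by linarith [(small_one m).1]) (h4 m), eventually_ge_atTop 1] with j hj hj1 n k d hk hn1 hn2 hr
    have hj1' : (1 : ℝ) ≤ j := by exact_mod_cast hj1
    have e1 : (j : ℝ) ^ (2 + 1 / ((m : ℝ) + 2)) ≤ (j : ℝ) ^ T := Real.rpow_le_rpow_of_exponent_le hj1' (by linarith)
    linarith [hj n k d hk hn1 hn2 hr]

/-- the bound for the gaps -/
noncomputable def HH (j : ℕ) : ℕ := ⌈(j : ℝ) ^ (5 / 2 : ℝ)⌉₊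

theorem HH_mono {i j : ℕ} (h : i ≤ j) : HH i ≤ HH j := by
  unfold HH
  have h1 : (i : ℝ) ≤ j := by exact_mod_cast h
  exact Nat.ceil_mono (Real.rpow_le_rpow (Nat.cast_nonneg _) h1 (by norm_num))

theorem HH_le {j : ℕ} (hj : 1 ≤ j) : (HH j : ℝ) ≤ 2 * (j : ℝ) ^ (5 / 2 : ℝ) := by
  unfold HH
  have hk1 : (1 : ℝ) ≤ j := by exact_mod_cast hj
  have e1 : 1 ≤ (j : ℝ) ^ (5 / 2 : ℝ) := Real.one_le_rpow hk1 (by linarith)
  have e2 := Nat.ceil_lt_add_one (show 0 ≤ (j : ℝ) ^ (5 / 2 : ℝ) by positivity)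
  linarith

/-- the candidates for the runs with 8 elements across `2 ^ i` -/
noncomputable def JJ (i : ℕ) : Finset (ℕ × ℕ) :=
  (range (2 ^ i) ×ˢ Icc 1 (3 * HH i)).filter (fun x => 2 ^ i ≤ x.1 + 7 * x.2)

theorem card_JJ (i : ℕ) : (JJ i).card ≤ 7 * (3 * HH i) * (3 * HH i) := by
  have h1 : JJ i ⊆ Ico (2 ^ i - 7 * (3 * HH i)) (2 ^ i) ×ˢ Icc 1 (3 * HH i) := by
    intro x hx
    unfold JJ at hx
    rw [mem_filter, mem_product, mem_range, mem_Icc] at hx
    rw [mem_product, mem_Ico, mem_Icc]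
    omega
  refine (card_le_card h1).trans ?_
  rw [card_product, Nat.card_Ico, Nat.card_Icc]
  refine Nat.mul_le_mul ?_ ?_ <;> omega

/-- the dyadic points are small -/
theorem HH_small : ∀ᶠ i : ℕ in atTop, 21 * HH i ≤ 2 ^ (i - 1) := by
  have h1 := (isLittleO_pow_exp_pos_mul_atTop 3 (show (0 : ℝ) < 1 / 2 by norm_num)).bound (show (0 : ℝ) < 1 / 84 by norm_num)
  filter_upwards [tendsto_natCast_atTop_atTop.eventually h1, eventually_ge_atTop 1] with i h2 hi
  have hi1 : (1 : ℝ) ≤ i := by exact_mod_cast hi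
  rw [Real.norm_of_nonneg (by positivity), Real.norm_of_nonneg (Real.exp_pos _).le] at h2
  have h3 : (i : ℝ) ^ (5 / 2 : ℝ) ≤ (i : ℝ) ^ 3 := by
    rw [← Real.rpow_natCast]
    exact Real.rpow_le_rpow_of_exponent_le hi1 (by norm_num)
  have h4 := HH_le hi
  have h5 : Real.exp (1 / 2 * (i : ℝ)) ≤ 2 * 2 ^ (i - 1) := by
    have e1 : (2 : ℝ) * 2 ^ (i - 1) = 2 ^ i := by
      rw [← pow_succ']
      congr 1
      omega
    have e2 : (2 : ℝ) ^ i = Real.exp (i * Real.log 2) := by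
      rw [mul_comm, Real.exp_mul, Real.exp_log (by norm_num), Real.rpow_natCast]
    rw [e1, e2, Real.exp_le_exp]
    have := Real.log_two_gt_d9
    nlinarith
  have h6 : (21 : ℝ) * HH i ≤ 2 ^ (i - 1) := by linarith
  exact_mod_cast h6

theorem num_bound {D : ℝ} (hD : 0 < D) : ∀ᶠ i : ℕ in atTop,
    (7 * (3 * (HH i : ℝ)) * (3 * HH i)) * (2 * D * Real.log i / i) ^ 8 ≤ 1 / (i : ℝ) ^ 2 := by
  have h1 := (isLittleO_log_rpow_atTop (show (0 : ℝ) < 1 / 8 by norm_num)).bound (show (0 : ℝ) < 1 / (8 * D) by positivity)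
  filter_upwards [tendsto_natCast_atTop_atTop.eventually h1, log_large 1, eventually_ge_atTop 1] with i h2 h3 hi
  have hi1 : (1 : ℝ) ≤ i := by exact_mod_cast hi
  have hi0 : (0 : ℝ) < i := by linarith
  rw [Real.norm_of_nonneg (by linarith), Real.norm_of_nonneg (by positivity)] at h2
  have h4 := HH_le hi
  have h5 : (HH i : ℝ) ^ 2 ≤ 4 * (i : ℝ) ^ 5 := by
    have e1 : ((i : ℝ) ^ (5 / 2 : ℝ)) ^ 2 = (i : ℝ) ^ 5 := by
      rw [← Real.rpow_natCast, ← Real.rpow_mul hi0.le, ← Real.rpow_natCast]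
      norm_num
    have e2 : (HH i : ℝ) ^ 2 ≤ (2 * (i : ℝ) ^ (5 / 2 : ℝ)) ^ 2 := pow_le_pow_left₀ (Nat.cast_nonneg _) h4 2
    rw [mul_pow, e1] at e2
    linarith
  have h6 : (2 * D * Real.log i) ^ 8 ≤ 1 / 65536 * i := by
    have e1 : 2 * D * Real.log i ≤ 1 / 4 * (i : ℝ) ^ (1 / 8 : ℝ) := by
      calc 2 * D * Real.log i ≤ 2 * D * (1 / (8 * D) * (i : ℝ) ^ (1 / 8 : ℝ)) := mul_le_mul_of_nonneg_left h2 (by positivity)
        _ = 1 / 4 * (i : ℝ) ^ (1 / 8 : ℝ) := by field_simp; norm_num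
    have e2 := pow_le_pow_left₀ (by positivity) e1 8
    have e3 : ((i : ℝ) ^ (1 / 8 : ℝ)) ^ 8 = i := by
      rw [← Real.rpow_natCast ((i : ℝ) ^ (1 / 8 : ℝ)), ← Real.rpow_mul hi0.le]
      norm_num
    rw [mul_pow (1 / 4 : ℝ), e3] at e2
    calc _ ≤ _ := e2
      _ = 1 / 65536 * (i : ℝ) := by norm_num
  rw [div_pow]
  have e1 : (7 * (3 * (HH i : ℝ)) * (3 * HH i)) * ((2 * D * Real.log i) ^ 8 / (i : ℝ) ^ 8) =
      63 * (HH i : ℝ) ^ 2 * (2 * D * Real.log i) ^ 8 / (i : ℝ) ^ 8 := by ring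
  rw [e1, div_le_div_iff₀ (by positivity) (by positivity)]
  have e2 : 63 * (HH i : ℝ) ^ 2 * (2 * D * Real.log i) ^ 8 ≤ 63 * (4 * (i : ℝ) ^ 5) * (1 / 65536 * i) := by
    refine mul_le_mul (by linarith) h6 (by positivity) (by positivity)
  calc 63 * (HH i : ℝ) ^ 2 * (2 * D * Real.log i) ^ 8 * (i : ℝ) ^ 2 ≤ 63 * (4 * (i : ℝ) ^ 5) * (1 / 65536 * i) * (i : ℝ) ^ 2 :=
        mul_le_mul_of_nonneg_right e2 (by positivity)
    _ = 252 / 65536 * (i : ℝ) ^ 8 := by ring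
    _ ≤ 1 * (i : ℝ) ^ 8 := mul_le_mul_of_nonneg_right (by norm_num) (by positivity)

theorem no_pattern (hA : IsModel μ (pr z) A) (hz : ∀ᶠ j : ℕ in atTop, z j ≤ j) :
    ∀ᵐ ω ∂μ, ∀ᶠ i : ℕ in atTop, ∀ x ∈ JJ i, ¬ ∀ t < 8, x.1 + t * x.2 ∈ A ω := by
  classical
  obtain ⟨B, hB⟩ : ∃ B : ℕ → Set Ω, B = fun i => ⋃ x ∈ JJ i, all A (pat x.1 8 x.2) := ⟨_, rfl⟩
  obtain ⟨D, hD, hβD⟩ := beta_le hz
  have hlogi : ∀ᶠ i : ℕ in atTop, Real.log ((i - 1 : ℕ) : ℝ) / ((i - 1 : ℕ) : ℝ) ≤ 2 * (Real.log i / i) := by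
    filter_upwards [eventually_ge_atTop 2] with i hi
    have hi2 : (2 : ℝ) ≤ i := by exact_mod_cast hi
    have e0 : ((i - 1 : ℕ) : ℝ) = (i : ℝ) - 1 := by
      rw [Nat.cast_sub (by omega)]
      simp
    rw [e0, mul_div_assoc', div_le_div_iff₀ (by linarith) (by linarith)]
    have e1 : Real.log ((i : ℝ) - 1) ≤ Real.log i := Real.log_le_log (by linarith) (by linarith)
    have e2 : 0 ≤ Real.log (i : ℝ) := Real.log_nonneg (by linarith)
    have e3 : Real.log ((i : ℝ) - 1) * i ≤ Real.log i * i := mul_le_mul_of_nonneg_right e1 (by linarith)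
    have e4 : Real.log i * i ≤ 2 * Real.log i * ((i : ℝ) - 1) := by nlinarith
    linarith
  have hb : ∀ᶠ i : ℕ in atTop, μ.real (B i) ≤ 1 / (i : ℝ) ^ 2 := by
    filter_upwards [hβD, (tendsto_sub_atTop_nat 1).eventually hβD, HH_small, num_bound hD, hlogi, eventually_ge_atTop 2] with
      i h1 h2 h3 h4 h5 hi
    rw [hB]
    have hi2 : (2 : ℝ) ≤ i := by exact_mod_cast hi
    have e0 : 0 ≤ Real.log (i : ℝ) := Real.log_nonneg (by linarith)
    have hq0 : 0 ≤ 2 * D * Real.log i / i := by positivity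
    have hone : ∀ x ∈ JJ i, μ.real (all A (pat x.1 8 x.2)) ≤ (2 * D * Real.log i / i) ^ 8 := by
      rintro ⟨n, d⟩ hx
      unfold JJ at hx
      rw [mem_filter, mem_product, mem_range, mem_Icc] at hx
      simp only at hx ⊢
      obtain ⟨⟨g1, g2, g3⟩, g4⟩ := hx
      rw [real_all hA]
      have e1 : (2 * D * Real.log i / i) ^ 8 = ∏ _m ∈ pat n 8 d, (2 * D * Real.log i / i) := by
        rw [prod_const, card_pat g2]
      rw [e1]
      refine prod_le_prod (fun m _ => pr_nonneg z m) (fun m hm => ?_)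
      obtain ⟨t, ht, rfl⟩ := mem_pat.1 hm
      have g5 : t * d ≤ 7 * d := Nat.mul_le_mul_right _ (by omega)
      have g6 : 2 ^ i = 2 * 2 ^ (i - 1) := by
        rw [← pow_succ']
        congr 1
        omega
      have g7 : 2 ^ (i - 1 + 1) = 2 ^ i := by
        congr 1
        omega
      have g8 : 2 ^ (i + 1) = 2 * 2 ^ i := by rw [pow_succ']
      rcases Nat.lt_or_ge (n + t * d) (2 ^ i) with h | h
      · have e2 := pr_le (z := z) (k := i - 1) (n := n + t * d) (by omega) (by omega) (by omega)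
        refine e2.trans (h2.trans ?_)
        rw [mul_div_assoc, mul_div_assoc]
        calc D * (Real.log ((i - 1 : ℕ) : ℝ) / ((i - 1 : ℕ) : ℝ)) ≤ D * (2 * (Real.log i / i)) := mul_le_mul_of_nonneg_left h5 hD.le
          _ = 2 * D * (Real.log i / i) := by ring
      · have e2 := pr_le (z := z) (k := i) (n := n + t * d) (by omega) (by omega) (by omega)
        refine e2.trans (h1.trans ?_)
        refine div_le_div_of_nonneg_right ?_ (by linarith)
        have : 0 ≤ D * Real.log i := by positivity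
        linarith
    refine (measureReal_biUnion_finset_le _ _).trans ((sum_le_sum hone).trans ?_)
    rw [sum_const, nsmul_eq_mul]
    refine le_trans (mul_le_mul_of_nonneg_right ?_ (by positivity)) h4
    exact_mod_cast card_JJ i
  filter_upwards [bc (Real.summable_one_div_nat_pow.2 one_lt_two) hb] with ω hω
  filter_upwards [hω] with i hi x hx hall
  apply hi
  rw [hB]
  refine Set.mem_biUnion hx (fun m hm => ?_)
  obtain ⟨t, ht, rfl⟩ := mem_pat.1 hm
  exact hall t ht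

/-- **Long runs across dyadic points do not occur.** -/
theorem no_straddle (low : LOW) (hA : IsModel μ (pr z) A) (hz : ∀ᶠ j : ℕ in atTop, z j ≤ j) :
    ∀ᵐ ω ∂μ, ∀ᶠ i : ℕ in atTop, ∀ n k d : ℕ, 8 ≤ k → 1 ≤ d → n < 2 ^ i → 2 ^ i ≤ n + (k - 1) * d →
      n + (k - 1) * d < 2 ^ (i + 1) → ¬ Run (A ω) n k d := by
  filter_upwards [no_pattern hA hz, gaps0 low hA hz (T := 5 / 2) (by norm_num)] with ω hω hgap
  filter_upwards [hω, hgap, (tendsto_sub_atTop_nat 1).eventually hgap, HH_small, eventually_ge_atTop 2] with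
    i h1 h2 h3 h4 hi n k d hk hd hn1 hn2 hn3 hr
  have g6 : 2 ^ i = 2 * 2 ^ (i - 1) := by
    rw [← pow_succ']
    congr 1
    omega
  have g7 : 2 ^ (i - 1 + 1) = 2 ^ i := by
    congr 1
    omega
  have g8 : 2 ^ (i + 1) = 2 * 2 ^ i := by rw [pow_succ']
  have hH : HH (i - 1) ≤ HH i := HH_mono (by omega)
  have h21 : ∀ m : ℕ, 2 ^ i ≤ m → m + HH i < 2 ^ (i + 1) → ∃ a ∈ A ω, m < a ∧ a ≤ m + HH i := h2
  have h31 : ∀ m : ℕ, 2 ^ (i - 1) ≤ m → m + HH (i - 1) < 2 ^ (i - 1 + 1) → ∃ a ∈ A ω, m < a ∧ a ≤ m + HH (i - 1) := h3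
  -- the last element below the dyadic point
  have hex : ∃ t, 2 ^ i ≤ n + t * d := ⟨k - 1, hn2⟩
  obtain ⟨t1, ht1⟩ : ∃ t1, t1 = Nat.find hex := ⟨_, rfl⟩
  have e1 : 2 ^ i ≤ n + t1 * d := by rw [ht1]; exact Nat.find_spec hex
  have e2 : t1 ≤ k - 1 := by rw [ht1]; exact Nat.find_min' hex hn2
  have e3 : 1 ≤ t1 := by
    by_contra hcon
    have : t1 = 0 := by omega
    rw [this] at e1
    omega
  obtain ⟨t0, rfl⟩ : ∃ t0, t1 = t0 + 1 := ⟨t1 - 1, by omega⟩
  have e4 : n + t0 * d < 2 ^ i := by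
    have := Nat.find_min hex (m := t0) (by omega)
    omega
  have e5 : (t0 + 1) * d = t0 * d + d := by ring
  have e6 : (t0 + 1) * d ≤ (k - 1) * d := Nat.mul_le_mul_right _ e2
  -- no elements in the gap
  have hfree : ∀ a ∈ A ω, n + t0 * d < a → a < n + (t0 + 1) * d → False := by
    intro a ha h5 h6
    obtain ⟨s, hs, rfl⟩ := (hr a (by omega) (by omega)).1 ha
    have h7 : t0 * d < s * d := by omega
    have h8 : s * d < (t0 + 1) * d := by omega
    have h9 := lt_of_mul_lt_mul_right h7 (Nat.zero_le d)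
    have h10 := lt_of_mul_lt_mul_right h8 (Nat.zero_le d)
    omega
  have hd1 : n + (t0 + 1) * d ≤ 2 ^ i + HH i := by
    by_contra hcon
    obtain ⟨a, ha, ha1, ha2⟩ := h21 (2 ^ i) le_rfl (by omega)
    exact hfree a ha (by omega) (by omega)
  have hd2 : 2 ^ i ≤ n + t0 * d + HH (i - 1) + 1 := by
    by_contra hcon
    obtain ⟨a, ha, ha1, ha2⟩ := h31 (2 ^ i - 1 - HH (i - 1)) (by omega) (by omega)
    exact hfree a ha (by omega) (by omega)
  have hH1 : 1 ≤ HH i := by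
    unfold HH
    rw [Nat.one_le_ceil_iff]
    have : (0 : ℝ) < i := by exact_mod_cast (show 0 < i by omega)
    positivity
  have hd3 : d ≤ 3 * HH i := by omega
  obtain ⟨s, hs⟩ : ∃ s, s = min t0 (k - 8) := ⟨_, rfl⟩
  have f1 : s ≤ t0 := by rw [hs]; exact min_le_left _ _
  have f2 : s ≤ k - 8 := by rw [hs]; exact min_le_right _ _
  have f3 : t0 + 1 ≤ s + 7 := by
    rw [hs]
    rcases le_total t0 (k - 8) with h | h
    · rw [min_eq_left h]
      omega
    · rw [min_eq_right h]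
      omega
  have f4 : s * d ≤ t0 * d := Nat.mul_le_mul_right _ f1
  have f5 : (t0 + 1) * d ≤ (s + 7) * d := Nat.mul_le_mul_right _ f3
  have f6 : (s + 7) * d = s * d + 7 * d := by ring
  refine h1 (n + s * d, d) ?_ (fun t ht => ?_)
  · unfold JJ
    rw [mem_filter, mem_product, mem_range, mem_Icc]
    refine ⟨⟨?_, hd, hd3⟩, ?_⟩
    · show n + s * d < 2 ^ i
      omega
    · show 2 ^ i ≤ n + s * d + 7 * d
      omega
  · show n + s * d + t * d ∈ A ω
    have h5 : n + s * d + t * d = n + (s + t) * d := by ring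
    rw [h5]
    exact mem_of_run hr (by omega)

end Pool.Agent.H38.LR
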