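import Pool.Agent.H38.LR.G

/-!
# Runs in the sieved models: the longest run up to `x`
-/

set_option autoImplicit false

namespace Pool.Agent.H38.LR

open Finset MeasureTheory Filter Pool.Agent.Q120.MG Pool.Agent.Q120.GM Pool.Agent.Q120.CL
open scoped Topology

/-- `S` has a run with `k` elements in `[1, x]`. -/
def HasRunTo (S : Set ℕ) (x k : ℕ) : Prop :=
  ∃ n d, 1 ≤ n ∧ 1 ≤ d ∧ n + (k - 1) * d ≤ x ∧ Run S n k d

/-- the length of the longest run in `[1, x]` -/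
noncomputable def Lto (S : Set ℕ) (x : ℕ) : ℕ := sSup {k | HasRunTo S x k}

/-- no long runs across the dyadic points -/
def NS (S : Set ℕ) : Prop := ∀ᶠ i : ℕ in atTop, ∀ n k d : ℕ, 8 ≤ k → 1 ≤ d → n < 2 ^ i → 2 ^ i ≤ n + (k - 1) * d →
      n + (k - 1) * d < 2 ^ (i + 1) → ¬ Run S n k d

theorem bdd_runTo (S : Set ℕ) (x : ℕ) : BddAbove {k | HasRunTo S x k} := by
  refine ⟨x, ?_⟩
  rintro k ⟨n, d, hn, hd, h2, _⟩
  have h3 : k - 1 ≤ (k - 1) * d := Nat.le_mul_of_pos_right _ hd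
  omega

theorem le_Lto {S : Set ℕ} {x k : ℕ} (h : HasRunTo S x k) : k ≤ Lto S x := le_csSup (bdd_runTo S x) h

theorem Lto_le {S : Set ℕ} {x : ℕ} {y : ℝ} (hy : 0 ≤ y) (h : ∀ k, HasRunTo S x k → (k : ℝ) ≤ y) : (Lto S x : ℝ) ≤ y := by
  rcases Set.eq_empty_or_nonempty {k | HasRunTo S x k} with h1 | h1
  · unfold Lto
    rw [h1]
    simpa using hy
  · exact h _ (Nat.sSup_mem h1 (bdd_runTo S x))

theorem log2_top : Tendsto (Nat.log 2) atTop atTop := by
  refine tendsto_atTop.2 fun b => ?_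
  filter_upwards [eventually_ge_atTop (2 ^ b)] with x hx
  exact (Nat.le_log_iff_pow_le one_lt_two (by have := Nat.one_le_two_pow (n := b); omega)).2 hx

theorem lower_to {z : ℕ → ℕ} {S : Set ℕ} (hS : Good z S) {ε : ℝ} (hε : 0 < ε) (hε1 : ε < 1) :
    ∀ᶠ x : ℕ in atTop, (1 - ε) * MM z (Nat.log 2 x - 1) ≤ Lto S x := by
  have h1 : Tendsto (fun x => Nat.log 2 x - 1) atTop atTop := (tendsto_sub_atTop_nat 1).comp log2_top
  filter_upwards [h1.eventually (low_all hS hε hε1), eventually_ge_atTop 2] with x hx hx2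
  refine hx.trans ?_
  have h2 : Lmax S (Nat.log 2 x - 1) ≤ Lto S x := by
    have h3 : {k | HasRun S (Nat.log 2 x - 1) k} ⊆ {k | HasRunTo S x k} := by
      rintro k ⟨n, d, hd, hn1, hn2, hr⟩
      have h4 : 1 ≤ 2 ^ (Nat.log 2 x - 1) := Nat.one_le_two_pow
      have h5 : 2 ^ (Nat.log 2 x - 1 + 1) ≤ x := by
        refine le_trans (Nat.pow_le_pow_right (by norm_num) ?_) (Nat.pow_log_le_self 2 (x := x) (by omega))
        have : 1 ≤ Nat.log 2 x := (Nat.le_log_iff_pow_le one_lt_two (by omega)).2 (by simpa using hx2)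
        omega
      exact ⟨n, d, by omega, hd, by omega, hr⟩
    rcases Set.eq_empty_or_nonempty {k | HasRun S (Nat.log 2 x - 1) k} with h6 | h6
    · unfold Lmax
      rw [h6]
      simp
    · exact csSup_le_csSup (bdd_runTo S x) h6 h3
  exact_mod_cast h2

theorem upper_to {z : ℕ → ℕ} {S : Set ℕ} (hS : Good z S) (hN : NS S) {G : ℕ → ℝ} (hG : Tendsto G atTop atTop)
    (hmono : ∀ᶠ i : ℕ in atTop, ∀ J, i ≤ J → G i ≤ G J) (hM : ∀ᶠ i : ℕ in atTop, MM z i ≤ G i) {ε : ℝ} (hε : 0 < ε) (hε1 : ε < 1) :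
    ∀ᶠ x : ℕ in atTop, (Lto S x : ℝ) ≤ (1 + ε) * G (Nat.log 2 x) := by
  obtain ⟨i0, hi0⟩ := eventually_atTop.1 ((up_all hS hε hε1).and (hN.and (hmono.and hM)))
  filter_upwards [log2_top.eventually (hG.eventually_ge_atTop (2 ^ (i0 + 1) + 8)), eventually_ge_atTop 1] with x hx hx1
  have hG0 : 8 + 2 ^ (i0 + 1) ≤ (1 + ε) * G (Nat.log 2 x) := by
    have : (0 : ℝ) < 2 ^ (i0 + 1) := by positivity
    nlinarith
  have h2p : (0 : ℝ) < 2 ^ (i0 + 1) := by positivity
  refine Lto_le (by linarith) ?_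
  rintro k ⟨n, d, hn, hd, hnx, hr⟩
  obtain ⟨y, hy⟩ : ∃ y, y = n + (k - 1) * d := ⟨_, rfl⟩
  have hy1 : 1 ≤ y := by omega
  have hky : k ≤ y := by
    have h3 : k - 1 ≤ (k - 1) * d := Nat.le_mul_of_pos_right _ hd
    omega
  obtain ⟨i, hi⟩ : ∃ i, i = Nat.log 2 y := ⟨_, rfl⟩
  have e1 : 2 ^ i ≤ y := by rw [hi]; exact Nat.pow_log_le_self 2 (by omega)
  have e2 : y < 2 ^ (i + 1) := by rw [hi]; exact Nat.lt_pow_succ_log_self (by norm_num) y
  have e3 : i ≤ Nat.log 2 x := by rw [hi]; exact Nat.log_mono_right (by omega)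
  rcases Nat.lt_or_ge i i0 with hlt | hge
  · have h4 : k ≤ 2 ^ (i0 + 1) := by
      have : 2 ^ (i + 1) ≤ 2 ^ (i0 + 1) := Nat.pow_le_pow_right (by norm_num) (by omega)
      omega
    have h5 : (k : ℝ) ≤ 2 ^ (i0 + 1) := by exact_mod_cast h4
    linarith
  · obtain ⟨g1, g2, g3, g4⟩ := hi0 i hge
    rcases Nat.lt_or_ge n (2 ^ i) with h | h
    · rcases Nat.lt_or_ge k 8 with h8 | h8
      · have : (k : ℝ) ≤ 8 := by exact_mod_cast h8.le
        linarith
      · exact absurd hr (g2 n k d h8 hd h (by omega) (by omega))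
    · have h5 := g1 k ⟨n, d, hd, h, by omega, hr⟩
      refine h5.trans ?_
      exact mul_le_mul_of_nonneg_left (g4.trans (g3 _ e3)) (by linarith)

/-- comparisons of `log x` and `Nat.log 2 x` -/
theorem log_cmp {x : ℕ} (hx : 1 ≤ x) : (Nat.log 2 x : ℝ) * Real.log 2 ≤ Real.log x ∧
    Real.log x ≤ ((Nat.log 2 x : ℝ) + 1) * Real.log 2 := by
  have h1 : 2 ^ Nat.log 2 x ≤ x := Nat.pow_log_le_self 2 (by omega)
  have h2 : x < 2 ^ (Nat.log 2 x + 1) := Nat.lt_pow_succ_log_self (by norm_num) x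
  exact ⟨(log_block h1 h2).2.1, (log_block h1 h2).2.2⟩

theorem ratio_one {f g : ℕ → ℝ} (hg : ∀ᶠ x in atTop, 0 < g x) (h1 : ∀ ε : ℝ, 0 < ε → ε < 1 → ∀ᶠ x in atTop, (1 - ε) * g x ≤ f x)
    (h2 : ∀ ε : ℝ, 0 < ε → ε < 1 → ∀ᶠ x in atTop, f x ≤ (1 + ε) * g x) : Tendsto (fun x => f x / g x) atTop (𝓝 1) := by
  rw [Metric.tendsto_nhds]
  intro ε hε
  obtain ⟨η, hη⟩ : ∃ η, η = min (ε / 2) (1 / 2) := ⟨_, rfl⟩
  have hη0 : 0 < η := by rw [hη]; exact lt_min (by linarith) (by norm_num)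
  have hη1 : η < 1 := by rw [hη]; exact lt_of_le_of_lt (min_le_right _ _) (by norm_num)
  have hη2 : η < ε := by rw [hη]; exact lt_of_le_of_lt (min_le_left _ _) (by linarith)
  filter_upwards [hg, h1 η hη0 hη1, h2 η hη0 hη1] with x h3 h4 h5
  rw [Real.dist_eq, abs_lt]
  constructor
  · have : 1 - η ≤ f x / g x := by rwa [le_div_iff₀ h3]
    linarith
  · have : f x / g x ≤ 1 + η := by rwa [div_le_iff₀ h3]
    linarith

/-! ## The size of the modulus -/

theorem ev_const {f : ℕ → ℝ} (h : ∀ᶠ k in atTop, f k ≤ 0) : ∃ C : ℝ, 0 ≤ C ∧ ∀ k, f k ≤ C := by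
  obtain ⟨K, hK⟩ := eventually_atTop.1 h
  refine ⟨∑ k ∈ range K, |f k|, sum_nonneg fun _ _ => abs_nonneg _, fun k => ?_⟩
  rcases Nat.lt_or_ge k K with h1 | h1
  · exact (le_abs_self _).trans (single_le_sum (f := fun k => |f k|) (fun _ _ => abs_nonneg _) (mem_range.2 h1))
  · exact (hK k h1).trans (sum_nonneg fun _ _ => abs_nonneg _)

theorem PQ_dvd_primorial (z : ℕ) : PQ z ≤ primorial z := by
  unfold PQ primorial
  refine prod_le_prod_of_subset_of_one_le' (filter_subset_filter _ (range_subset_range.2 (by omega))) ?_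
  intro p hp _
  exact (mem_filter.1 hp).2.one_le

theorem primorial_le_PQ {z : ℕ} (hz : 1 ≤ z) : primorial z ≤ PQ z * z := by
  unfold PQ primorial
  rw [range_add_one, filter_insert]
  split_ifs with h
  · rw [prod_insert (by simp)]
    exact (mul_comm _ _).le
  · exact Nat.le_mul_of_pos_right _ hz

theorem logPQ_up {δ : ℝ} (hδ : 0 < δ) : ∃ C : ℝ, 0 ≤ C ∧ ∀ z : ℕ, Real.log (PQ z) ≤ (1 + δ) * z + C := by
  obtain ⟨C, hC, h⟩ := ev_const (f := fun z : ℕ => Real.log (PQ z) - (1 + δ) * z) (by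
    filter_upwards [theta_up hδ] with z hz
    rw [theta_nat] at hz
    have h1 : Real.log (PQ z) ≤ Real.log (primorial z) := by
      refine Real.log_le_log (by exact_mod_cast PQ_pos z) ?_
      exact_mod_cast PQ_dvd_primorial z
    linarith)
  exact ⟨C, hC, fun z => by linarith [h z]⟩

theorem logPQ_lo {δ : ℝ} (hδ : 0 < δ) : ∃ C : ℝ, 0 ≤ C ∧ ∀ z : ℕ, (1 - δ) * z - C ≤ Real.log (PQ z) := by
  obtain ⟨C, hC, h⟩ := ev_const (f := fun z : ℕ => (1 - δ) * z - Real.log (PQ z)) (by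
    filter_upwards [theta_lo (show 0 < δ / 2 by linarith), log_ev (show 0 < δ / 2 by linarith), eventually_ge_atTop 1] with z hz h2 hz1
    rw [theta_nat] at hz
    have hz0 : (0 : ℝ) < z := by exact_mod_cast hz1
    have h1 : Real.log (primorial z) ≤ Real.log (PQ z * z) := by
      refine Real.log_le_log (by exact_mod_cast primorial_pos z) ?_
      exact_mod_cast primorial_le_PQ hz1
    have hP : (PQ z : ℝ) ≠ 0 := by exact_mod_cast (PQ_pos z).ne'
    rw [Real.log_mul hP hz0.ne'] at h1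
    nlinarith)
  exact ⟨C, hC, fun z => by linarith [h z]⟩

/-! ## Level at least `(2 + ε) log j` -/

theorem MM_high {z : ℕ → ℕ} {ε : ℝ} (hε : 0 < ε) (h : ∀ᶠ j : ℕ in atTop, (2 + ε) * Real.log j ≤ z j) :
    ∀ᶠ j : ℕ in atTop, MM z j = 2 * Real.log (j * Real.log 2) := by
  obtain ⟨δ, hδ⟩ : ∃ δ : ℝ, δ = min (ε / 8) (1 / 4) := ⟨_, rfl⟩
  have hδ0 : 0 < δ := by rw [hδ]; exact lt_min (by linarith) (by norm_num)
  have hδ1 : δ ≤ ε / 8 := by rw [hδ]; exact min_le_left _ _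
  have hδ2 : δ ≤ 1 / 4 := by rw [hδ]; exact min_le_right _ _
  obtain ⟨C, hC, hC'⟩ := logPQ_lo hδ0
  filter_upwards [h, log_large (4 * C / ε), log_large 2, eventually_ge_atTop 1] with j h1 h2 h3 hj
  have hj0 : (0 : ℝ) < j := by exact_mod_cast hj
  have hl := hl2
  obtain ⟨g1, g2⟩ := lX hj
  obtain ⟨X, hX⟩ : ∃ X, X = (j : ℝ) * Real.log 2 := ⟨_, rfl⟩
  have hX0 : 0 < X := by rw [hX]; positivity
  unfold MM
  rw [← hX] at g1 g2 ⊢
  apply max_eq_right
  have hP : (0 : ℝ) < PQ (z j) := by exact_mod_cast PQ_pos _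
  have hC2 : C ≤ ε / 4 * Real.log j := by
    rw [div_le_iff₀ hε] at h2
    linarith
  have e1 : 2 * Real.log X ≤ Real.log (PQ (z j)) := by
    have e2 := hC' (z j)
    have e3 : (1 - δ) * ((2 + ε) * Real.log j) ≤ (1 - δ) * z j := mul_le_mul_of_nonneg_left h1 (by linarith)
    have e4 : (2 + ε / 2) * Real.log j ≤ (1 - δ) * ((2 + ε) * Real.log j) := by
      have e5 : 2 + ε / 2 ≤ (1 - δ) * (2 + ε) := by nlinarith
      calc (2 + ε / 2) * Real.log j ≤ (1 - δ) * (2 + ε) * Real.log j := mul_le_mul_of_nonneg_right e5 (by linarith)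
        _ = _ := by ring
    nlinarith
  have e2 : X ^ 2 ≤ PQ (z j) := by
    rw [← Real.log_le_log_iff (by positivity) hP, Real.log_pow]
    exact_mod_cast e1
  have e3 : X / (Real.log X + PQ (z j) / X) ≤ 1 := by
    have e4 : X ≤ PQ (z j) / X := by
      rw [le_div_iff₀ hX0]
      nlinarith
    rw [div_le_one (by linarith)]
    linarith
  linarith

theorem high {z : ℕ → ℕ} {S : Set ℕ} (hS : Good z S) (hN : NS S) {ε : ℝ} (hε : 0 < ε)
    (h : ∀ᶠ j : ℕ in atTop, (2 + ε) * Real.log j ≤ z j) :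
    Tendsto (fun x : ℕ => (Lto S x : ℝ) / (2 * Real.log (Real.log x))) atTop (𝓝 1) := by
  have hl := hl2
  have hl1 : Real.log 2 < 0.7 := by linarith [Real.log_two_lt_d9]
  have hll : ∀ C : ℝ, ∀ᶠ x : ℕ in atTop, C ≤ Real.log (Real.log x) := fun C =>
    (Real.tendsto_log_atTop.comp (Real.tendsto_log_atTop.comp tendsto_natCast_atTop_atTop)).eventually_ge_atTop C
  refine ratio_one ?_ (fun η hη hη1 => ?_) (fun η hη hη1 => ?_)
  · filter_upwards [hll 1] with x hx
    linarith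
  · have h1 : Tendsto (fun x => Nat.log 2 x - 1) atTop atTop := (tendsto_sub_atTop_nat 1).comp log2_top
    filter_upwards [lower_to hS (show 0 < η / 2 by linarith) (by linarith), h1.eventually (MM_high hε h), hll (4 / η),
      log2_top.eventually (eventually_ge_atTop 3), eventually_ge_atTop 1] with x g1 g2 g3 g4 hx
    refine le_trans ?_ g1
    rw [g2]
    obtain ⟨g5, g6⟩ := log_cmp hx
    have g4' : (3 : ℝ) ≤ Nat.log 2 x := by exact_mod_cast g4
    have e0 : ((Nat.log 2 x - 1 : ℕ) : ℝ) = (Nat.log 2 x : ℝ) - 1 := by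
      rw [Nat.cast_sub (by omega)]
      simp
    have e1 : Real.log x / 2 ≤ ((Nat.log 2 x - 1 : ℕ) : ℝ) * Real.log 2 := by
      rw [e0]
      nlinarith
    have hlx : 0 < Real.log x := by nlinarith
    have e2 : Real.log (Real.log x) - 1 ≤ Real.log (((Nat.log 2 x - 1 : ℕ) : ℝ) * Real.log 2) := by
      have e3 := Real.log_le_log (by positivity) e1
      rw [Real.log_div hlx.ne' (by norm_num)] at e3
      linarith
    rw [div_le_iff₀ hη] at g3
    nlinarith
  · have hX : Tendsto (fun j : ℕ => (j : ℝ) * Real.log 2) atTop atTop := Tendsto.atTop_mul_const hl tendsto_natCast_atTop_atTop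
    filter_upwards [upper_to hS hN (G := fun j => 2 * Real.log (j * Real.log 2))
      (Tendsto.const_mul_atTop (by norm_num) (Real.tendsto_log_atTop.comp hX)) (by
        filter_upwards [eventually_ge_atTop 1] with i hi J hJ
        have hi0 : (0 : ℝ) < i := by exact_mod_cast hi
        have hJ' : (i : ℝ) ≤ J := by exact_mod_cast hJ
        have := Real.log_le_log (by positivity) (mul_le_mul_of_nonneg_right hJ' hl.le)
        linarith) (by
        filter_upwards [MM_high hε h] with i hi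
        exact hi.le) hη hη1, log2_top.eventually (eventually_ge_atTop 1), eventually_ge_atTop 1] with x g1 g2 hx
    refine g1.trans ?_
    obtain ⟨g5, g6⟩ := log_cmp hx
    have g2' : (1 : ℝ) ≤ Nat.log 2 x := by exact_mod_cast g2
    have := Real.log_le_log (by positivity) g5
    exact mul_le_mul_of_nonneg_left (by linarith) (by linarith)

end Pool.Agent.H38.LR
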