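import Pool.Agent.H38.LR.I

/-!
# Runs in the sieved models: low levels; the exponent
-/

set_option autoImplicit false

namespace Pool.Agent.H38.LR

open Finset MeasureTheory Filter Pool.Agent.Q120.MG Pool.Agent.Q120.GM Pool.Agent.Q120.CL
open scoped Topology

theorem loglog_ev (C : ℝ) : ∀ᶠ x : ℕ in atTop, C ≤ Real.log (Real.log x) :=
  (Real.tendsto_log_atTop.comp (Real.tendsto_log_atTop.comp tendsto_natCast_atTop_atTop)).eventually_ge_atTop C

/-! ## Level at most `(1 - ε) log j` -/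

theorem PQ_low {z : ℕ → ℕ} {ε : ℝ} (hε : 0 < ε) (hε1 : ε < 1) (h : ∀ᶠ j : ℕ in atTop, (z j : ℝ) ≤ (1 - ε) * Real.log j) :
    ∀ᶠ j : ℕ in atTop, (PQ (z j) : ℝ) / (j * Real.log 2) ≤ 1 := by
  obtain ⟨C, hC, hC'⟩ := logPQ_up (show 0 < ε / 2 by linarith)
  filter_upwards [h, log_large (2 * (C + 1) / ε), log_large 1, eventually_ge_atTop 1] with j h1 h2 h3 hj
  have hj0 : (0 : ℝ) < j := by exact_mod_cast hj
  have hl := hl2
  obtain ⟨g1, g2⟩ := lX hj
  have hX0 : 0 < (j : ℝ) * Real.log 2 := by positivity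
  rw [div_le_one hX0]
  have hP : (0 : ℝ) < PQ (z j) := by exact_mod_cast PQ_pos _
  rw [← Real.log_le_log_iff hP hX0]
  rw [div_le_iff₀ hε] at h2
  have e1 := hC' (z j)
  have e2 : (1 + ε / 2) * (z j : ℝ) ≤ (1 + ε / 2) * ((1 - ε) * Real.log j) := mul_le_mul_of_nonneg_left h1 (by linarith)
  have e3 : (1 + ε / 2) * ((1 - ε) * Real.log j) ≤ (1 - ε / 2) * Real.log j := by
    have e4 : (1 + ε / 2) * (1 - ε) ≤ 1 - ε / 2 := by nlinarith
    calc (1 + ε / 2) * ((1 - ε) * Real.log j) = (1 + ε / 2) * (1 - ε) * Real.log j := by ring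
      _ ≤ _ := mul_le_mul_of_nonneg_right e4 (by linarith)
  linarith

theorem MM_low {z : ℕ → ℕ} {ε : ℝ} (hε : 0 < ε) (hε1 : ε < 1) (h : ∀ᶠ j : ℕ in atTop, (z j : ℝ) ≤ (1 - ε) * Real.log j) :
    ∀ᶠ j : ℕ in atTop, MM z j ≤ (j * Real.log 2) / Real.log (j * Real.log 2) ∧
      (j * Real.log 2) / (Real.log (j * Real.log 2) + 1) ≤ MM z j := by
  have hlogpow := (isLittleO_log_rpow_atTop (show (0 : ℝ) < 1 / 2 by norm_num)).bound (show (0 : ℝ) < 1 / 2 by norm_num)
  filter_upwards [PQ_low hε hε1 h, log_large 2, eventually_ge_atTop 1, tendsto_natCast_atTop_atTop.eventually hlogpow] with j h1 h2 hj h3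
  have hj0 : (0 : ℝ) < j := by exact_mod_cast hj
  have hl := hl2
  obtain ⟨g1, g2⟩ := lX hj
  rw [Real.norm_of_nonneg (by linarith), Real.norm_of_nonneg (by positivity)] at h3
  obtain ⟨X, hX⟩ : ∃ X, X = (j : ℝ) * Real.log 2 := ⟨_, rfl⟩
  have hX0 : 0 < X := by rw [hX]; positivity
  have hP : (0 : ℝ) < PQ (z j) := by exact_mod_cast PQ_pos _
  unfold MM
  rw [← hX] at g1 g2 h1 ⊢
  have hlX : 1 ≤ Real.log X := by linarith
  have hPX : 0 < (PQ (z j) : ℝ) / X := div_pos hP hX0
  constructor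
  · refine max_le ?_ ?_
    · exact div_le_div_of_nonneg_left hX0.le (by linarith) (by linarith)
    · rw [le_div_iff₀ (by linarith)]
      have e1 : ((j : ℝ) ^ (1 / 2 : ℝ)) ^ 2 = j := by
        rw [← Real.rpow_natCast, ← Real.rpow_mul hj0.le]
        norm_num
      have e2 : Real.log X ^ 2 ≤ (1 / 2 * (j : ℝ) ^ (1 / 2 : ℝ)) ^ 2 := pow_le_pow_left₀ (by linarith) (by linarith) 2
      rw [mul_pow, e1] at e2
      have e3 : (j : ℝ) * 0.69 ≤ X := by
        rw [hX]
        exact mul_le_mul_of_nonneg_left (by linarith [Real.log_two_gt_d9]) hj0.le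
      nlinarith
  · refine le_trans ?_ (le_max_left _ _)
    exact div_le_div_of_nonneg_left hX0.le (by linarith) (by linarith)

theorem mono_div {s t : ℝ} (hs : 1 ≤ Real.log s) (hs0 : 0 < s) (h : s ≤ t) : s / Real.log s ≤ t / Real.log t := by
  have h1 : Real.exp 1 ≤ s := (Real.le_log_iff_exp_le hs0).1 hs
  have h2 := Real.log_div_self_antitoneOn (Set.mem_Ici.2 h1) (Set.mem_Ici.2 (h1.trans h)) h
  simp only at h2
  have ht0 : 0 < t := lt_of_lt_of_le hs0 h
  have ht : 1 ≤ Real.log t := hs.trans (Real.log_le_log hs0 h)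
  rw [div_le_div_iff₀ ht0 hs0] at h2
  rw [div_le_div_iff₀ (by linarith) (by linarith)]
  linarith

theorem low {z : ℕ → ℕ} {S : Set ℕ} (hS : Good z S) (hN : NS S) {ε : ℝ} (hε : 0 < ε) (hε1 : ε < 1)
    (h : ∀ᶠ j : ℕ in atTop, (z j : ℝ) ≤ (1 - ε) * Real.log j) :
    Tendsto (fun x : ℕ => (Lto S x : ℝ) / (Real.log x / Real.log (Real.log x))) atTop (𝓝 1) := by
  have hl := hl2
  have hl1 : Real.log 2 < 0.7 := by linarith [Real.log_two_lt_d9]
  refine ratio_one ?_ (fun η hη hη1 => ?_) (fun η hη hη1 => ?_)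
  · filter_upwards [loglog_ev 1, log_large 1] with x hx hx1
    positivity
  · have h1 : Tendsto (fun x => Nat.log 2 x - 1) atTop atTop := (tendsto_sub_atTop_nat 1).comp log2_top
    filter_upwards [lower_to hS (show 0 < η / 2 by linarith) (by linarith), h1.eventually (MM_low hε hε1 h), loglog_ev (4 / η),
      log_large (8 / η), log2_top.eventually (eventually_ge_atTop 3), eventually_ge_atTop 1] with x g1 g2 g3 g7 g4 hx
    refine le_trans ?_ g1
    obtain ⟨g5, g6⟩ := log_cmp hx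
    have g4' : (3 : ℝ) ≤ Nat.log 2 x := by exact_mod_cast g4
    have e0 : ((Nat.log 2 x - 1 : ℕ) : ℝ) = (Nat.log 2 x : ℝ) - 1 := by
      rw [Nat.cast_sub (by omega)]
      simp
    have g2' := g2.2
    obtain ⟨Y, hY⟩ : ∃ Y, Y = ((Nat.log 2 x - 1 : ℕ) : ℝ) * Real.log 2 := ⟨_, rfl⟩
    rw [← hY] at g2'
    have hY1 : 1 ≤ Y := by rw [hY, e0]; nlinarith [Real.log_two_gt_d9]
    have hY2 : Real.log x - 2 ≤ Y := by
      rw [hY, e0]
      nlinarith
    have hY3 : Y ≤ Real.log x := by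
      rw [hY, e0]
      nlinarith
    have hlY : Real.log Y ≤ Real.log (Real.log x) := Real.log_le_log (by linarith) hY3
    have hlY0 : 0 ≤ Real.log Y := Real.log_nonneg hY1
    have hηp : 0 < 4 / η := by positivity
    obtain ⟨v, hv⟩ : ∃ v, v = Real.log (Real.log x) := ⟨_, rfl⟩
    obtain ⟨u, hu⟩ : ∃ u, u = Real.log (x : ℝ) := ⟨_, rfl⟩
    rw [← hv] at g3 hlY ⊢
    rw [← hu] at g7 hY2 hY3 ⊢
    have e1 : (u - 2) / (v + 1) ≤ Y / (Real.log Y + 1) := by
      have e2 : (u - 2) / (v + 1) ≤ Y / (v + 1) := div_le_div_of_nonneg_right hY2 (by linarith)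
      exact e2.trans (div_le_div_of_nonneg_left (by linarith) (by linarith) (by linarith))
    have e2 : (1 - η) * (u / v) ≤ (1 - η / 2) * ((u - 2) / (v + 1)) := by
      have hv0 : 0 < v := by linarith
      rw [mul_div_assoc', mul_div_assoc', div_le_div_iff₀ hv0 (by linarith)]
      rw [div_le_iff₀ hη] at g3 g7
      have e3 : 0 < u := by nlinarith
      have e4 : 4 * u ≤ (v * η) * u := mul_le_mul_of_nonneg_right g3 e3.le
      have e5 : 8 * v ≤ (u * η) * v := mul_le_mul_of_nonneg_right g7 hv0.le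
      nlinarith [mul_pos hη hv0, mul_pos hη e3]
    refine e2.trans (mul_le_mul_of_nonneg_left (e1.trans g2') (by linarith))
  · have hX : Tendsto (fun j : ℕ => (j : ℝ) * Real.log 2) atTop atTop := Tendsto.atTop_mul_const hl tendsto_natCast_atTop_atTop
    have hdiv : Tendsto (fun t : ℝ => t / Real.log t) atTop atTop := by
      refine tendsto_atTop_mono' (f₁ := fun t : ℝ => t ^ (1 / 2 : ℝ)) atTop ?_ (tendsto_rpow_atTop (by norm_num))
      have hlogpow := (isLittleO_log_rpow_atTop (show (0 : ℝ) < 1 / 2 by norm_num)).bound (show (0 : ℝ) < 1 by norm_num)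
      filter_upwards [hlogpow, eventually_ge_atTop (3 : ℝ)] with t ht ht3
      have hlt : 0 < Real.log t := Real.log_pos (by linarith)
      rw [Real.norm_of_nonneg hlt.le, Real.norm_of_nonneg (by positivity), one_mul] at ht
      rw [le_div_iff₀ hlt]
      calc t ^ (1 / 2 : ℝ) * Real.log t ≤ t ^ (1 / 2 : ℝ) * t ^ (1 / 2 : ℝ) := mul_le_mul_of_nonneg_left ht (by positivity)
        _ = t := by
          rw [← Real.rpow_add (by linarith)]
          norm_num
    have hmm : ∀ᶠ j : ℕ in atTop, 1 ≤ Real.log (j * Real.log 2) :=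
      (Real.tendsto_log_atTop.comp hX).eventually_ge_atTop 1
    filter_upwards [upper_to hS hN (G := fun j => (j * Real.log 2) / Real.log (j * Real.log 2)) (hdiv.comp hX) (by
        filter_upwards [eventually_ge_atTop 1, hmm] with i hi hi1 J hJ
        have hi0 : (0 : ℝ) < i := by exact_mod_cast hi
        have hJ' : (i : ℝ) ≤ J := by exact_mod_cast hJ
        exact mono_div hi1 (by positivity) (mul_le_mul_of_nonneg_right hJ' hl.le)) (by
        filter_upwards [MM_low hε hε1 h] with i hi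
        exact hi.1) hη hη1, log2_top.eventually (eventually_ge_atTop 1), log2_top.eventually hmm, eventually_ge_atTop 1] with x g1 g2 g3 hx
    refine g1.trans ?_
    obtain ⟨g5, g6⟩ := log_cmp hx
    have g2' : (1 : ℝ) ≤ Nat.log 2 x := by exact_mod_cast g2
    exact mul_le_mul_of_nonneg_left (mono_div g3 (by positivity) g5) (by linarith)

/-! ## The exponent -/

/-- the exponent of the longest run -/
noncomputable def ex (c : ℝ) : ℝ := max 0 (min 1 (2 - c))

theorem ex_nonneg (c : ℝ) : 0 ≤ ex c := le_max_left _ _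
theorem ex_le_one (c : ℝ) : ex c ≤ 1 := max_le zero_le_one (min_le_left _ _)

theorem MM_exp_up {z : ℕ → ℕ} {c : ℝ} (hc0 : 0 ≤ c) (hc : Tendsto (fun j : ℕ => (z j : ℝ) / Real.log j) atTop (𝓝 c)) {η : ℝ} (hη : 0 < η) :
    ∀ᶠ i : ℕ in atTop, MM z i ≤ (i : ℝ) ^ (ex c + η) := by
  obtain ⟨δ, hδ⟩ : ∃ δ : ℝ, δ = min (η / (4 * (1 + c))) (1 / 2) := ⟨_, rfl⟩
  have hδ0 : 0 < δ := by rw [hδ]; exact lt_min (by positivity) (by norm_num)
  have hδ1 : δ * (1 + c) ≤ η / 4 := by
    have : δ ≤ η / (4 * (1 + c)) := by rw [hδ]; exact min_le_left _ _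
    rw [le_div_iff₀ (by positivity)] at this
    linarith
  have hδ2 : δ ≤ 1 / 2 := by rw [hδ]; exact min_le_right _ _
  obtain ⟨C, hC, hC'⟩ := logPQ_lo hδ0
  have hlogpow := (isLittleO_log_rpow_atTop hη).bound (show (0 : ℝ) < 1 / 2 by norm_num)
  filter_upwards [hc.eventually (le_mem_nhds (show c - δ < c by linarith)), log_large 2, log_large (2 * C / η), eventually_ge_atTop 1,
    tendsto_natCast_atTop_atTop.eventually hlogpow] with j h1 h2 h2' hj h3
  have hj0 : (0 : ℝ) < j := by exact_mod_cast hj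
  have hj1 : (1 : ℝ) ≤ j := by exact_mod_cast hj
  have hl := hl2
  have hl1 : Real.log 2 < 0.7 := by linarith [Real.log_two_lt_d9]
  obtain ⟨g1, g2⟩ := lX hj
  rw [Real.norm_of_nonneg (by linarith), Real.norm_of_nonneg (by positivity)] at h3
  obtain ⟨X, hX⟩ : ∃ X, X = (j : ℝ) * Real.log 2 := ⟨_, rfl⟩
  have hX0 : 0 < X := by rw [hX]; positivity
  have hXj : X ≤ j := by rw [hX]; nlinarith
  have hP : (0 : ℝ) < PQ (z j) := by exact_mod_cast PQ_pos _
  have hPX : 0 < (PQ (z j) : ℝ) / X := div_pos hP hX0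
  unfold MM
  rw [← hX] at g1 g2 ⊢
  have hlX : 1 ≤ Real.log X := by linarith
  refine max_le ?_ ?_
  · have hm1 : X / (Real.log X + PQ (z j) / X) ≤ (j : ℝ) ^ (1 : ℝ) := by
      rw [Real.rpow_one]
      refine (div_le_self hX0.le (by linarith)).trans hXj
    have hm2 : X / (Real.log X + PQ (z j) / X) ≤ (j : ℝ) ^ (2 - c + η) := by
      have e1 : X / (Real.log X + PQ (z j) / X) ≤ X / (PQ (z j) / X) := div_le_div_of_nonneg_left hX0.le hPX (by linarith)
      refine e1.trans ?_
      have e2 : X / (PQ (z j) / X) = X ^ 2 / PQ (z j) := by field_simp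
      rw [e2, ← Real.log_le_log_iff (by positivity) (by positivity), Real.log_rpow hj0, Real.log_div (by positivity) hP.ne', Real.log_pow]
      rw [le_div_iff₀ (by linarith)] at h1
      have e3 := hC' (z j)
      have e4 : (1 - δ) * ((c - δ) * Real.log j) ≤ (1 - δ) * z j := mul_le_mul_of_nonneg_left h1 (by linarith)
      have e5 : (c - η / 4) * Real.log j ≤ (1 - δ) * ((c - δ) * Real.log j) := by
        have e6 : c - η / 4 ≤ (1 - δ) * (c - δ) := by nlinarith
        calc (c - η / 4) * Real.log j ≤ (1 - δ) * (c - δ) * Real.log j := mul_le_mul_of_nonneg_right e6 (by linarith)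
          _ = _ := by ring
      rw [div_le_iff₀ hη] at h2'
      push_cast
      nlinarith
    unfold ex
    rcases le_total 1 (2 - c) with h | h
    · rw [min_eq_left h, max_eq_right zero_le_one]
      exact hm1.trans (Real.rpow_le_rpow_of_exponent_le hj1 (by linarith))
    · rw [min_eq_right h]
      refine hm2.trans (Real.rpow_le_rpow_of_exponent_le hj1 ?_)
      have := le_max_right 0 (2 - c)
      linarith
  · have e1 : (j : ℝ) ^ η ≤ (j : ℝ) ^ (ex c + η) := Real.rpow_le_rpow_of_exponent_le hj1 (by linarith [ex_nonneg c])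
    linarith

theorem MM_exp_lo {z : ℕ → ℕ} {c : ℝ} (hc0 : 0 ≤ c) (hc : Tendsto (fun j : ℕ => (z j : ℝ) / Real.log j) atTop (𝓝 c)) {η : ℝ} (hη : 0 < η) :
    ∀ᶠ i : ℕ in atTop, (i : ℝ) ^ (ex c - η) ≤ MM z i := by
  obtain ⟨δ, hδ⟩ : ∃ δ : ℝ, δ = min (η / (8 * (2 + c))) (1 / 2) := ⟨_, rfl⟩
  have hδ0 : 0 < δ := by rw [hδ]; exact lt_min (by positivity) (by norm_num)
  have hδ1 : δ * (2 + c) ≤ η / 8 := by
    have : δ ≤ η / (8 * (2 + c)) := by rw [hδ]; exact min_le_left _ _
    rw [le_div_iff₀ (by positivity)] at this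
    linarith
  have hδ2 : δ ≤ 1 / 2 := by rw [hδ]; exact min_le_right _ _
  obtain ⟨C, hC, hC'⟩ := logPQ_up hδ0
  have hlogpow := (isLittleO_log_rpow_atTop hη).bound (show (0 : ℝ) < 1 / 4 by norm_num)
  filter_upwards [hc.eventually (ge_mem_nhds (show c < c + δ by linarith)), log_large 2, log_large (8 * C / η), log_large (8 / η), eventually_ge_atTop 1,
    tendsto_natCast_atTop_atTop.eventually hlogpow] with j h1 h2 h2' h2'' hj h3
  have hj0 : (0 : ℝ) < j := by exact_mod_cast hj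
  have hj1 : (1 : ℝ) ≤ j := by exact_mod_cast hj
  have hl := hl2
  obtain ⟨g1, g2⟩ := lX hj
  rw [Real.norm_of_nonneg (by linarith), Real.norm_of_nonneg (by positivity)] at h3
  obtain ⟨X, hX⟩ : ∃ X, X = (j : ℝ) * Real.log 2 := ⟨_, rfl⟩
  have hX0 : 0 < X := by rw [hX]; positivity
  have hXj : (j : ℝ) / 2 ≤ X := by
    rw [hX]
    nlinarith [Real.log_two_gt_d9]
  have hP : (0 : ℝ) < PQ (z j) := by exact_mod_cast PQ_pos _
  have hPX : 0 < (PQ (z j) : ℝ) / X := div_pos hP hX0
  unfold MM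
  rw [← hX] at g1 g2 ⊢
  have hlX : 1 ≤ Real.log X := by linarith
  rcases le_total (2 - c) 0 with h | h
  · refine le_trans ?_ (le_max_right _ _)
    have e1 : ex c = 0 := by
      unfold ex
      rw [min_eq_right (by linarith), max_eq_left h]
    rw [e1]
    have e2 : (j : ℝ) ^ (0 - η) ≤ 1 := Real.rpow_le_one_of_one_le_of_nonpos hj1 (by linarith)
    linarith
  · refine le_trans ?_ (le_max_left _ _)
    have e1 : ex c ≤ 2 - c := by
      unfold ex
      exact max_le h (min_le_right _ _)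
    have e2 := ex_le_one c
    rw [le_div_iff₀ (by linarith), mul_add]
    have e3 : (j : ℝ) ^ (ex c - η) * Real.log X ≤ X / 2 := by
      calc (j : ℝ) ^ (ex c - η) * Real.log X ≤ (j : ℝ) ^ (ex c - η) * (1 / 4 * (j : ℝ) ^ η) :=
            mul_le_mul_of_nonneg_left (g2.trans h3) (by positivity)
        _ = 1 / 4 * ((j : ℝ) ^ (ex c - η) * (j : ℝ) ^ η) := by ring
        _ = 1 / 4 * (j : ℝ) ^ (ex c) := by
            rw [← Real.rpow_add hj0]
            congr 2
            ring
        _ ≤ 1 / 4 * (j : ℝ) ^ (1 : ℝ) := mul_le_mul_of_nonneg_left (Real.rpow_le_rpow_of_exponent_le hj1 e2) (by norm_num)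
        _ ≤ X / 2 := by rw [Real.rpow_one]; linarith
    have e4 : (j : ℝ) ^ (ex c - η) * (PQ (z j) / X) ≤ X / 2 := by
      rw [mul_div_assoc', div_le_iff₀ hX0]
      have e5 : (PQ (z j) : ℝ) ≤ (j : ℝ) ^ (c + η / 2) := by
        rw [← Real.log_le_log_iff hP (by positivity), Real.log_rpow hj0]
        rw [div_le_iff₀ (by linarith)] at h1
        have e3 := hC' (z j)
        have e4 : (1 + δ) * (z j : ℝ) ≤ (1 + δ) * ((c + δ) * Real.log j) := mul_le_mul_of_nonneg_left h1 (by linarith)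
        have e5 : (1 + δ) * ((c + δ) * Real.log j) ≤ (c + η / 8) * Real.log j := by
          have e6 : (1 + δ) * (c + δ) ≤ c + η / 8 := by nlinarith
          calc (1 + δ) * ((c + δ) * Real.log j) = (1 + δ) * (c + δ) * Real.log j := by ring
            _ ≤ _ := mul_le_mul_of_nonneg_right e6 (by linarith)
        rw [div_le_iff₀ hη] at h2'
        nlinarith
      have e6 : (j : ℝ) ^ (ex c - η) * (PQ (z j) : ℝ) ≤ (j : ℝ) ^ (2 - η / 2) := by
        calc (j : ℝ) ^ (ex c - η) * (PQ (z j) : ℝ) ≤ (j : ℝ) ^ (ex c - η) * (j : ℝ) ^ (c + η / 2) :=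
              mul_le_mul_of_nonneg_left e5 (by positivity)
          _ = (j : ℝ) ^ (ex c - η + (c + η / 2)) := by rw [← Real.rpow_add hj0]
          _ ≤ (j : ℝ) ^ (2 - η / 2) := Real.rpow_le_rpow_of_exponent_le hj1 (by linarith)
      have e7 : (j : ℝ) ^ (2 - η / 2) ≤ 1 / 8 * (j : ℝ) ^ 2 := by
        rw [← Real.log_le_log_iff (by positivity) (by positivity), Real.log_rpow hj0, Real.log_mul (by norm_num) (by positivity), Real.log_pow]
        have e8 : -Real.log 8 = Real.log (1 / 8) := by rw [one_div, Real.log_inv]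
        have e9 : Real.log 8 = 3 * Real.log 2 := by
          rw [show (8 : ℝ) = 2 ^ 3 by norm_num, Real.log_pow]
          norm_num
        have e10 : Real.log 2 < 0.7 := by linarith [Real.log_two_lt_d9]
        rw [div_le_iff₀ hη] at h2''
        rw [← e8, e9]
        push_cast
        linarith
      nlinarith
    linarith

/-- **The exponent of the longest run.** -/
theorem expo {z : ℕ → ℕ} {S : Set ℕ} (hS : Good z S) (hN : NS S) {c : ℝ} (hc0 : 0 ≤ c)
    (hc : Tendsto (fun j : ℕ => (z j : ℝ) / Real.log j) atTop (𝓝 c)) :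
    Tendsto (fun x : ℕ => Real.log (Lto S x) / Real.log (Real.log x)) atTop (𝓝 (ex c)) := by
  have hl := hl2
  have hl1 : Real.log 2 < 0.7 := by linarith [Real.log_two_lt_d9]
  have hl5 : 0.5 < Real.log 2 := by linarith [Real.log_two_gt_d9]
  have h1 : Tendsto (fun x => Nat.log 2 x - 1) atTop atTop := (tendsto_sub_atTop_nat 1).comp log2_top
  have hex := ex_nonneg c
  have hex1 := ex_le_one c
  have hMM1 : ∀ᶠ j : ℕ in atTop, 2 ≤ MM z j := by
    filter_upwards [log_large 2, eventually_ge_atTop 1] with j h2 hj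
    have := (lX hj).1
    unfold MM
    refine le_trans ?_ (le_max_right _ _)
    linarith
  rw [Metric.tendsto_nhds]
  intro ε hε
  obtain ⟨η, hη⟩ : ∃ η, η = ε / 4 := ⟨_, rfl⟩
  have hη0 : 0 < η := by rw [hη]; linarith
  have hup := upper_to hS hN (G := fun j : ℕ => (j : ℝ) ^ (ex c + η)) ((tendsto_rpow_atTop (by linarith)).comp tendsto_natCast_atTop_atTop)
    (Eventually.of_forall fun i J hJ => Real.rpow_le_rpow (Nat.cast_nonneg _) (by exact_mod_cast hJ) (by linarith))
    (MM_exp_up hc0 hc hη0) (ε := 1 / 2) (by norm_num) (by norm_num)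
  filter_upwards [lower_to hS (show (0 : ℝ) < 1 / 2 by norm_num) (by norm_num), hup, h1.eventually (MM_exp_lo hc0 hc hη0),
    h1.eventually hMM1, loglog_ev ((2 + η) / η + 1), log_large 8, log2_top.eventually (eventually_ge_atTop 3), eventually_ge_atTop 1] with
    x g1 g2 g3 g4 g5 g6 g7 hx
  obtain ⟨g8, g9⟩ := log_cmp hx
  have g7' : (3 : ℝ) ≤ Nat.log 2 x := by exact_mod_cast g7
  have e0 : ((Nat.log 2 x - 1 : ℕ) : ℝ) = (Nat.log 2 x : ℝ) - 1 := by
    rw [Nat.cast_sub (by omega)]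
    simp
  obtain ⟨J, hJ⟩ : ∃ J : ℝ, J = Nat.log 2 x := ⟨_, rfl⟩
  rw [← hJ] at g8 g9 g7' e0 g2
  rw [e0] at g3
  have hL1 : (1 : ℝ) ≤ Lto S x := by linarith
  obtain ⟨v, hv⟩ : ∃ v, v = Real.log (Real.log x) := ⟨_, rfl⟩
  rw [← hv] at g5 ⊢
  have hlx : 0 < Real.log (x : ℝ) := by linarith
  have hdiv1 : 0 < (2 + η) / η := by positivity
  have hv0 : 0 < v := by linarith
  have hvη : 2 + η ≤ v * η := by
    have : (2 + η) / η ≤ v := by linarith
    rwa [div_le_iff₀ hη0] at this
  -- the upper bound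
  have hu : Real.log (Lto S x) ≤ (ex c + 2 * η) * v := by
    have e1 := Real.log_le_log (by linarith) g2
    have hJ0 : 0 < J := by linarith
    rw [Real.log_mul (by norm_num) (by positivity), Real.log_rpow hJ0] at e1
    have e2 : Real.log J ≤ v + 1 := by
      have e3 : J ≤ 2 * Real.log x := by nlinarith
      have e4 := Real.log_le_log hJ0 e3
      rw [Real.log_mul (by norm_num) hlx.ne'] at e4
      linarith
    have e3 : Real.log (1 + 1 / 2) ≤ 1 := by
      have : Real.log (1 + 1 / 2) ≤ Real.log 2 := Real.log_le_log (by norm_num) (by norm_num)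
      linarith
    have e4 : (ex c + η) * Real.log J ≤ (ex c + η) * (v + 1) := mul_le_mul_of_nonneg_left e2 (by linarith)
    nlinarith
  -- the lower bound
  have hlo : (ex c - 2 * η) * v ≤ Real.log (Lto S x) := by
    have e1 : 0 ≤ Real.log (Lto S x) := Real.log_nonneg hL1
    rcases le_total (ex c) η with h | h
    · have : (ex c - 2 * η) * v ≤ 0 := mul_nonpos_of_nonpos_of_nonneg (by linarith) hv0.le
      linarith
    · have hJ0 : 0 < J - 1 := by linarith
      have e2 : (1 / 2) * (J - 1) ^ (ex c - η) ≤ Lto S x := by linarith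
      have e3 := Real.log_le_log (by positivity) e2
      rw [Real.log_mul (by norm_num) (by positivity), Real.log_rpow hJ0] at e3
      have e4 : v - 1 ≤ Real.log (J - 1) := by
        have e5 : Real.log x / 2 ≤ J - 1 := by nlinarith
        have e6 := Real.log_le_log (by positivity) e5
        rw [Real.log_div hlx.ne' (by norm_num)] at e6
        linarith
      have e5 : (ex c - η) * (v - 1) ≤ (ex c - η) * Real.log (J - 1) := mul_le_mul_of_nonneg_left e4 (by linarith)
      have e6 : -1 ≤ Real.log (1 / 2) := by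
        rw [one_div, Real.log_inv]
        linarith
      nlinarith
  rw [Real.dist_eq, abs_lt]
  constructor
  · have : ex c - 2 * η ≤ Real.log (Lto S x) / v := by rwa [le_div_iff₀ hv0]
    linarith
  · have : Real.log (Lto S x) / v ≤ ex c + 2 * η := by rwa [div_le_iff₀ hv0]
    linarith

end Pool.Agent.H38.LR
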